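import Pool.Agent.N586.AN.Stm

/-!
# T8 of project AN: the exponential sums over the algebraic numbers (helper301)
-/

set_option autoImplicit false

namespace Pool.Agent.N586.AN

open Finset Polynomial Filter
open Pool.Agent.Y933.KG (pol Om Av Alg alg_le card_Om_le sum_sq)
open Pool.Agent.Y933.KD (e)

/-- large powers of the logarithm -/
lemma ah_ev (c K : ℝ) (hc : 0 < c) : ∀ᶠ H : ℕ in atTop, K ≤ (Real.log H) ^ c :=
  ((tendsto_rpow_atTop hc).comp (Real.tendsto_log_atTop.comp tendsto_natCast_atTop_atTop)).eventually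
    (eventually_ge_atTop K)

lemma ah_exp {K L : ℝ} (hL : 1 ≤ L) (hK : 2 * K ≤ L ^ (3 / 5 : ℝ)) (h6 : 6 ≤ L ^ (1 / 10 : ℝ)) :
    K * L * Real.exp (-(L / 3) ^ (9 / 10 : ℝ)) ≤ Real.exp (-L ^ (4 / 5 : ℝ)) := by
  have hL0 : 0 < L := by linarith
  have h1 : K * L ≤ Real.exp (L ^ (4 / 5 : ℝ)) := by
    have e1 : L ^ (4 / 5 : ℝ) * L ^ (4 / 5 : ℝ) = L * L ^ (3 / 5 : ℝ) := by
      rw [← Real.rpow_add hL0]
      nth_rewrite 2 [← Real.rpow_one L]
      rw [← Real.rpow_add hL0]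
      norm_num
    have e2 := Real.quadratic_le_exp_of_nonneg (Real.rpow_nonneg hL0.le (4 / 5 : ℝ))
    have e3 : 0 ≤ L ^ (4 / 5 : ℝ) := Real.rpow_nonneg hL0.le _
    have e4 : L * (2 * K) ≤ L * L ^ (3 / 5 : ℝ) := mul_le_mul_of_nonneg_left hK hL0.le
    nlinarith
  have h2 : 2 * L ^ (4 / 5 : ℝ) ≤ (L / 3) ^ (9 / 10 : ℝ) := by
    rw [Real.div_rpow hL0.le (by norm_num)]
    have e1 : (3 : ℝ) ^ (9 / 10 : ℝ) ≤ 3 := by
      calc (3 : ℝ) ^ (9 / 10 : ℝ) ≤ 3 ^ (1 : ℝ) :=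
            Real.rpow_le_rpow_of_exponent_le (by norm_num) (by norm_num)
        _ = 3 := Real.rpow_one 3
    have e2 : 0 < (3 : ℝ) ^ (9 / 10 : ℝ) := by positivity
    have e3 : L ^ (9 / 10 : ℝ) = L ^ (4 / 5 : ℝ) * L ^ (1 / 10 : ℝ) := by
      rw [← Real.rpow_add hL0]
      norm_num
    rw [le_div_iff₀ e2, e3]
    have e4 : 0 ≤ L ^ (4 / 5 : ℝ) := Real.rpow_nonneg hL0.le _
    nlinarith
  calc K * L * Real.exp (-(L / 3) ^ (9 / 10 : ℝ)) ≤
        Real.exp (L ^ (4 / 5 : ℝ)) * Real.exp (-(2 * L ^ (4 / 5 : ℝ))) := by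
        apply mul_le_mul h1 _ (Real.exp_pos _).le (Real.exp_pos _).le
        exact Real.exp_le_exp.2 (neg_le_neg h2)
    _ = Real.exp (-L ^ (4 / 5 : ℝ)) := by
        rw [← Real.exp_add]
        congr 1
        ring

theorem t_ah (h : S_TOT) (h2 : S_ALG) : S_AH := by
  classical
  intro q
  obtain ⟨δ', hδ'0, hδ'1, htot⟩ := h q
  refine ⟨δ' / 2, by positivity, by linarith, ?_⟩
  intro δ₀ hδ₀
  obtain ⟨H0, hH0⟩ := htot δ₀ hδ₀
  obtain ⟨C, hC, H1, hH1⟩ := h2 q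
  obtain ⟨Cq, hCq, halg⟩ := alg_le q
  obtain ⟨C1, hC1⟩ : ∃ C1 : ℝ, C1 = 3 ^ (q + 3) * (q + 2) := ⟨_, rfl⟩
  have hC10 : 0 ≤ C1 := by rw [hC1]; positivity
  obtain ⟨H2, hH2⟩ := eventually_atTop.1 (ah_ev (1 / 20) 3 (by norm_num))
  obtain ⟨H3, hH3⟩ := eventually_atTop.1 (ah_ev (δ' / 2) 9 (by positivity))
  obtain ⟨H4, hH4⟩ := eventually_atTop.1 (ah_ev (3 / 5) (2 * ((2 * C1 + Cq) * C)) (by norm_num))
  obtain ⟨H5, hH5⟩ := eventually_atTop.1 (ah_ev (1 / 10) 6 (by norm_num))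
  obtain ⟨H6, hH6⟩ := eventually_atTop.1 (ah_ev 1 3 (by norm_num))
  obtain ⟨H7, hH7⟩ := eventually_atTop.1
    (((tendsto_rpow_atTop (show (0 : ℝ) < 1 / 6 by norm_num)).comp
      tendsto_natCast_atTop_atTop).eventually (eventually_ge_atTop ((H0 : ℝ) + 2)) :
      ∀ᶠ H : ℕ in atTop, (H0 : ℝ) + 2 ≤ (H : ℝ) ^ (1 / 6 : ℝ))
  refine ⟨H1 + H2 + H3 + H4 + H5 + H6 + H7 + 1, fun H hH => ?_⟩
  have hHa : H1 ≤ H := by omega
  have hHb : H2 ≤ H := by omega
  have hHc : H3 ≤ H := by omega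
  have hHd : H4 ≤ H := by omega
  have hHe : H5 ≤ H := by omega
  have hHf : H6 ≤ H := by omega
  have hHg : H7 ≤ H := by omega
  have hH1' : 1 ≤ H := by omega
  have hHR : (1 : ℝ) ≤ H := by exact_mod_cast hH1'
  have hHp : (0 : ℝ) < H := by linarith
  intro G hG1 hG2 hG3 hG4 θ hθ1 hθ2 s hs
  have hncard : (Alg (q + 2) H).ncard = s.card := by
    rw [← Set.ncard_coe_finset]
    congr 1
    ext x
    rw [Finset.mem_coe, hs]
  have hmany := hH1 H hHa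
  rw [hncard] at hmany
  obtain ⟨L, hL⟩ : ∃ L : ℝ, L = Real.log H := ⟨_, rfl⟩
  have h20 := hH2 H hHb
  have hd9 := hH3 H hHc
  have hK := hH4 H hHd
  have h10 := hH5 H hHe
  have hL3 := hH6 H hHf
  have hbig : (H0 : ℝ) + 2 ≤ (H : ℝ) ^ ((1 : ℝ) / 6) := hH7 H hHg
  rw [Real.rpow_one] at hL3
  rw [← hL] at h20 hd9 hK h10 hL3 hmany hG3 hG4 hθ2 ⊢
  have hL0 : 0 < L := by linarith
  obtain ⟨E, hE⟩ : ∃ E : ℝ, E = Real.exp (-(L / 3) ^ (9 / 10 : ℝ)) := ⟨_, rfl⟩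
  have hE0 : 0 < E := by rw [hE]; exact Real.exp_pos _
  have hsqE : ((H : ℝ) ^ ((1 : ℝ) / 2))⁻¹ ≤ E := by
    rw [hE, ← Real.rpow_neg hHp.le, Real.rpow_def_of_pos hHp, ← hL]
    apply Real.exp_le_exp.2
    have e1 : (L / 3) ^ (9 / 10 : ℝ) ≤ (L / 3) ^ (1 : ℝ) :=
      Real.rpow_le_rpow_of_exponent_le (by linarith) (by norm_num)
    rw [Real.rpow_one] at e1
    linarith
  have hH0p : (0 : ℝ) ≤ H0 := Nat.cast_nonneg _
  have h16 : 1 ≤ (H : ℝ) ^ ((1 : ℝ) / 6) := Real.one_le_rpow hHR (by norm_num)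
  -- the integral part of the square root
  have hsq : (H : ℝ) ^ ((1 : ℝ) / 3) ≤ ((Nat.sqrt H : ℕ) : ℝ) := by
    have h1 : (H : ℝ) ^ ((1 : ℝ) / 2) < (Nat.sqrt H : ℕ) + 1 := by
      rw [← Real.sqrt_eq_rpow]
      exact Real.real_sqrt_lt_nat_sqrt_succ
    have h2 : (H : ℝ) ^ ((1 : ℝ) / 2) = (H : ℝ) ^ ((1 : ℝ) / 3) * (H : ℝ) ^ ((1 : ℝ) / 6) := by
      rw [← Real.rpow_add hHp]
      norm_num
    have h3 : 1 ≤ (H : ℝ) ^ ((1 : ℝ) / 3) := Real.one_le_rpow hHR (by norm_num)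
    nlinarith
  have hHH0 : (H0 : ℝ) ≤ (H : ℝ) ^ ((1 : ℝ) / 3) := by
    have h2 : (H : ℝ) ^ ((1 : ℝ) / 3) = (H : ℝ) ^ ((1 : ℝ) / 6) * (H : ℝ) ^ ((1 : ℝ) / 6) := by
      rw [← Real.rpow_add hHp]
      norm_num
    rw [h2]
    nlinarith
  have hterm : ∀ g ∈ Finset.Icc 1 H, ‖∑ p ∈ Om q (H / g), e (θ * G.eval p.2.2)‖ ≤
      C1 * ((H : ℝ) ^ (q + 3) * E) * ((g : ℝ) ^ 2)⁻¹ := by
    intro g hg
    rw [Finset.mem_Icc] at hg
    obtain ⟨hg1, hg2⟩ := hg
    have hgR : (1 : ℝ) ≤ g := by exact_mod_cast hg1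
    have hgp : (0 : ℝ) < g := by linarith
    have hh1 : 1 ≤ H / g := (Nat.one_le_div_iff hg1).2 hg2
    have hhR : (1 : ℝ) ≤ ((H / g : ℕ) : ℝ) := by exact_mod_cast hh1
    have hhle : ((H / g : ℕ) : ℝ) ≤ (H : ℝ) / g := Nat.cast_div_le
    have hhH : ((H / g : ℕ) : ℝ) ≤ H := by
      have : H / g ≤ H := Nat.div_le_self _ _
      exact_mod_cast this
    have hcard : ((Om q (H / g)).card : ℝ) ≤ C1 * ((H : ℝ) / g) ^ (q + 3) := by
      refine (card_Om_le q (H / g) hh1).trans ?_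
      rw [← hC1]
      gcongr
    rcases le_or_gt g (Nat.sqrt H) with hgs | hgs
    · have h1 : Nat.sqrt H ≤ H / g := by
        rw [Nat.le_div_iff_mul_le (by omega)]
        calc Nat.sqrt H * g ≤ Nat.sqrt H * Nat.sqrt H := Nat.mul_le_mul_left _ hgs
          _ ≤ H := Nat.sqrt_le H
      have h2 : (H : ℝ) ^ ((1 : ℝ) / 3) ≤ ((H / g : ℕ) : ℝ) := by
        refine hsq.trans ?_
        exact_mod_cast h1
      have h3 : H0 ≤ H / g := by
        have : (H0 : ℝ) ≤ ((H / g : ℕ) : ℝ) := hHH0.trans h2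
        exact_mod_cast this
      -- the logarithm
      have hlog : L / 3 ≤ Real.log ((H / g : ℕ) : ℝ) := by
        have e1 := Real.log_le_log (by positivity) h2
        rw [Real.log_rpow hHp, ← hL] at e1
        linarith
      have hl0 : 0 < Real.log ((H / g : ℕ) : ℝ) := by linarith
      have hl45 : L ^ (3 / 4 : ℝ) ≤ (Real.log ((H / g : ℕ) : ℝ)) ^ (4 / 5 : ℝ) := by
        refine le_trans ?_ (Real.rpow_le_rpow (by positivity) hlog (by norm_num))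
        rw [Real.div_rpow hL0.le (by norm_num)]
        have e1 : (3 : ℝ) ^ (4 / 5 : ℝ) ≤ 3 := by
          calc (3 : ℝ) ^ (4 / 5 : ℝ) ≤ 3 ^ (1 : ℝ) :=
                Real.rpow_le_rpow_of_exponent_le (by norm_num) (by norm_num)
            _ = 3 := Real.rpow_one 3
        have e2 : 0 < (3 : ℝ) ^ (4 / 5 : ℝ) := by positivity
        have e3 : L ^ (4 / 5 : ℝ) = L ^ (3 / 4 : ℝ) * L ^ (1 / 20 : ℝ) := by
          rw [← Real.rpow_add hL0]
          norm_num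
        rw [le_div_iff₀ e2, e3]
        apply mul_le_mul_of_nonneg_left _ (by positivity)
        linarith
      have hlδ : L ^ (1 + δ' / 2) ≤ (Real.log ((H / g : ℕ) : ℝ)) ^ (1 + δ') := by
        refine le_trans ?_ (Real.rpow_le_rpow (by positivity) hlog (by positivity))
        rw [Real.div_rpow hL0.le (by norm_num)]
        have e1 : (3 : ℝ) ^ (1 + δ') ≤ 9 := by
          calc (3 : ℝ) ^ (1 + δ') ≤ 3 ^ (2 : ℝ) :=
                Real.rpow_le_rpow_of_exponent_le (by norm_num) (by linarith)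
            _ = 9 := by norm_num
        have e2 : 0 < (3 : ℝ) ^ (1 + δ') := by positivity
        have e3 : L ^ (1 + δ') = L ^ (1 + δ' / 2) * L ^ (δ' / 2) := by
          rw [← Real.rpow_add hL0]
          congr 1
          ring
        rw [le_div_iff₀ e2, e3]
        apply mul_le_mul_of_nonneg_left _ (by positivity)
        linarith
      have hl910 : (L / 3) ^ (9 / 10 : ℝ) ≤ (Real.log ((H / g : ℕ) : ℝ)) ^ (9 / 10 : ℝ) :=
        Real.rpow_le_rpow (by positivity) hlog (by norm_num)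
      have h5 := hH0 (H / g) h3 G hG1 hG2
        (fun i hi => (hG3 i hi).trans (Real.exp_le_exp.2 hl45))
        (le_trans (Real.exp_le_exp.2 (neg_le_neg hl45)) hG4) θ
        (le_trans (Real.rpow_le_rpow (by positivity) hhH hδ₀.le) hθ1)
        (hθ2.trans (Real.exp_le_exp.2 hlδ))
      refine h5.trans ?_
      calc ((Om q (H / g)).card : ℝ) * Real.exp (-(Real.log ((H / g : ℕ) : ℝ)) ^ (9 / 10 : ℝ)) ≤
            (C1 * ((H : ℝ) / g) ^ (q + 3)) * E := by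
            apply mul_le_mul hcard _ (Real.exp_pos _).le (by positivity)
            rw [hE]
            exact Real.exp_le_exp.2 (neg_le_neg hl910)
        _ = C1 * ((H : ℝ) ^ (q + 3) * E) * ((g : ℝ) ^ (q + 3))⁻¹ := by
            rw [div_pow, div_eq_mul_inv]
            ring
        _ ≤ C1 * ((H : ℝ) ^ (q + 3) * E) * ((g : ℝ) ^ 2)⁻¹ := by
            apply mul_le_mul_of_nonneg_left _ (by positivity)
            apply inv_anti₀ (by positivity)
            exact pow_le_pow_right₀ hgR (by omega)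
    · have h1 : (H : ℝ) ^ ((1 : ℝ) / 2) ≤ g := by
        have h2 : (H : ℝ) ^ ((1 : ℝ) / 2) < (Nat.sqrt H : ℕ) + 1 := by
          rw [← Real.sqrt_eq_rpow]
          exact Real.real_sqrt_lt_nat_sqrt_succ
        have h3 : ((Nat.sqrt H : ℕ) : ℝ) + 1 ≤ g := by exact_mod_cast hgs
        linarith
      have h2 : ‖∑ p ∈ Om q (H / g), e (θ * G.eval p.2.2)‖ ≤ ((Om q (H / g)).card : ℝ) := by
        refine (norm_sum_le _ _).trans (le_of_eq ?_)
        rw [Finset.sum_congr rfl fun p _ => Pool.Agent.Y933.KD.norm_e _, Finset.sum_const,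
          nsmul_eq_mul, mul_one]
      refine h2.trans (hcard.trans ?_)
      calc C1 * ((H : ℝ) / g) ^ (q + 3)
          = C1 * ((H : ℝ) ^ (q + 3) * ((g : ℝ) ^ q * (g * (g : ℝ) ^ 2))⁻¹) := by
            rw [div_pow, div_eq_mul_inv]
            congr 3
            ring
        _ ≤ C1 * ((H : ℝ) ^ (q + 3) * (1 * ((H : ℝ) ^ ((1 : ℝ) / 2) * (g : ℝ) ^ 2))⁻¹) := by
            apply mul_le_mul_of_nonneg_left _ hC10
            apply mul_le_mul_of_nonneg_left _ (by positivity)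
            apply inv_anti₀ (by positivity)
            apply mul_le_mul (one_le_pow₀ hgR) _ (by positivity) (by positivity)
            exact mul_le_mul_of_nonneg_right h1 (by positivity)
        _ = C1 * ((H : ℝ) ^ (q + 3) * ((H : ℝ) ^ ((1 : ℝ) / 2))⁻¹) * ((g : ℝ) ^ 2)⁻¹ := by
            rw [one_mul, mul_inv]
            ring
        _ ≤ _ := by gcongr
  have h1 := halg H hH1' (fun x => e (θ * G.eval x))
    (fun x => (Pool.Agent.Y933.KD.norm_e _).le) s hs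
  have h2 : ∑ g ∈ Finset.Icc 1 H, ‖∑ p ∈ Om q (H / g), e (θ * G.eval p.2.2)‖ ≤
      C1 * ((H : ℝ) ^ (q + 3) * E) * 2 := by
    refine (Finset.sum_le_sum hterm).trans ?_
    rw [← Finset.mul_sum]
    apply mul_le_mul_of_nonneg_left (sum_sq H hH1') (by positivity)
  have h3 : (H : ℝ) ^ (q + 2) * Real.sqrt H ≤ (H : ℝ) ^ (q + 3) * E := by
    have e1 : (H : ℝ) ^ (q + 2) * Real.sqrt H = (H : ℝ) ^ (q + 3) * ((H : ℝ) ^ ((1 : ℝ) / 2))⁻¹ := by
      rw [Real.sqrt_eq_rpow, ← Real.rpow_neg hHp.le, ← Real.rpow_natCast (H : ℝ) (q + 2),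
        ← Real.rpow_natCast (H : ℝ) (q + 3), ← Real.rpow_add hHp, ← Real.rpow_add hHp]
      congr 1
      push_cast
      ring
    rw [e1]
    gcongr
  have h4 : ‖∑ x ∈ s, e (θ * G.eval x)‖ ≤ (2 * C1 + Cq) * ((H : ℝ) ^ (q + 3) * E) := by
    have h5 : Cq * ((H : ℝ) ^ (q + 2) * Real.sqrt H) ≤ Cq * ((H : ℝ) ^ (q + 3) * E) :=
      mul_le_mul_of_nonneg_left h3 hCq
    have h6 := h1.trans (add_le_add h2 h5)
    refine h6.trans (le_of_eq ?_)
    ring
  refine h4.trans ?_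
  have h7 := ah_exp (K := (2 * C1 + Cq) * C) (L := L) (by linarith) hK h10
  calc (2 * C1 + Cq) * ((H : ℝ) ^ (q + 3) * E) ≤
        (2 * C1 + Cq) * ((C * L * (s.card : ℝ)) * E) := by gcongr
    _ = (s.card : ℝ) * ((2 * C1 + Cq) * C * L * E) := by ring
    _ ≤ (s.card : ℝ) * Real.exp (-L ^ (4 / 5 : ℝ)) := by
        apply mul_le_mul_of_nonneg_left _ (Nat.cast_nonneg _)
        rw [hE]
        exact h7

end Pool.Agent.N586.AN
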