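import Pool.Agent.N586.AN.Stm

/-!
# T7: the number of real algebraic numbers of degree `q + 2` and height at most `H`, with a logarithm
(the proof is the one of `Y933.KG.Alg_many`)
-/

set_option autoImplicit false

namespace Pool.Agent.N586.AN

open Finset Polynomial Filter
open Pool.Agent.Y933.KG
open Pool.Agent.Y933.KD.VdC (ev_le)

/-- Chebyshev: many primes in `(H / 4, H]` -/
lemma Alg_primes : ∀ᶠ H : ℕ in atTop, (H : ℝ) / 4 ≤ ((Pr4 H).card : ℝ) * Real.log H := by
  have h1 : ∀ᶠ H : ℕ in atTop, (16 : ℝ) ≤ (H : ℝ) ^ (1 / 4 : ℝ) := ev_le 16 (1 / 4) (by norm_num)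
  have hlogo : ∀ ε : ℝ, 0 < ε → ∀ᶠ H : ℕ in atTop, Real.log H ≤ ε * (H : ℝ) ^ (1 / 4 : ℝ) := by
    intro ε hε
    have h2 := (isLittleO_log_rpow_atTop (by norm_num : (0 : ℝ) < 1 / 4)).comp_tendsto
      tendsto_natCast_atTop_atTop
    filter_upwards [h2.def hε, eventually_ge_atTop 1] with H hH hH1
    simp only [Function.comp, Real.norm_eq_abs] at hH
    rw [abs_of_nonneg (by positivity : (0 : ℝ) ≤ (H : ℝ) ^ (1 / 4 : ℝ))] at hH
    exact (le_abs_self _).trans hH
  filter_upwards [hlogo (1 / 100) (by norm_num), h1, eventually_ge_atTop 4]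
    with H hlog1 hbig hH4
  have hHR : (4 : ℝ) ≤ H := by exact_mod_cast hH4
  have hHp : (0 : ℝ) < H := by linarith
  have hlogpos : 0 < Real.log H := Real.log_pos (by linarith)
  -- a lower bound for the sum of the logarithms
  have hθ1 := Chebyshev.theta_ge H
  have hθ2 := Chebyshev.theta_le_log4_mul_x (x := ((H / 4 : ℕ) : ℝ)) (Nat.cast_nonneg _)
  have hlog2 : (0.69 : ℝ) < Real.log 2 := by linarith [Real.log_two_gt_d9]
  have hlog2' : Real.log 2 < (0.7 : ℝ) := by linarith [Real.log_two_lt_d9]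
  have hlog4 : Real.log 4 = 2 * Real.log 2 := by
    rw [show (4 : ℝ) = 2 ^ 2 by norm_num, Real.log_pow]
    norm_num
  have hH4' : ((H / 4 : ℕ) : ℝ) ≤ (H : ℝ) / 4 := Nat.cast_div_le
  have hsum : Chebyshev.theta H - Chebyshev.theta ((H / 4 : ℕ) : ℝ) ≤
      ((Pr4 H).card : ℝ) * Real.log H := by
    rw [Chebyshev.theta_eq_sum_Icc, Chebyshev.theta_eq_sum_Icc, Nat.floor_natCast, Nat.floor_natCast]
    have h2 : ((Finset.Icc 0 H).filter Nat.Prime) =
        ((Finset.Icc 0 (H / 4)).filter Nat.Prime) ∪ Pr4 H := by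
      ext p
      simp only [Pr4, Finset.mem_union, Finset.mem_filter, Finset.mem_Icc, Finset.mem_Ioc]
      constructor
      · rintro ⟨⟨_, h3⟩, h4⟩
        rcases le_or_gt p (H / 4) with h5 | h5
        · exact Or.inl ⟨⟨by omega, h5⟩, h4⟩
        · exact Or.inr ⟨⟨h5, h3⟩, h4⟩
      · rintro (⟨⟨_, h3⟩, h4⟩ | ⟨⟨h3, h5⟩, h4⟩)
        · exact ⟨⟨by omega, by omega⟩, h4⟩
        · exact ⟨⟨by omega, h5⟩, h4⟩
    have h3 : Disjoint ((Finset.Icc 0 (H / 4)).filter Nat.Prime) (Pr4 H) := by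
      rw [Finset.disjoint_left]
      intro p hp hp'
      simp only [Pr4, Finset.mem_filter, Finset.mem_Icc, Finset.mem_Ioc] at hp hp'
      omega
    rw [h2, Finset.sum_union h3, add_sub_cancel_left]
    calc ∑ p ∈ Pr4 H, Real.log p ≤ ∑ _p ∈ Pr4 H, Real.log H := by
          refine sum_le_sum fun p hp => ?_
          simp only [Pr4, Finset.mem_filter, Finset.mem_Ioc] at hp
          exact Real.log_le_log (by exact_mod_cast hp.2.pos) (by exact_mod_cast hp.1.2)
      _ = _ := by rw [sum_const, nsmul_eq_mul]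
  have hq4 : ((H : ℝ) ^ (1 / 4 : ℝ)) ^ 4 = H := by
    rw [← Real.rpow_natCast, ← Real.rpow_mul hHp.le]
    norm_num
  set y : ℝ := (H : ℝ) ^ (1 / 4 : ℝ) with hy
  have hsqrt : √(H : ℝ) = y ^ 2 := by
    rw [← hq4, show y ^ 4 = (y ^ 2) ^ 2 by ring, Real.sqrt_sq (by positivity)]
  have hlogp1 : Real.log ((H : ℝ) + 1) ≤ Real.log H + 1 := by
    have h2 : (H : ℝ) + 1 ≤ H * Real.exp 1 := by
      have := Real.add_one_le_exp (1 : ℝ)
      nlinarith
    calc Real.log ((H : ℝ) + 1) ≤ Real.log (H * Real.exp 1) := Real.log_le_log (by linarith) h2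
      _ = Real.log H + 1 := by rw [Real.log_mul hHp.ne' (Real.exp_pos 1).ne', Real.log_exp]
  refine le_trans ?_ hsum
  have h3 : Chebyshev.theta ((H / 4 : ℕ) : ℝ) ≤ Real.log 2 * H / 2 := by
    refine hθ2.trans ?_
    rw [hlog4]
    nlinarith
  have h4 : 2 * √(H : ℝ) * Real.log H ≤ (H : ℝ) / 50 := by
    rw [hsqrt]
    calc 2 * y ^ 2 * Real.log H ≤ 2 * y ^ 2 * (1 / 100 * y) := by gcongr
      _ ≤ y ^ 4 / 50 := by
          have h5 : 0 ≤ y ^ 3 := by positivity
          nlinarith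
      _ = _ := by rw [hq4]
  have h5 : Real.log H + 1 ≤ (H : ℝ) / 50 := by
    have h6 : Real.log H ≤ y / 100 := by linarith
    have h7 : y * 16 ^ 3 ≤ H := by
      rw [← hq4]
      have : (16 : ℝ) ^ 3 ≤ y ^ 3 := by gcongr
      nlinarith
    linarith
  have h6 : (H : ℝ) * Real.log 2 / 2 ≥ (H : ℝ) * 0.69 / 2 := by
    have := mul_le_mul_of_nonneg_left hlog2.le hHp.le
    linarith
  nlinarith

/-- T7 -/
theorem t_alg : S_ALG := by
  classical
  intro q
  refine ⟨4 * 64 ^ (q + 2), by positivity, ?_⟩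
  rw [← eventually_atTop]
  filter_upwards [Alg_primes, eventually_ge_atTop 64] with H hpr hH64
  have hHR : (64 : ℝ) ≤ H := by exact_mod_cast hH64
  have hHp : (0 : ℝ) < H := by linarith
  set U : ℕ := H / 32 with hU
  set I : Finset (ℕ × ℕ × (Fin (q + 1) → ℕ)) :=
    Pr4 H ×ˢ (range U ×ˢ Fintype.piFinset fun _ : Fin (q + 1) => range U) with hI
  have hmemI : ∀ z ∈ I, z.1.Prime ∧ z.1 ≤ H ∧ 8 * U ≤ z.1 ∧ z.2.1 < U ∧ ∀ i, z.2.2 i < U := by
    intro z hz
    rw [hI, Finset.mem_product, Finset.mem_product] at hz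
    obtain ⟨h1, h2, h3⟩ := hz
    simp only [Pr4, Finset.mem_filter, Finset.mem_Ioc] at h1
    refine ⟨h1.2, h1.1.2, by omega, Finset.mem_range.1 h2, fun i => ?_⟩
    rw [Fintype.mem_piFinset] at h3
    exact Finset.mem_range.1 (h3 i)
  have hex : ∀ z : ℕ × ℕ × (Fin (q + 1) → ℕ), ∃ x : ℝ, z ∈ I → aeval x (ep q z.1 z.2.1 z.2.2) = 0 := by
    intro z
    by_cases hz : z ∈ I
    · obtain ⟨_, _, h3, h4, _⟩ := hmemI z hz
      obtain ⟨x, hx⟩ := ep_root (v := z.2.2) h4 h3
      exact ⟨x, fun _ => hx⟩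
    · exact ⟨0, fun h => absurd h hz⟩
  choose g hg using hex
  have hinj : Set.InjOn g (I : Set (ℕ × ℕ × (Fin (q + 1) → ℕ))) := by
    intro z hz z' hz' hzz
    obtain ⟨h1, h2, h3, h4, h5⟩ := hmemI z hz
    obtain ⟨h1', h2', h3', h4', h5'⟩ := hmemI z' hz'
    have hP := ep_irreducible (q := q) (v := z.2.2) h1 h4 h3
    have hQ := ep_irreducible (q := q) (v := z'.2.2) h1' h4' h3'
    have hPd := ep_natDegree (q := q) (u := z.2.1) (v := z.2.2) h1.ne_zero
    have hQd := ep_natDegree (q := q) (u := z'.2.1) (v := z'.2.2) h1'.ne_zero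
    have hx := hg z hz
    have hx' := hg z' hz'
    rw [← hzz] at hx'
    have heq := pol_unique hP hQ
      (by rw [leadingCoeff, hPd, ep_coeff_top]; exact_mod_cast h1.pos)
      (by rw [leadingCoeff, hQd, ep_coeff_top]; exact_mod_cast h1'.pos)
      (by rw [hPd]; omega) (by rw [hQd]; omega) hx hx'
    have e1 : z.1 = z'.1 := by
      have := congrArg (fun P => P.coeff (q + 2)) heq
      simp only [ep_coeff_top] at this
      exact_mod_cast this
    have e2 : z.2.1 = z'.2.1 := by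
      have := congrArg (fun P => P.coeff 0) heq
      simp only [ep_coeff_zero] at this
      omega
    have e3 : z.2.2 = z'.2.2 := by
      funext i
      have := congrArg (fun P => P.coeff ((i : ℕ) + 1)) heq
      simp only [ep_coeff_mid] at this
      omega
    exact Prod.ext e1 (Prod.ext e2 e3)
  have himg : ((I.image g : Finset ℝ) : Set ℝ) ⊆ Alg (q + 2) H := by
    intro x hx
    rw [Finset.mem_coe, Finset.mem_image] at hx
    obtain ⟨z, hz, rfl⟩ := hx
    obtain ⟨h1, h2, h3, h4, h5⟩ := hmemI z hz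
    refine ⟨ep q z.1 z.2.1 z.2.2, ep_irreducible h1 h4 h3, ep_natDegree h1.ne_zero, ?_, hg z hz⟩
    intro n
    rcases Nat.eq_zero_or_pos n with rfl | hn
    · rw [ep_coeff_zero, abs_neg]
      rw [abs_of_nonneg (by positivity)]
      omega
    · rcases lt_trichotomy n (q + 2) with h | h | h
      · have h6 := ep_coeff_mid q z.1 z.2.1 z.2.2 ⟨n - 1, by omega⟩
        simp only at h6
        rw [show n - 1 + 1 = n by omega] at h6
        rw [h6, abs_of_nonneg (by positivity)]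
        have := h5 ⟨n - 1, by omega⟩
        omega
      · rw [h, ep_coeff_top, abs_of_nonneg (by positivity)]
        exact_mod_cast h2
      · rw [ep_coeff_big _ _ _ _ h, abs_zero]
        positivity
  have hcard : I.card ≤ (Alg (q + 2) H).ncard := by
    rw [← Finset.card_image_of_injOn hinj, ← Set.ncard_coe_finset]
    exact Set.ncard_le_ncard himg (Alg_finite q H)
  have hIcard : (I.card : ℝ) = ((Pr4 H).card : ℝ) * (U : ℝ) ^ (q + 2) := by
    rw [hI, Finset.card_product, Finset.card_product, Fintype.card_piFinset_const, card_range]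
    push_cast
    ring
  have hU1 : (H : ℝ) / 64 ≤ (U : ℝ) := by
    have : H ≤ 64 * U := by omega
    have : (H : ℝ) ≤ 64 * (U : ℝ) := by exact_mod_cast this
    linarith
  have hlog : 0 ≤ Real.log H := Real.log_nonneg (by linarith)
  calc (H : ℝ) ^ (q + 3) = 4 * 64 ^ (q + 2) * ((H : ℝ) / 4) * ((H : ℝ) / 64) ^ (q + 2) := by
        rw [div_pow, pow_succ]
        field_simp
    _ ≤ 4 * 64 ^ (q + 2) * (((Pr4 H).card : ℝ) * Real.log H) * (U : ℝ) ^ (q + 2) := by gcongr
    _ = 4 * 64 ^ (q + 2) * Real.log H * (I.card : ℝ) := by rw [hIcard]; ring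
    _ ≤ _ := by
        have h1 : (I.card : ℝ) ≤ ((Alg (q + 2) H).ncard : ℝ) := by exact_mod_cast hcard
        exact mul_le_mul_of_nonneg_left h1 (by positivity)

end Pool.Agent.N586.AN
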