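import Pool.Agent.N586.AN.Stm

set_option autoImplicit false

namespace Pool.Agent.N586.AN

open Finset Filter

/-! # T2: the branch of the root -/

/-- `∑ t_k s ^ k` -/
noncomputable def BrE (D : ℕ) (t : ℕ → ℝ) (s : ℂ) : ℂ := ∑ k ∈ Finset.Icc 2 D, (t k : ℂ) * s ^ k

lemma Br_E_le (D : ℕ) (t : ℕ → ℝ) (T : ℝ) (hT : 0 ≤ T) (ht : ∀ k ∈ Finset.Icc 2 D, |t k| ≤ T)
    (s : ℂ) (hs : ‖s‖ ≤ 1) : ‖BrE D t s‖ ≤ D * T * ‖s‖ ^ 2 := by
  unfold BrE
  calc ‖∑ k ∈ Finset.Icc 2 D, (t k : ℂ) * s ^ k‖ ≤ ∑ k ∈ Finset.Icc 2 D, T * ‖s‖ ^ 2 := by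
        refine norm_sum_le_of_le _ fun k hk => ?_
        rw [norm_mul, norm_pow, Complex.norm_real, Real.norm_eq_abs]
        exact mul_le_mul (ht k hk) (pow_le_pow_of_le_one (norm_nonneg _) hs
          (Finset.mem_Icc.1 hk).1) (by positivity) hT
    _ = ((Finset.Icc 2 D).card : ℝ) * (T * ‖s‖ ^ 2) := by simp
    _ ≤ D * (T * ‖s‖ ^ 2) := by
        refine mul_le_mul_of_nonneg_right ?_ (by positivity)
        rw [Nat.card_Icc]
        exact_mod_cast (by omega : D + 1 - 2 ≤ D)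
    _ = _ := by ring

lemma Br_pow (s s' : ℂ) (R : ℝ) (h : ‖s‖ ≤ R) (h' : ‖s'‖ ≤ R) (k : ℕ) :
    ‖s ^ (k + 1) - s' ^ (k + 1)‖ ≤ (k + 1) * R ^ k * ‖s - s'‖ := by
  have hR : 0 ≤ R := (norm_nonneg _).trans h
  induction k with
  | zero => simp
  | succ k ih =>
    have e : s ^ (k + 1 + 1) - s' ^ (k + 1 + 1) =
        s * (s ^ (k + 1) - s' ^ (k + 1)) + s' ^ (k + 1) * (s - s') := by ring
    rw [e]
    calc _ ≤ ‖s * (s ^ (k + 1) - s' ^ (k + 1))‖ + ‖s' ^ (k + 1) * (s - s')‖ := norm_add_le _ _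
      _ = ‖s‖ * ‖s ^ (k + 1) - s' ^ (k + 1)‖ + ‖s'‖ ^ (k + 1) * ‖s - s'‖ := by
          rw [norm_mul, norm_mul, norm_pow]
      _ ≤ R * ((k + 1) * R ^ k * ‖s - s'‖) + R ^ (k + 1) * ‖s - s'‖ := by
          gcongr
      _ = _ := by push_cast; ring

lemma Br_E_lip (D : ℕ) (t : ℕ → ℝ) (T : ℝ) (hT : 0 ≤ T) (ht : ∀ k ∈ Finset.Icc 2 D, |t k| ≤ T)
    (s s' : ℂ) (R : ℝ) (hR : R ≤ 1) (hs : ‖s‖ ≤ R) (hs' : ‖s'‖ ≤ R) :
    ‖BrE D t s - BrE D t s'‖ ≤ D ^ 2 * T * R * ‖s - s'‖ := by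
  have hR0 : 0 ≤ R := (norm_nonneg _).trans hs
  unfold BrE
  rw [← Finset.sum_sub_distrib]
  calc _ ≤ ∑ k ∈ Finset.Icc 2 D, T * (D * R * ‖s - s'‖) := by
        refine norm_sum_le_of_le _ fun k hk => ?_
        rw [← mul_sub, norm_mul, Complex.norm_real, Real.norm_eq_abs]
        refine mul_le_mul (ht k hk) ?_ (norm_nonneg _) hT
        obtain ⟨h2, hD⟩ := Finset.mem_Icc.1 hk
        obtain ⟨j, rfl⟩ : ∃ j, k = j + 1 + 1 := ⟨k - 2, by omega⟩
        refine (Br_pow s s' R hs hs' (j + 1)).trans ?_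
        refine mul_le_mul_of_nonneg_right ?_ (norm_nonneg _)
        have h3 : R ^ (j + 1) ≤ R := by
          have := pow_le_pow_of_le_one hR0 hR (show 1 ≤ j + 1 by omega)
          simpa using this
        have h4 : ((j + 1 : ℕ) : ℝ) + 1 ≤ D := by exact_mod_cast hD
        exact mul_le_mul h4 h3 (by positivity) (by positivity)
    _ = ((Finset.Icc 2 D).card : ℝ) * (T * (D * R * ‖s - s'‖)) := by simp
    _ ≤ D * (T * (D * R * ‖s - s'‖)) := by
        refine mul_le_mul_of_nonneg_right ?_ (by positivity)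
        rw [Nat.card_Icc]
        exact_mod_cast (by omega : D + 1 - 2 ≤ D)
    _ = _ := by ring

lemma Br_E_diff (D : ℕ) (t : ℕ → ℝ) : Differentiable ℂ (BrE D t) := by
  unfold BrE
  fun_prop

/-- the iterates -/
noncomputable def BrS (D : ℕ) (t : ℕ → ℝ) (p₁ V w₀ : ℝ) : ℕ → ℂ → ℂ
  | 0, _ => 0
  | m + 1, z => -(z * w₀ + BrE D t (BrS D t p₁ V w₀ m z)) / (p₁ + z * V)

section it

variable {D : ℕ} {t : ℕ → ℝ} {p₁ V w₀ T : ℝ}

lemma Br_den (hp : p₁ ≠ 0) (hV : 4 ≤ V) (z : ℂ) (hz : ‖z‖ < |p₁| / (2 * V)) :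
    |p₁| / 2 ≤ ‖(p₁ : ℂ) + z * V‖ := by
  have h1 : ‖z * V‖ ≤ |p₁| / 2 := by
    rw [norm_mul, Complex.norm_real, Real.norm_eq_abs, abs_of_pos (by linarith : 0 < V)]
    have h2 : ‖z‖ * (2 * V) ≤ |p₁| := by
      rw [lt_div_iff₀ (by linarith)] at hz
      exact hz.le
    linarith
  have h3 : ‖(p₁ : ℂ)‖ - ‖z * V‖ ≤ ‖(p₁ : ℂ) + z * V‖ := by
    have := norm_sub_norm_le (p₁ : ℂ) (-(z * V))
    rw [norm_neg, sub_neg_eq_add] at this
    exact this
  rw [Complex.norm_real, Real.norm_eq_abs] at h3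
  linarith

lemma Br_rad (hp : p₁ ≠ 0) (hV : 4 ≤ V) (z : ℂ) (hz : ‖z‖ < |p₁| / (2 * V)) :
    8 * ‖z‖ / |p₁| ≤ 4 / V := by
  have hP : 0 < |p₁| := abs_pos.2 hp
  rw [lt_div_iff₀ (by linarith)] at hz
  rw [div_le_div_iff₀ hP (by linarith)]
  nlinarith

lemma Br_S_le (hp : p₁ ≠ 0) (hV : 4 ≤ V) (hw : 1 ≤ w₀) (hw' : w₀ ≤ 2) (hT : 0 ≤ T)
    (ht : ∀ k ∈ Finset.Icc 2 D, |t k| ≤ T) (h64 : 64 * ((D : ℝ) + 1) ^ 2 * T ≤ V * |p₁|)
    (z : ℂ) (hz : ‖z‖ < |p₁| / (2 * V)) (m : ℕ) :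
    ‖BrS D t p₁ V w₀ m z‖ ≤ 8 * ‖z‖ / |p₁| := by
  have hP : 0 < |p₁| := abs_pos.2 hp
  have hV0 : 0 < V := by linarith
  induction m with
  | zero => simp only [BrS, norm_zero]; positivity
  | succ m ih =>
    set s := BrS D t p₁ V w₀ m z with hs
    have h1 := Br_den hp hV z hz
    have h2 := Br_rad hp hV z hz
    have h3 : (4 : ℝ) / V ≤ 1 := by rw [div_le_one hV0]; exact hV
    have h4 : ‖s‖ ≤ 1 := ih.trans (h2.trans h3)
    have h5 := Br_E_le D t T hT ht s h4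
    have h6 : ‖s‖ ^ 2 ≤ 4 / V * (8 * ‖z‖ / |p₁|) := by
      rw [sq]
      exact mul_le_mul (ih.trans h2) ih (norm_nonneg _) (by positivity)
    have h7 : (D : ℝ) * T * ‖s‖ ^ 2 ≤ ‖z‖ / 2 := by
      have h8 : 64 * ((D : ℝ) * T) ≤ V * |p₁| := by
        refine le_trans ?_ h64
        have : (D : ℝ) ≤ ((D : ℝ) + 1) ^ 2 := by nlinarith [Nat.cast_nonneg (α := ℝ) D]
        nlinarith
      calc (D : ℝ) * T * ‖s‖ ^ 2 ≤ (D : ℝ) * T * (4 / V * (8 * ‖z‖ / |p₁|)) := by gcongr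
        _ = 64 * ((D : ℝ) * T) * (‖z‖ / (2 * (V * |p₁|))) := by
            field_simp
            ring
        _ ≤ V * |p₁| * (‖z‖ / (2 * (V * |p₁|))) := by gcongr
        _ = _ := by field_simp
    have h9 : ‖z * w₀‖ ≤ 2 * ‖z‖ := by
      rw [norm_mul, Complex.norm_real, Real.norm_eq_abs, abs_of_pos (by linarith : 0 < w₀)]
      nlinarith [norm_nonneg z]
    have h10 : ‖-(z * w₀ + BrE D t s)‖ ≤ 4 * ‖z‖ := by
      rw [norm_neg]
      refine (norm_add_le _ _).trans ?_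
      nlinarith [norm_nonneg z]
    have h11 : BrS D t p₁ V w₀ (m + 1) z = -(z * w₀ + BrE D t s) / (p₁ + z * V) := rfl
    rw [h11, norm_div]
    calc _ ≤ 4 * ‖z‖ / (|p₁| / 2) := by gcongr
      _ = _ := by ring

lemma Br_S_sub (hp : p₁ ≠ 0) (hV : 4 ≤ V) (hw : 1 ≤ w₀) (hw' : w₀ ≤ 2) (hT : 0 ≤ T)
    (ht : ∀ k ∈ Finset.Icc 2 D, |t k| ≤ T) (h64 : 64 * ((D : ℝ) + 1) ^ 2 * T ≤ V * |p₁|)
    (z : ℂ) (hz : ‖z‖ < |p₁| / (2 * V)) (m : ℕ) :
    ‖BrS D t p₁ V w₀ (m + 1) z - BrS D t p₁ V w₀ m z‖ ≤ (1 / 2) ^ m := by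
  have hP : 0 < |p₁| := abs_pos.2 hp
  have hV0 : 0 < V := by linarith
  have hr := Br_rad hp hV z hz
  have h41 : (4 : ℝ) / V ≤ 1 := by rw [div_le_one hV0]; exact hV
  induction m with
  | zero =>
    have h := Br_S_le hp hV hw hw' hT ht h64 z hz 1
    have h0 : BrS D t p₁ V w₀ 0 z = 0 := rfl
    rw [h0, sub_zero, pow_zero]
    exact h.trans (hr.trans h41)
  | succ m ih =>
    have e1 : BrS D t p₁ V w₀ (m + 1 + 1) z =
      -(z * w₀ + BrE D t (BrS D t p₁ V w₀ (m + 1) z)) / (p₁ + z * V) := rfl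
    have e2 : BrS D t p₁ V w₀ (m + 1) z =
      -(z * w₀ + BrE D t (BrS D t p₁ V w₀ m z)) / (p₁ + z * V) := rfl
    have e3 : BrS D t p₁ V w₀ (m + 1 + 1) z - BrS D t p₁ V w₀ (m + 1) z =
        -(BrE D t (BrS D t p₁ V w₀ (m + 1) z) - BrE D t (BrS D t p₁ V w₀ m z)) /
          (p₁ + z * V) := by
      rw [e1]
      conv_lhs => rw [e2]
      rw [e2]
      ring
    have h1 := Br_den hp hV z hz
    have h2 := Br_E_lip D t T hT ht (BrS D t p₁ V w₀ (m + 1) z) (BrS D t p₁ V w₀ m z) (4 / V) h41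
      ((Br_S_le hp hV hw hw' hT ht h64 z hz (m + 1)).trans hr)
      ((Br_S_le hp hV hw hw' hT ht h64 z hz m).trans hr)
    rw [e3, norm_div, norm_neg]
    have h3 : (D : ℝ) ^ 2 * T * (4 / V) ≤ |p₁| / 4 := by
      have h8 : 64 * ((D : ℝ) ^ 2 * T) ≤ V * |p₁| := by
        refine le_trans ?_ h64
        have : (D : ℝ) ^ 2 ≤ ((D : ℝ) + 1) ^ 2 := by nlinarith [Nat.cast_nonneg (α := ℝ) D]
        nlinarith
      calc (D : ℝ) ^ 2 * T * (4 / V) = 64 * ((D : ℝ) ^ 2 * T) * (1 / (16 * V)) := by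
            field_simp; ring
        _ ≤ V * |p₁| * (1 / (16 * V)) := by gcongr
        _ = |p₁| / 16 := by field_simp
        _ ≤ _ := by linarith
    calc _ ≤ (|p₁| / 4 * (1 / 2) ^ m) / (|p₁| / 2) := by
          gcongr
          exact h2.trans (mul_le_mul h3 ih (norm_nonneg _) (by positivity))
      _ = _ := by field_simp; ring

lemma Br_S_diff (hp : p₁ ≠ 0) (hV : 4 ≤ V) (m : ℕ) :
    DifferentiableOn ℂ (BrS D t p₁ V w₀ m) (Metric.ball 0 (|p₁| / (2 * V))) := by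
  induction m with
  | zero => exact differentiableOn_const 0
  | succ m ih =>
    have h : BrS D t p₁ V w₀ (m + 1) =
      fun z => -(z * w₀ + BrE D t (BrS D t p₁ V w₀ m z)) / (p₁ + z * V) := rfl
    rw [h]
    refine DifferentiableOn.div ?_ (by fun_prop) ?_
    · refine DifferentiableOn.neg (DifferentiableOn.add (by fun_prop) ?_)
      exact (Br_E_diff D t).comp_differentiableOn ih
    · intro z hz h0
      rw [mem_ball_zero_iff] at hz
      have := Br_den hp hV z hz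
      rw [h0, norm_zero] at this
      have hP : 0 < |p₁| := abs_pos.2 hp
      linarith

lemma Br_S_real (y : ℝ) (m : ℕ) : (BrS D t p₁ V w₀ m y).im = 0 := by
  have : ∃ x : ℝ, BrS D t p₁ V w₀ m y = x := by
    induction m with
    | zero => exact ⟨0, by simp [BrS]⟩
    | succ m ih =>
      obtain ⟨x, hx⟩ := ih
      refine ⟨-(y * w₀ + ∑ k ∈ Finset.Icc 2 D, t k * x ^ k) / (p₁ + y * V), ?_⟩
      have h : BrS D t p₁ V w₀ (m + 1) y =
        -(y * w₀ + BrE D t (BrS D t p₁ V w₀ m y)) / (p₁ + y * V) := rfl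
      rw [h, hx]
      unfold BrE
      push_cast
      rfl
  obtain ⟨x, hx⟩ := this
  rw [hx, Complex.ofReal_im]

end it

/-- the branch -/
lemma Br_branch (D : ℕ) (t : ℕ → ℝ) (p₁ V w₀ T : ℝ) (hp : p₁ ≠ 0) (hV : 4 ≤ V) (hw : 1 ≤ w₀)
    (hw' : w₀ ≤ 2) (hT : 0 ≤ T)
    (ht : ∀ k ∈ Finset.Icc 2 D, |t k| ≤ T) (h64 : 64 * ((D : ℝ) + 1) ^ 2 * T ≤ V * |p₁|) :
    ∃ s : ℂ → ℂ, DifferentiableOn ℂ s (Metric.ball 0 (|p₁| / (2 * V))) ∧
      (∀ z ∈ Metric.ball (0 : ℂ) (|p₁| / (2 * V)), ‖s z‖ ≤ 8 * ‖z‖ / |p₁| ∧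
        s z = -(z * w₀ + BrE D t (s z)) / (p₁ + z * V)) ∧
      ∀ y : ℝ, |y| < |p₁| / (2 * V) → (s y).im = 0 := by
  have hlim : ∀ z ∈ Metric.ball (0 : ℂ) (|p₁| / (2 * V)),
      Tendsto (fun m => BrS D t p₁ V w₀ m z) atTop
        (nhds (∑' m, (BrS D t p₁ V w₀ (m + 1) z - BrS D t p₁ V w₀ m z))) := by
    intro z hz
    rw [mem_ball_zero_iff] at hz
    have hs : Summable (fun m => BrS D t p₁ V w₀ (m + 1) z - BrS D t p₁ V w₀ m z) :=
      Summable.of_norm_bounded (g := fun m => (1 / 2 : ℝ) ^ m) summable_geometric_two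
        (fun m => Br_S_sub hp hV hw hw' hT ht h64 z hz m)
    have h := hs.hasSum.tendsto_sum_nat
    refine h.congr fun m => ?_
    rw [Finset.sum_range_sub (fun m => BrS D t p₁ V w₀ m z) m]
    show _ - (0 : ℂ) = _
    rw [sub_zero]
  refine ⟨fun z => ∑' m, (BrS D t p₁ V w₀ (m + 1) z - BrS D t p₁ V w₀ m z), ?_, ?_, ?_⟩
  · refine Complex.differentiableOn_tsum_of_summable_norm (u := fun m => (1 / 2 : ℝ) ^ m)
      summable_geometric_two (fun m => (Br_S_diff hp hV (m + 1)).sub (Br_S_diff hp hV m))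
      Metric.isOpen_ball ?_
    intro m z hz
    rw [mem_ball_zero_iff] at hz
    exact Br_S_sub hp hV hw hw' hT ht h64 z hz m
  · intro z hz
    have h := hlim z hz
    refine ⟨?_, ?_⟩
    · refine le_of_tendsto h.norm (Eventually.of_forall fun m => ?_)
      rw [mem_ball_zero_iff] at hz
      exact Br_S_le hp hV hw hw' hT ht h64 z hz m
    · have h2 := (tendsto_add_atTop_iff_nat 1).2 h
      have h3 : Tendsto (fun m => -(z * w₀ + BrE D t (BrS D t p₁ V w₀ m z)) / (p₁ + z * V)) atTop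
          (nhds (-(z * w₀ + BrE D t
            (∑' m, (BrS D t p₁ V w₀ (m + 1) z - BrS D t p₁ V w₀ m z))) / (p₁ + z * V))) := by
        refine Tendsto.div_const (Tendsto.neg (Tendsto.const_add _ ?_)) _
        exact ((Br_E_diff D t).continuous.tendsto _).comp h
      exact tendsto_nhds_unique h2 h3
  · intro y hy
    have hz : (y : ℂ) ∈ Metric.ball (0 : ℂ) (|p₁| / (2 * V)) := by
      rw [mem_ball_zero_iff, Complex.norm_real, Real.norm_eq_abs]
      exact hy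
    have h := hlim y hz
    have h2 := (Complex.continuous_im.tendsto _).comp h
    have h3 : (Complex.im ∘ fun m => BrS D t p₁ V w₀ m (y : ℂ)) = fun _ => (0 : ℝ) := by
      funext m
      exact Br_S_real y m
    rw [h3] at h2
    exact (tendsto_nhds_unique h2 tendsto_const_nhds)

theorem t_br : S_BR := by
  intro D t γ p₁ V w₀ T Γ hp hV hw hw' hT hΓ ht hγ h64
  obtain ⟨s, hsd, hs, hsr⟩ := Br_branch D t p₁ V w₀ T hp hV hw hw' hT ht h64
  have hP : 0 < |p₁| := abs_pos.2 hp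
  have hV0 : 0 < V := by linarith
  have h41 : (4 : ℝ) / V ≤ 1 := by rw [div_le_one hV0]; exact hV
  set U := Metric.ball (0 : ℂ) (|p₁| / (2 * V)) with hU
  set u : ℂ → ℂ := fun z => -((γ 1 : ℂ) * BrE D t (s z)) / (p₁ + z * V) + BrE D γ (s z) with hu
  set ε : ℝ := (32 * D * T * |γ 1| / |p₁| + 16 * D * Γ) / V ^ 2 with hε
  have hden : ∀ z ∈ U, |p₁| / 2 ≤ ‖(p₁ : ℂ) + z * V‖ := fun z hz =>
    Br_den hp hV z (mem_ball_zero_iff.1 hz)
  have hden0 : ∀ z ∈ U, (p₁ : ℂ) + z * V ≠ 0 := by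
    intro z hz h0
    have := hden z hz
    rw [h0, norm_zero] at this
    linarith
  have hud : DifferentiableOn ℂ u U := by
    refine DifferentiableOn.add (DifferentiableOn.div ?_ (by fun_prop) hden0) ?_
    · exact (DifferentiableOn.const_mul ((Br_E_diff D t).comp_differentiableOn hsd) _).neg
    · exact (Br_E_diff D γ).comp_differentiableOn hsd
  have hub : ∀ z ∈ U, ‖u z‖ ≤ ε := by
    intro z hz
    have h1 : ‖s z‖ ≤ 4 / V := (hs z hz).1.trans (Br_rad hp hV z (mem_ball_zero_iff.1 hz))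
    have h2 := Br_E_le D t T hT ht (s z) (h1.trans h41)
    have h3 := Br_E_le D γ Γ hΓ hγ (s z) (h1.trans h41)
    have h4 : ‖s z‖ ^ 2 ≤ (4 / V) ^ 2 := pow_le_pow_left₀ (norm_nonneg _) h1 2
    have h5 : ‖-((γ 1 : ℂ) * BrE D t (s z)) / (p₁ + z * V)‖ ≤
        |γ 1| * (D * T * (4 / V) ^ 2) / (|p₁| / 2) := by
      rw [norm_div, norm_neg, norm_mul, Complex.norm_real, Real.norm_eq_abs]
      have h6 := hden z hz
      gcongr
      exact h2.trans (by gcongr)
    have h7 : ‖BrE D γ (s z)‖ ≤ D * Γ * (4 / V) ^ 2 := h3.trans (by gcongr)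
    calc ‖u z‖ ≤ ‖-((γ 1 : ℂ) * BrE D t (s z)) / (p₁ + z * V)‖ + ‖BrE D γ (s z)‖ :=
          norm_add_le _ _
      _ ≤ |γ 1| * (D * T * (4 / V) ^ 2) / (|p₁| / 2) + D * Γ * (4 / V) ^ 2 := add_le_add h5 h7
      _ = ε := by
          rw [hε]
          field_simp
          ring
  have h0U : (0 : ℂ) ∈ U := by
    rw [hU, mem_ball_zero_iff, norm_zero]
    positivity
  have hs0 : s 0 = 0 := by
    have := (hs 0 h0U).1
    rw [norm_zero, mul_zero, zero_div] at this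
    exact norm_le_zero_iff.1 this
  have hE0 : ∀ τ : ℕ → ℝ, BrE D τ 0 = 0 := by
    intro τ
    unfold BrE
    refine Finset.sum_eq_zero fun k hk => ?_
    rw [zero_pow (by have := (Finset.mem_Icc.1 hk).1; omega), mul_zero]
  have hu0 : u 0 = 0 := by
    simp only [hu, hs0, hE0]
    simp
  -- the Taylor coefficients
  set uc : ℕ → ℂ := fun k => ((k.factorial : ℕ) : ℂ)⁻¹ * iteratedDeriv k u 0 with huc
  have huc0 : uc 0 = 0 := by
    simp only [huc, iteratedDeriv_zero, hu0, mul_zero]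
  have huk : ∀ k, ‖uc k‖ ≤ ε * (4 * V / |p₁|) ^ k := by
    intro k
    have hρ : 0 < |p₁| / (4 * V) := by positivity
    have hsub : Metric.closedBall (0 : ℂ) (|p₁| / (4 * V)) ⊆ U := by
      refine Metric.closedBall_subset_ball ?_
      rw [div_lt_div_iff₀ (by positivity) (by positivity)]
      nlinarith
    have h1 := Complex.norm_iteratedDeriv_le_of_forall_mem_sphere_norm_le k hρ
      (hud.diffContOnCl_ball hsub) (C := ε) (fun z hz => hub z (hsub
        (Metric.sphere_subset_closedBall hz)))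
    have hk : (0 : ℝ) < (k.factorial : ℕ) := by exact_mod_cast k.factorial_pos
    simp only [huc]
    rw [norm_mul, norm_inv, Complex.norm_natCast]
    calc _ ≤ ((k.factorial : ℕ) : ℝ)⁻¹ * (k.factorial * ε / (|p₁| / (4 * V)) ^ k) := by gcongr
      _ = ε * (4 * V / |p₁|) ^ k := by
          rw [div_pow, div_pow]
          field_simp
  refine ⟨fun y => (s y).re, fun k => γ 1 * ((-1) ^ k * w₀ * V ^ (k - 1) / p₁ ^ k) + (uc k).re,
    ?_, ?_⟩
  · intro y hy
    have hyU' : |y| < |p₁| / (2 * V) := by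
      refine hy.trans_lt ?_
      rw [div_lt_div_iff₀ (by positivity) (by positivity)]
      nlinarith
    have hyU : (y : ℂ) ∈ U := by
      rw [hU, mem_ball_zero_iff, Complex.norm_real, Real.norm_eq_abs]
      exact hyU'
    have hre : s y = (((s y).re : ℝ) : ℂ) := by
      apply Complex.ext
      · simp
      · rw [hsr y hyU', Complex.ofReal_im]
    obtain ⟨hle, heq⟩ := hs y hyU
    have hEre : ∀ τ : ℕ → ℝ, BrE D τ (s y) =
        ((∑ k ∈ Finset.Icc 2 D, τ k * (s y).re ^ k : ℝ) : ℂ) := by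
      intro τ
      unfold BrE
      conv_lhs => rw [hre]
      push_cast
      rfl
    have hd0 := hden0 y hyU
    have hd0' : p₁ + y * V ≠ 0 := by exact_mod_cast hd0
    have heqR : (s y).re = -(y * w₀ + ∑ k ∈ Finset.Icc 2 D, t k * (s y).re ^ k) / (p₁ + y * V) := by
      have h2 := heq
      rw [hEre t] at h2
      generalize (s y).re = x at *
      rw [hre] at h2
      exact_mod_cast h2
    refine ⟨?_, ?_, ?_⟩
    · rw [eq_div_iff hd0'] at heqR
      linarith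
    · rw [hre, Complex.norm_real, Real.norm_eq_abs, Complex.norm_real, Real.norm_eq_abs] at hle
      exact hle
    · -- the two series
      have hser1 : HasSum (fun k : ℕ => γ 1 * ((-1) ^ (k + 1) * w₀ * V ^ (k + 1 - 1) / p₁ ^ (k + 1)) *
          y ^ (k + 1)) (-(γ 1 * y * w₀) / (p₁ + y * V)) := by
        have hq : ‖-(y * V / p₁)‖ < 1 := by
          rw [norm_neg, Real.norm_eq_abs, abs_div, abs_mul, abs_of_pos hV0, div_lt_one hP]
          rw [lt_div_iff₀ (by positivity)] at hyU'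
          nlinarith [abs_nonneg y]
        have h1 := (hasSum_geometric_of_norm_lt_one hq).mul_left (-(γ 1 * y * w₀ / p₁))
        have h2 : -(γ 1 * y * w₀ / p₁) * (1 - -(y * V / p₁))⁻¹ = -(γ 1 * y * w₀) / (p₁ + y * V) := by
          have h3 : 1 - -(y * V / p₁) = (p₁ + y * V) / p₁ := by field_simp; ring
          rw [h3, inv_div]
          field_simp
        rw [h2] at h1
        have h4 : (fun k : ℕ => γ 1 * ((-1) ^ (k + 1) * w₀ * V ^ (k + 1 - 1) / p₁ ^ (k + 1)) *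
            y ^ (k + 1)) = fun k : ℕ => -(γ 1 * y * w₀ / p₁) * (-(y * V / p₁)) ^ k := by
          funext k
          rw [Nat.add_sub_cancel, neg_pow (y * V / p₁), div_pow, mul_pow, pow_succ, pow_succ,
            pow_succ]
          field_simp
        rw [h4]
        exact h1
      have hser2 : HasSum (fun k : ℕ => (uc (k + 1)).re * y ^ (k + 1)) (u y).re := by
        have h1 := Complex.hasSum_taylorSeries_on_ball hud hyU
        have h2 := (hasSum_nat_add_iff' 1).2 h1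
        have h3 := Complex.hasSum_re h2
        have h4 : (u y - ∑ i ∈ Finset.range 1, ((i.factorial : ℕ) : ℂ)⁻¹ • ((y : ℂ) - 0) ^ i •
            iteratedDeriv i u 0).re = (u y).re := by
          rw [Finset.sum_range_one, iteratedDeriv_zero, hu0]
          simp
        rw [h4] at h3
        have h5 : (fun k : ℕ => (uc (k + 1)).re * y ^ (k + 1)) = fun k : ℕ =>
            ((((k + 1).factorial : ℕ) : ℂ)⁻¹ • ((y : ℂ) - 0) ^ (k + 1) •
            iteratedDeriv (k + 1) u 0).re := by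
          funext k
          rw [sub_zero, smul_eq_mul, smul_eq_mul, ← Complex.ofReal_pow]
          have : (((k + 1).factorial : ℕ) : ℂ)⁻¹ * (((y ^ (k + 1) : ℝ) : ℂ) *
              iteratedDeriv (k + 1) u 0) = uc (k + 1) * ((y ^ (k + 1) : ℝ) : ℂ) := by
            simp only [huc]
            ring
          rw [this, Complex.re_mul_ofReal]
        rw [h5]
        exact h3
      have hsum := hser1.add hser2
      have hval : -(γ 1 * y * w₀) / (p₁ + y * V) + (u y).re =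
          γ 1 * (s y).re + ∑ k ∈ Finset.Icc 2 D, γ k * (s y).re ^ k := by
        have h1 : u y = ((-(γ 1 * ∑ k ∈ Finset.Icc 2 D, t k * (s y).re ^ k) / (p₁ + y * V) +
            ∑ k ∈ Finset.Icc 2 D, γ k * (s y).re ^ k : ℝ) : ℂ) := by
          simp only [hu]
          rw [hEre t, hEre γ]
          push_cast
          rfl
        rw [h1, Complex.ofReal_re]
        have h2 : γ 1 * (s y).re = γ 1 * (-(y * w₀ + ∑ k ∈ Finset.Icc 2 D, t k * (s y).re ^ k) /
          (p₁ + y * V)) := by rw [← heqR]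
        rw [h2]
        ring
      rw [hval] at hsum
      have h4 : (fun k : ℕ => (γ 1 * ((-1) ^ (k + 1) * w₀ * V ^ (k + 1 - 1) / p₁ ^ (k + 1)) +
          (uc (k + 1)).re) * y ^ (k + 1)) = fun k : ℕ =>
          γ 1 * ((-1) ^ (k + 1) * w₀ * V ^ (k + 1 - 1) / p₁ ^ (k + 1)) * y ^ (k + 1) +
          (uc (k + 1)).re * y ^ (k + 1) := by
        funext k
        ring
      simp only [h4]
      exact hsum
  · intro k hk
    have h1 := huk k
    have h2 : |(uc k).re| ≤ ‖uc k‖ := Complex.abs_re_le_norm _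
    rw [add_sub_cancel_left]
    exact h2.trans h1

end Pool.Agent.N586.AN
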