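import Pool.Agent.N586.AN.Stm2

/-!
# Project AN, U9 (helper216): the central limit theorem for the digits of random algebraic numbers
-/

set_option autoImplicit false

namespace Pool.Agent.N586.AN

open Finset Real Filter Polynomial MeasureTheory Topology ProbabilityTheory
open Pool.Agent.Y933.KD
open Pool.Agent.Y933.KG (Om Alg Alg_finite Alg_many wd_shift)
open Pool.Agent.N586.RT (logpow log_ge events_test clt_lim)

/-- the real polynomial `f / m` -/
noncomputable def clt_G (f : ℤ[X]) (m : ℕ) : ℝ[X] :=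
  C ((m : ℝ)⁻¹) * f.map (Int.castRingHom ℝ)

theorem clt_G_eval (f : ℤ[X]) (m : ℕ) (x : ℝ) : (clt_G f m).eval x = aeval x f / (m : ℝ) := by
  unfold clt_G
  rw [eval_mul, eval_C, eval_map, aeval_def, div_eq_inv_mul]
  rfl

theorem clt_G_coeff (f : ℤ[X]) (m i : ℕ) : (clt_G f m).coeff i = (m : ℝ)⁻¹ * (f.coeff i : ℝ) := by
  unfold clt_G
  rw [coeff_C_mul, coeff_map]
  rfl

theorem clt_G_deg (f : ℤ[X]) (m : ℕ) (hm : 1 ≤ m) : (clt_G f m).natDegree = f.natDegree := by
  unfold clt_G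
  have hm0 : ((m : ℝ)⁻¹) ≠ 0 := by
    have : (m : ℝ) ≠ 0 := by exact_mod_cast (by omega : m ≠ 0)
    exact inv_ne_zero this
  rw [natDegree_C_mul hm0]
  exact natDegree_map_eq_of_injective (RingHom.injective_int _) _

/-- the measures -/
noncomputable def clt_P (q b : ℕ) (n0 : ℕ → ℕ) (f : ℕ → ℤ[X]) (m : ℕ → ℕ) (H : ℕ) : Measure ℝ :=
  open Classical in
  if (Alg (q + 2) H).Nonempty then
    unif (Alg_finite q H).toFinset (fun x : ℝ => (b : ℝ) ^ n0 H * (aeval x (f H) / (m H : ℝ)))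
  else Leb

instance (q b : ℕ) (n0 : ℕ → ℕ) (f : ℕ → ℤ[X]) (m : ℕ → ℕ) (H : ℕ) :
    IsProbabilityMeasure (clt_P q b n0 f m H) := by
  unfold clt_P
  split_ifs with h
  · refine unif_prob ?_ _
    rw [Set.Finite.toFinset_nonempty]
    exact h
  · infer_instance

theorem clt_WS_shift (b w : ℕ) (G : ℕ → ℝ) (n0 s N : ℕ) (y : ℝ) :
    WS b w G s N ((b : ℝ) ^ n0 * y) = WS b w G (n0 + s) N y := by
  unfold WS
  refine Finset.sum_congr rfl fun i _ => ?_
  rw [wd_shift, add_assoc]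

theorem clt_nonempty (q : ℕ) : ∀ᶠ H : ℕ in atTop, (Alg (q + 2) H).Nonempty := by
  filter_upwards [Alg_many q 1 one_pos, eventually_ge_atTop 1] with H h1 h2
  have h3 : (0 : ℝ) < (H : ℝ) ^ ((q : ℝ) + 3 - 1) := by
    have : (0 : ℝ) < H := by exact_mod_cast h2
    positivity
  have h4 : (0 : ℝ) < ((Alg (q + 2) H).ncard : ℝ) := h3.trans_le h1
  have h5 : 0 < (Alg (q + 2) H).ncard := by exact_mod_cast h4
  exact (Set.ncard_pos (Alg_finite q H)).1 h5

/-- the Fourier coefficients of the measures -/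
theorem clt_hat (h : S_AH2) (q : ℕ) (δ β c₀ : ℝ) (hδ : 0 < δ) (hβ : 0 < β) (h2 : 2 * δ + β < 1)
    (hc₀ : 0 < c₀) (b : ℕ) (hb : 2 ≤ b) (f : ℕ → ℤ[X]) (m s N : ℕ → ℕ)
    (hok : ∀ᶠ H : ℕ in atTop, Sml q β H (f H) (m H))
    (hs : ∀ᶠ H : ℕ in atTop, c₀ * Real.log H ≤ s H)
    (hsN : ∀ᶠ H : ℕ in atTop, (s H : ℝ) + N H ≤ (Real.log H) ^ (1 + δ)) :
    ∃ β' : ℝ, 0 < β' ∧ (∀ᶠ H : ℕ in atTop, ⌈c₀ / 2 * Real.log H⌉₊ ≤ s H) ∧
      ∀ k : ℕ, ∀ᶠ H : ℕ in atTop, ∀ (n : Fin k → ℕ) (g : Fin k → ℤ),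
        (∀ i, n i ≤ (s H - ⌈c₀ / 2 * Real.log H⌉₊) + N H) →
        (∀ i, |(g i : ℝ)| ≤ Real.exp ((Real.log H) ^ β')) → ∑ i, g i * (b : ℤ) ^ n i ≠ 0 →
        ‖hat (clt_P q b (fun H => ⌈c₀ / 2 * Real.log H⌉₊) f m H) (∑ i, g i * (b : ℤ) ^ n i)‖ ≤
          Real.exp (-(Real.log H) ^ β') := by
  set γ : ℝ := (1 - (2 * δ + β)) / 8 with hγ
  have hγ0 : 0 < γ := by rw [hγ]; linarith
  set δ' : ℝ := δ + γ with hδ'
  set β' : ℝ := β + γ with hβ'
  have h3 : 2 * δ' + β' < 1 := by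
    rw [hδ', hβ', hγ]; linarith
  have hβ0' : 0 < β' := by rw [hβ']; linarith
  have hδ0' : 0 < δ' := by rw [hδ']; linarith
  set δ₀ : ℝ := c₀ / 2 * Real.log 2 with hδ₀
  have hδ₀0 : 0 < δ₀ := mul_pos (by linarith) (Real.log_pos (by norm_num))
  obtain ⟨H0, hH0⟩ := h q δ' β' hδ0' hβ0' h3 δ₀ hδ₀0
  refine ⟨β', hβ0', ?_, ?_⟩
  · filter_upwards [hs, log_ge (2 / c₀)] with H g1 g2
    rw [Nat.ceil_le]
    refine le_trans ?_ g1
    have : 0 < Real.log H := lt_of_lt_of_le (by positivity) g2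
    nlinarith
  · intro k
    have hns : ∀ᶠ H : ℕ in atTop, ⌈c₀ / 2 * Real.log H⌉₊ ≤ s H := by
      filter_upwards [hs, log_ge (2 / c₀)] with H g1 g2
      rw [Nat.ceil_le]
      refine le_trans ?_ g1
      have : 0 < Real.log H := lt_of_lt_of_le (by positivity) g2
      nlinarith
    filter_upwards [eventually_ge_atTop H0, hok, hns, hsN, clt_nonempty q, log_ge (max 1 k),
      logpow (by linarith : (1 : ℝ) + δ < 1 + δ') (2 * Real.log b),
      logpow (by linarith : (1 : ℝ) < 1 + δ') 4, logpow (by linarith : β' < 1) 1,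
      logpow (by rw [hβ']; linarith : β < β') 1, eventually_ge_atTop 2]
      with H g0 g1 g2 g3 g4 g5 g6 g7 g8 g9 g10 n g hn hg hne
    obtain ⟨f1, f2, f3, m1, m2⟩ := g1
    have hHR : (2 : ℝ) ≤ H := by exact_mod_cast g10
    have hL1 : 1 ≤ Real.log H := (le_max_left _ _).trans g5
    have hkL : (k : ℝ) ≤ Real.log H := (le_max_right _ _).trans g5
    have hmR : (1 : ℝ) ≤ m H := by exact_mod_cast m1
    have hbR : (2 : ℝ) ≤ b := by exact_mod_cast hb
    rw [one_mul] at g8 g9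
    rw [Real.rpow_one] at g7 g8
    set n0 : ℕ := ⌈c₀ / 2 * Real.log H⌉₊ with hn0
    set l : ℤ := ∑ i, g i * (b : ℤ) ^ n i with hl
    set S : Finset ℝ := (Alg_finite q H).toFinset with hS
    have hSm : ∀ x, x ∈ S ↔ x ∈ Alg (q + 2) H := fun x => Set.Finite.mem_toFinset _
    have hScard : 0 < S.card := by
      rw [Finset.card_pos, hS, Set.Finite.toFinset_nonempty]
      exact g4
    have hP : clt_P q b (fun H => ⌈c₀ / 2 * Real.log H⌉₊) f m H =
        unif S (fun x : ℝ => (b : ℝ) ^ n0 * (aeval x (f H) / (m H : ℝ))) := by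
      unfold clt_P
      rw [if_pos g4]
    have hsum : hat (unif S (fun x : ℝ => (b : ℝ) ^ n0 * (aeval x (f H) / (m H : ℝ)))) l =
        (1 / S.card) * ∑ x ∈ S, e (((l : ℝ) * (b : ℝ) ^ n0) * (clt_G (f H) (m H)).eval x) := by
      unfold hat
      rw [integral_unif]
      congr 1
      refine Finset.sum_congr rfl fun x _ => ?_
      rw [clt_G_eval]
      congr 1
      ring
    rw [hP, hsum, norm_mul]
    have hβL : 1 ≤ Real.exp ((Real.log H) ^ β) := Real.one_le_exp (Real.rpow_nonneg (by linarith) _)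
    have hle : Real.exp ((Real.log H) ^ β) ≤ Real.exp ((Real.log H) ^ β') := Real.exp_le_exp.2 g9
    have hmain := hH0 H g0 (clt_G (f H) (m H)) (by rw [clt_G_deg _ _ m1]; exact f1)
      (by rw [clt_G_deg _ _ m1]; omega) (fun i _ => by
        rw [clt_G_coeff, abs_mul, abs_of_nonneg (by positivity : (0 : ℝ) ≤ (m H : ℝ)⁻¹)]
        calc (m H : ℝ)⁻¹ * |((f H).coeff i : ℝ)| ≤ 1 * |((f H).coeff i : ℝ)| :=
              mul_le_mul_of_nonneg_right (inv_le_one_of_one_le₀ hmR) (abs_nonneg _)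
          _ ≤ _ := by rw [one_mul]; exact (f3 i).trans hle)
      (by
        rw [leadingCoeff, clt_G_deg _ _ m1, clt_G_coeff, abs_mul,
          abs_of_nonneg (by positivity : (0 : ℝ) ≤ (m H : ℝ)⁻¹)]
        have hf0 : (f H).coeff (f H).natDegree ≠ 0 := by
          have : f H ≠ 0 := by
            intro h0
            rw [h0, natDegree_zero] at f1
            omega
          exact leadingCoeff_ne_zero.2 this
        have h1 : (1 : ℝ) ≤ |((f H).coeff (f H).natDegree : ℝ)| := by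
          exact_mod_cast Int.one_le_abs hf0
        have h2 : Real.exp (-(Real.log H) ^ β') ≤ (m H : ℝ)⁻¹ := by
          rw [Real.exp_neg]
          exact inv_anti₀ (by linarith) (m2.trans hle)
        calc Real.exp (-(Real.log H) ^ β') ≤ (m H : ℝ)⁻¹ * 1 := by rw [mul_one]; exact h2
          _ ≤ _ := mul_le_mul_of_nonneg_left h1 (by positivity))
      ((l : ℝ) * (b : ℝ) ^ n0)
      (by
        have h1 : (1 : ℝ) ≤ |(l : ℝ)| := by exact_mod_cast Int.one_le_abs hne
        have h2 : (H : ℝ) ^ δ₀ ≤ (b : ℝ) ^ n0 := by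
          rw [Real.rpow_def_of_pos (by linarith), ← Real.exp_log (by positivity : (0 : ℝ) < (b : ℝ) ^ n0),
            Real.log_pow]
          apply Real.exp_le_exp.2
          have h3 : c₀ / 2 * Real.log H ≤ n0 := Nat.le_ceil _
          have h4 : Real.log 2 ≤ Real.log b := Real.log_le_log (by norm_num) hbR
          have h5 : 0 < Real.log 2 := Real.log_pos (by norm_num)
          calc Real.log H * δ₀ = (c₀ / 2 * Real.log H) * Real.log 2 := by rw [hδ₀]; ring
            _ ≤ n0 * Real.log b := mul_le_mul h3 h4 h5.le (Nat.cast_nonneg _)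
        rw [abs_mul, abs_of_pos (by positivity : (0 : ℝ) < (b : ℝ) ^ n0)]
        calc (H : ℝ) ^ δ₀ ≤ 1 * (b : ℝ) ^ n0 := by rw [one_mul]; exact h2
          _ ≤ _ := mul_le_mul_of_nonneg_right h1 (by positivity))
      (by
        obtain ⟨L, hL⟩ : ∃ L : ℝ, L = Real.log H := ⟨_, rfl⟩
        rw [← hL] at g3 g6 g7 g8 hkL hL1 hg ⊢
        have hL0 : 0 < L := by linarith
        have hlb : 0 ≤ Real.log (b : ℝ) := Real.log_nonneg (by linarith)
        have h2 : ∀ i, (b : ℝ) ^ n i * (b : ℝ) ^ n0 ≤ Real.exp (1 / 2 * L ^ (1 + δ')) := by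
          intro i
          rw [← pow_add, ← Real.exp_log (by positivity : (0 : ℝ) < (b : ℝ) ^ (n i + n0)), Real.log_pow]
          apply Real.exp_le_exp.2
          have h4 : n i + n0 ≤ s H + N H := by
            have := hn i
            omega
          have h5 : ((n i + n0 : ℕ) : ℝ) ≤ L ^ (1 + δ) := by
            refine le_trans ?_ g3
            exact_mod_cast h4
          have h6 : ((n i + n0 : ℕ) : ℝ) * Real.log b ≤ L ^ (1 + δ) * Real.log b :=
            mul_le_mul_of_nonneg_right h5 hlb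
          linarith
        have h6 : L ≤ Real.exp L := by
          have := Real.add_one_le_exp L
          linarith
        have h7 : ((l : ℝ)) * (b : ℝ) ^ n0 = ∑ i, (g i : ℝ) * ((b : ℝ) ^ n i * (b : ℝ) ^ n0) := by
          rw [hl]
          push_cast
          rw [Finset.sum_mul]
          refine Finset.sum_congr rfl fun i _ => ?_
          ring
        rw [h7]
        calc |∑ i, (g i : ℝ) * ((b : ℝ) ^ n i * (b : ℝ) ^ n0)|
            ≤ ∑ i, |(g i : ℝ) * ((b : ℝ) ^ n i * (b : ℝ) ^ n0)| := Finset.abs_sum_le_sum_abs _ _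
          _ ≤ ∑ _i : Fin k, Real.exp (L ^ β') * Real.exp (1 / 2 * L ^ (1 + δ')) := by
              refine Finset.sum_le_sum fun i _ => ?_
              rw [abs_mul, abs_of_pos (by positivity : (0 : ℝ) < (b : ℝ) ^ n i * (b : ℝ) ^ n0)]
              have := hg i
              have := h2 i
              gcongr
          _ = k * (Real.exp (L ^ β') * Real.exp (1 / 2 * L ^ (1 + δ'))) := by
              rw [Finset.sum_const, Finset.card_univ, Fintype.card_fin, nsmul_eq_mul]
          _ ≤ Real.exp L * (Real.exp L * Real.exp (1 / 2 * L ^ (1 + δ'))) := by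
              have := hkL.trans h6
              gcongr
          _ = Real.exp (L + (L + 1 / 2 * L ^ (1 + δ'))) := by
              rw [Real.exp_add, Real.exp_add]
          _ ≤ _ := by
              apply Real.exp_le_exp.2
              linarith)
      S hSm
    have hcR : (0 : ℝ) < S.card := by exact_mod_cast hScard
    have h1 : ‖(1 / (S.card : ℂ))‖ = 1 / (S.card : ℝ) := by
      rw [norm_div, norm_one, Complex.norm_natCast]
    rw [h1, one_div, inv_mul_le_iff₀ hcR]
    exact hmain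

/-- **U9** -/
theorem t_clt (h : S_AH2) : S_CLT := by
  intro q δ β c₀ hδ hβ h2 hc₀ b w F hb hw hσ f m s N hok hN hs hsN a
  have hb1 : 1 ≤ b := by omega
  have hlog : Tendsto (fun N : ℕ => Real.log (N : ℝ)) atTop atTop :=
    Real.tendsto_log_atTop.comp tendsto_natCast_atTop_atTop
  obtain ⟨β', hβ', hns, hhat⟩ := clt_hat h q δ β c₀ hδ hβ h2 hc₀ b hb f m s N hok hs hsN
  set n0 : ℕ → ℕ := fun H => ⌈c₀ / 2 * Real.log H⌉₊ with hn0
  have hΔ : ∀ j : ℕ, ∀ᶠ H : ℕ in atTop,
      0 ≤ (3 ^ j + j * 29) * Real.exp (-((Real.log H) ^ β' / (3 * j + 4))) ∧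
      ∀ (n : Fin j → ℕ) (u v : Fin j → ℝ),
      (∀ i, n i ≤ (s H - n0 H) + N H) → (∀ i, 0 ≤ u i) → (∀ i, v i ≤ 1) →
      |(clt_P q b n0 f m H).real (Ev (fun _ => b) n u v) - Leb.real (Ev (fun _ => b) n u v)| ≤
        (3 ^ j + j * 29) * Real.exp (-((Real.log H) ^ β' / (3 * j + 4))) := by
    intro j
    filter_upwards [hhat j, log_ge 1] with H g1 g2
    refine ⟨by positivity, fun n u v hn hu hv => ?_⟩
    exact events_test hb1 (Real.rpow_nonneg (by linarith) _) (clt_P q b n0 f m H) n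
      (fun g hg hne => g1 n g hn hg hne) u v hu hv
  have hΔl : ∀ j : ℕ, Tendsto (fun H : ℕ => (N H : ℝ) ^ j *
      ((3 ^ j + j * 29) * Real.exp (-((Real.log H) ^ β' / (3 * j + 4))))) atTop (𝓝 0) := by
    intro j
    have hc : (0 : ℝ) < 1 / (3 * j + 4) := by positivity
    have t1 := (tendsto_rpow_mul_exp_neg_mul_atTop_nhds_zero (1 / β' * ((1 + δ) * j))
      (1 / (3 * (j : ℝ) + 4)) hc)
    have t2 := (t1.comp ((tendsto_rpow_atTop hβ').comp hlog)).const_mul ((3 : ℝ) ^ j + j * 29)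
    rw [mul_zero] at t2
    refine squeeze_zero' (Eventually.of_forall fun M => by positivity) ?_ t2
    filter_upwards [hsN, log_ge 1] with H g2 g4
    have hL0 : 0 < Real.log (H : ℝ) := by linarith
    simp only [Function.comp_apply]
    have e1 : ((Real.log (H : ℝ)) ^ β') ^ (1 / β' * ((1 + δ) * j)) =
        ((Real.log (H : ℝ)) ^ (1 + δ)) ^ j := by
      rw [← Real.rpow_mul hL0.le, ← Real.rpow_natCast ((Real.log (H : ℝ)) ^ (1 + δ)),
        ← Real.rpow_mul hL0.le]
      congr 1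
      field_simp
    rw [e1]
    have e2 : -(1 / (3 * (j : ℝ) + 4)) * (Real.log (H : ℝ)) ^ β' =
        -((Real.log (H : ℝ)) ^ β' / (3 * j + 4)) := by ring
    rw [e2]
    have g3 : (N H : ℝ) ≤ (Real.log (H : ℝ)) ^ (1 + δ) := by
      have : (0 : ℝ) ≤ s H := Nat.cast_nonneg _
      linarith
    calc (N H : ℝ) ^ j * ((3 ^ j + j * 29) *
          Real.exp (-((Real.log H) ^ β' / (3 * j + 4)))) ≤
        ((Real.log (H : ℝ)) ^ (1 + δ)) ^ j * ((3 ^ j + j * 29) *
          Real.exp (-((Real.log H) ^ β' / (3 * j + 4)))) := by gcongr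
      _ = _ := by ring
  have key := clt_lim (b := b) (w := w) (G := cen b w F) hb1 hw (cen_le b w F) (cen_sum hb1 F)
    (by rw [sigma2_cen hb1]; exact hσ) (clt_P q b n0 f m) (fun H => s H - n0 H) N hN
    (fun j H => (3 ^ j + j * 29) * Real.exp (-((Real.log H) ^ β' / (3 * j + 4)))) hΔ hΔl a
  refine key.congr' ?_
  filter_upwards [hns, clt_nonempty q] with H g1 g2
  classical
  have hmeas : MeasurableSet {z | WS b w (cen b w F) (s H - n0 H) (N H) z ≤
      a * √(sigma2 b w (cen b w F) * N H)} :=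
    measurableSet_le (measurable_WS _ _ _ _ _) measurable_const
  have hP : clt_P q b n0 f m H =
      unif (Alg_finite q H).toFinset (fun x : ℝ => (b : ℝ) ^ n0 H * (aeval x (f H) / (m H : ℝ))) := by
    unfold clt_P
    rw [if_pos g2]
  have hsn : n0 H + (s H - n0 H) = s H := by
    have : n0 H ≤ s H := g1
    omega
  rw [hP, real_unif _ _ hmeas, Set.ncard_eq_toFinset_card _ (Alg_finite q H)]
  congr 2
  rw [← Set.ncard_coe_finset]
  congr 1
  ext x
  simp only [Finset.coe_filter, Set.Finite.mem_toFinset, Set.mem_ofPred_eq, clt_WS_shift, hsn]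
  simp only [WS_cen hb1, sigma2_cen hb1]

end Pool.Agent.N586.AN
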