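import Pool.Agent.N586.AN.Stm

/-!
# Project AN, T3: nearly all pairs are good (helper738)
-/

set_option autoImplicit false

namespace Pool.Agent.N586.AN

open Finset Polynomial Filter
open Pool.Agent.Y933.KG
open Pool.Agent.Y933.KD.VdC (ev_le)

lemma Cnt_pol (q : ℕ) (a : Fin (q + 2) → ℤ) (c : ℤ) : pol q a c = pol q a 0 + C (c : ℝ) := by
  unfold pol
  simp

lemma Cnt_der (q : ℕ) (a : Fin (q + 2) → ℤ) (c : ℤ) :
    derivative (pol q a c) = derivative (pol q a 0) := by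
  rw [Cnt_pol, derivative_add, derivative_C, add_zero]

open Classical in
/-- the pairs of one `a` -/
noncomputable def CntSa (q H : ℕ) (a : Fin (q + 2) → ℤ) : Finset (Σ _ : ℤ, ℝ) :=
  (Finset.Icc (-(H : ℤ)) H).sigma fun c => (pol q a c).roots.toFinset

open Classical in
lemma Cnt_split (q H : ℕ) (B : Pr q → Prop) :
    ((Om q H).filter (fun p => ¬ B p)).card =
      ∑ a ∈ Av q H, ((CntSa q H a).filter (fun s => ¬ B ⟨a, s⟩)).card := by
  unfold Om
  rw [card_filter, sum_sigma]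
  refine sum_congr rfl fun a _ => ?_
  rw [card_filter]
  rfl

lemma Cnt_Sa (q H : ℕ) (a : Fin (q + 2) → ℤ) :
    ((CntSa q H a).card : ℝ) ≤ (2 * H + 1) * (q + 2) := by
  classical
  unfold CntSa
  rw [card_sigma]
  have h1 : ∑ c ∈ Finset.Icc (-(H : ℤ)) H, (pol q a c).roots.toFinset.card ≤
      ∑ _c ∈ Finset.Icc (-(H : ℤ)) H, (q + 2) := sum_le_sum fun c _ => roots_card q a c
  rw [sum_const, card_Icc_H, smul_eq_mul] at h1
  exact_mod_cast h1

lemma Cnt_big (H : ℕ) (U : ℝ) (hU : 0 ≤ U) :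
    (((Finset.Icc (-(H : ℤ)) H).filter (fun c : ℤ => (H : ℝ) - U < |(c : ℝ)|)).card : ℝ) ≤
      2 * U + 2 := by
  classical
  have hfl : 0 ≤ ⌊U⌋ := Int.floor_nonneg.2 hU
  have h1 : (Finset.Icc (-(H : ℤ)) H).filter (fun c : ℤ => (H : ℝ) - U < |(c : ℝ)|) ⊆
      Finset.Icc ((H : ℤ) - ⌊U⌋) H ∪ Finset.Icc (-(H : ℤ)) (-(H : ℤ) + ⌊U⌋) := by
    intro c hc
    rw [Finset.mem_filter, Finset.mem_Icc] at hc
    rw [Finset.mem_union, Finset.mem_Icc, Finset.mem_Icc]
    obtain ⟨⟨h2, h3⟩, h4⟩ := hc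
    rcases le_or_gt 0 c with h5 | h5
    · left
      rw [abs_of_nonneg (by exact_mod_cast h5)] at h4
      have h6 : (H : ℤ) - c ≤ ⌊U⌋ := Int.le_floor.2 (by push_cast; linarith)
      constructor <;> omega
    · right
      rw [abs_of_neg (by exact_mod_cast h5)] at h4
      have h6 : (H : ℤ) + c ≤ ⌊U⌋ := Int.le_floor.2 (by push_cast; linarith)
      constructor <;> omega
  have h2 : ((Finset.Icc ((H : ℤ) - ⌊U⌋) H).card : ℤ) = ⌊U⌋ + 1 := by
    rw [Int.card_Icc, Int.toNat_of_nonneg (by omega)]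
    ring
  have h3 : ((Finset.Icc (-(H : ℤ)) (-(H : ℤ) + ⌊U⌋)).card : ℤ) = ⌊U⌋ + 1 := by
    rw [Int.card_Icc, Int.toNat_of_nonneg (by omega)]
    ring
  have h4 : ((Finset.Icc ((H : ℤ) - ⌊U⌋) H).card : ℝ) = ⌊U⌋ + 1 := by exact_mod_cast h2
  have h5 : ((Finset.Icc (-(H : ℤ)) (-(H : ℤ) + ⌊U⌋)).card : ℝ) = ⌊U⌋ + 1 := by exact_mod_cast h3
  have h6 := Int.floor_le U
  have h7 : (((Finset.Icc (-(H : ℤ)) H).filter (fun c : ℤ => (H : ℝ) - U < |(c : ℝ)|)).card : ℝ) ≤
      ((Finset.Icc ((H : ℤ) - ⌊U⌋) H).card : ℝ) +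
        ((Finset.Icc (-(H : ℤ)) (-(H : ℤ) + ⌊U⌋)).card : ℝ) := by
    exact_mod_cast (Finset.card_le_card h1).trans (Finset.card_union_le _ _)
  linarith

lemma Cnt_a0 (q H : ℕ) (U : ℝ) (hU : 0 ≤ U) :
    (((Av q H).filter (fun a => (H : ℝ) - U < |(a 0 : ℝ)|)).card : ℝ) ≤
      (2 * H + 1) ^ (q + 1) * (2 * U + 2) := by
  classical
  have h1 : (Av q H).filter (fun a => (H : ℝ) - U < |(a 0 : ℝ)|) ⊆
      Fintype.piFinset (fun i : Fin (q + 2) => if i = 0 then
        (Finset.Icc (-(H : ℤ)) H).filter (fun c : ℤ => (H : ℝ) - U < |(c : ℝ)|)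
        else Finset.Icc (-(H : ℤ)) H) := by
    intro a ha
    rw [Finset.mem_filter, mem_Av] at ha
    rw [Fintype.mem_piFinset]
    intro i
    split_ifs with hi
    · rw [hi, Finset.mem_filter, Finset.mem_Icc, ← abs_le]
      exact ⟨ha.1 0, ha.2⟩
    · rw [Finset.mem_Icc, ← abs_le]
      exact ha.1 i
  calc _ ≤ ((Fintype.piFinset (fun i : Fin (q + 2) => if i = 0 then
        (Finset.Icc (-(H : ℤ)) H).filter (fun c : ℤ => (H : ℝ) - U < |(c : ℝ)|)
        else Finset.Icc (-(H : ℤ)) H)).card : ℝ) := by exact_mod_cast Finset.card_le_card h1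
    _ = (2 * H + 1) ^ (q + 1) *
        (((Finset.Icc (-(H : ℤ)) H).filter (fun c : ℤ => (H : ℝ) - U < |(c : ℝ)|)).card : ℝ) := by
        rw [Fintype.card_piFinset, Fin.prod_univ_succ]
        push_cast
        simp only [Fin.succ_ne_zero, if_false, if_true]
        rw [Finset.prod_const, Finset.card_univ, Fintype.card_fin, card_Icc_H]
        push_cast
        ring
    _ ≤ _ := by
        have := Cnt_big H U hU
        gcongr

lemma Cnt_c0 (q H : ℕ) (a : Fin (q + 2) → ℤ) (U : ℝ) (hU : 0 ≤ U) :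
    (((CntSa q H a).filter (fun s => (H : ℝ) - U < |(s.1 : ℝ)|)).card : ℝ) ≤
      (2 * U + 2) * (q + 2) := by
  classical
  have h1 : (CntSa q H a).filter (fun s => (H : ℝ) - U < |(s.1 : ℝ)|) ⊆
      ((Finset.Icc (-(H : ℤ)) H).filter (fun c : ℤ => (H : ℝ) - U < |(c : ℝ)|)).sigma
        fun c => (pol q a c).roots.toFinset := by
    intro s hs
    rw [Finset.mem_filter] at hs
    unfold CntSa at hs
    rw [Finset.mem_sigma] at hs ⊢
    rw [Finset.mem_filter]
    exact ⟨⟨hs.1.1, hs.2⟩, hs.1.2⟩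
  have h2 := Finset.card_le_card h1
  rw [card_sigma] at h2
  have h3 : ∑ c ∈ (Finset.Icc (-(H : ℤ)) H).filter (fun c : ℤ => (H : ℝ) - U < |(c : ℝ)|),
      (pol q a c).roots.toFinset.card ≤
      ∑ _c ∈ (Finset.Icc (-(H : ℤ)) H).filter (fun c : ℤ => (H : ℝ) - U < |(c : ℝ)|), (q + 2) :=
    sum_le_sum fun c _ => roots_card q a c
  rw [sum_const, smul_eq_mul] at h3
  have h4 : (((CntSa q H a).filter (fun s => (H : ℝ) - U < |(s.1 : ℝ)|)).card : ℝ) ≤
      (((Finset.Icc (-(H : ℤ)) H).filter (fun c : ℤ => (H : ℝ) - U < |(c : ℝ)|)).card : ℝ) *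
        (q + 2) := by exact_mod_cast h2.trans h3
  refine h4.trans ?_
  have := Cnt_big H U hU
  gcongr

lemma Cnt_lead {G : ℝ[X]} (hG1 : 1 ≤ G.natDegree) :
    (derivative G).natDegree = G.natDegree - 1 ∧ |G.leadingCoeff| ≤ |(derivative G).leadingCoeff| := by
  have h0 : (derivative G).coeff (G.natDegree - 1) = G.leadingCoeff * G.natDegree := by
    rw [coeff_derivative, leadingCoeff]
    have : G.natDegree - 1 + 1 = G.natDegree := by omega
    rw [this]
    congr 1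
    have h2 : ((G.natDegree - 1 : ℕ) : ℝ) + 1 = ((G.natDegree - 1 + 1 : ℕ) : ℝ) := by push_cast; ring
    rw [h2, this]
  have hG0 : G.leadingCoeff ≠ 0 := by
    intro h
    rw [leadingCoeff_eq_zero] at h
    rw [h, natDegree_zero] at hG1
    omega
  have hn : (1 : ℝ) ≤ G.natDegree := by exact_mod_cast hG1
  have h1 : (derivative G).natDegree = G.natDegree - 1 := by
    refine le_antisymm (natDegree_derivative_le G) (le_natDegree_of_ne_zero ?_)
    rw [h0]
    exact mul_ne_zero hG0 (by positivity)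
  refine ⟨h1, ?_⟩
  have h2 : (derivative G).leadingCoeff = G.leadingCoeff * G.natDegree := by
    rw [leadingCoeff, h1, h0]
  rw [h2, abs_mul, abs_of_nonneg (by positivity : (0 : ℝ) ≤ (G.natDegree : ℝ))]
  exact le_mul_of_one_le_right (abs_nonneg _) hn

open Classical in
theorem Cnt_one (q H : ℕ) (δ : ℝ) (hδ : δ = 1 / (10 ^ 4 * ((q : ℝ) + 3) ^ 3)) (hH : 16 ≤ H)
    (hHa : (3 : ℝ) ≤ (H : ℝ) ^ δ) (hHb : ((q + 3).factorial : ℝ) ≤ (H : ℝ) ^ δ) (G : ℝ[X])
    (hG1 : 1 ≤ G.natDegree) (hG2 : G.natDegree ≤ q + 1)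
    (hGl : (H : ℝ) ^ (-δ) ≤ |G.leadingCoeff|) (a : Fin (q + 2) → ℤ) (ha : a ∈ Av q H)
    (hlast : (H : ℝ) ^ (1 - δ) ≤ |(a (Fin.last (q + 1)) : ℝ)|)
    (ha0 : |(a 0 : ℝ)| ≤ H - (H : ℝ) ^ (19 / 20 : ℝ)) :
    (((CntSa q H a).filter (fun s => ¬ Gd q H G ⟨a, s⟩)).card : ℝ) ≤
      (4 * ((q : ℝ) + 2) + 5 * (2 * q + 1) * (q + 2) + 25 * (q + 2)) * (H : ℝ) ^ (1 - δ) := by
  have hqR : (0 : ℝ) ≤ q := Nat.cast_nonneg q
  have hδ0 : 0 < δ := by rw [hδ]; positivity
  have hδc : ∀ c : ℝ, c ≤ 10 * ((q : ℝ) + 3) ^ 2 → c * δ ≤ et q := by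
    intro c hc
    have h1 : c * δ ≤ 10 * ((q : ℝ) + 3) ^ 2 * δ := by gcongr
    refine h1.trans (le_of_eq ?_)
    rw [hδ, et]
    field_simp
    norm_num
  have het : et q ≤ 1 / 3000 := by
    rw [et]
    refine one_div_le_one_div_of_le (by norm_num) ?_
    linarith
  have hδ2 : δ ≤ 1 / 3000 := by
    have := hδc 1 (by nlinarith)
    linarith
  set h : ℝ := (H : ℝ) with hh
  have hh16 : (16 : ℝ) ≤ h := by rw [hh]; exact_mod_cast hH
  have hh1 : 1 ≤ h := by linarith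
  have hh0 : 0 < h := by linarith
  have hadd : ∀ x y : ℝ, h ^ x * h ^ y = h ^ (x + y) := fun x y => (Real.rpow_add hh0 x y).symm
  have hnat : ∀ (x : ℝ) (n : ℕ), (h ^ x) ^ n = h ^ (x * n) := by
    intro x n
    rw [Real.rpow_mul hh0.le, Real.rpow_natCast]
  have hmono : ∀ x y : ℝ, x ≤ y → h ^ x ≤ h ^ y := fun x y hxy =>
    Real.rpow_le_rpow_of_exponent_le hh1 hxy
  -- the polynomial
  set P : ℝ[X] := pol q a 0 with hP0
  have haR : ∀ i, |(a i : ℝ)| ≤ h := by
    intro i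
    have := (mem_Av.1 ha) i
    rw [hh]
    exact_mod_cast this
  have hc2 : P.coeff (q + 2) = a (Fin.last (q + 1)) := pol_coeff_succ q a 0 (Fin.last (q + 1))
  have halast : a (Fin.last (q + 1)) ≠ 0 := by
    intro h0
    rw [h0, Int.cast_zero, abs_zero] at hlast
    have : 0 < h ^ (1 - δ) := by positivity
    linarith
  have hP : P.natDegree = q + 2 := by
    refine le_antisymm (pol_natDegree_le q a 0) (le_natDegree_of_ne_zero ?_)
    rw [hc2]
    exact_mod_cast halast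
  have hco : ∀ i, |P.coeff i| ≤ h := pol_coeff_abs q a 0 hh0.le haR (by simpa using hh0.le)
  have hlead : h ^ (1 - δ) ≤ |P.coeff (q + 2)| := by rw [hc2]; exact hlast
  have hapos : 0 < |P.coeff (q + 2)| := lt_of_lt_of_le (by positivity) hlead
  have hne : ∀ c, pol q a c ≠ 0 := by
    intro c h0
    have h1 := pol_coeff_succ q a c (Fin.last (q + 1))
    rw [h0, coeff_zero] at h1
    exact halast (by exact_mod_cast h1.symm)
  have hmem : ∀ s ∈ CntSa q H a, |(s.1 : ℝ)| ≤ h ∧ P.eval s.2 = -(s.1 : ℝ) := by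
    intro s hs
    unfold CntSa at hs
    rw [Finset.mem_sigma, Finset.mem_Icc, ← abs_le, Multiset.mem_toFinset, mem_roots (hne _),
      IsRoot, pol_eval] at hs
    refine ⟨?_, ?_⟩
    · rw [hh]
      exact_mod_cast hs.1
    · rw [hP0]
      linarith [hs.2]
  -- the size of the points
  set R : ℝ := h ^ (2 * δ) with hR
  have hR1 : 1 ≤ R := Real.one_le_rpow hh1 (by positivity)
  have hsR : ∀ s ∈ CntSa q H a, |s.2| ≤ R := by
    intro s hs
    obtain ⟨hc, hxc⟩ := hmem s hs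
    have h1 := root_size hP hh0.le hco (by rwa [abs_neg]) hxc
    refine h1.trans ?_
    have h2 : 2 * h / |P.coeff (q + 2)| ≤ 2 * h ^ δ := by
      rw [div_le_iff₀ hapos]
      calc 2 * h = 2 * (h ^ δ * h ^ (1 - δ)) := by
            rw [hadd, add_sub_cancel, Real.rpow_one]
        _ ≤ 2 * (h ^ δ * |P.coeff (q + 2)|) := by gcongr
        _ = _ := by ring
    have h3 : 1 ≤ h ^ δ := Real.one_le_rpow hh1 hδ0.le
    calc 2 * h / |P.coeff (q + 2)| + 1 ≤ 3 * h ^ δ := by linarith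
      _ ≤ h ^ δ * h ^ δ := by gcongr
      _ = R := by rw [hadd, hR]; congr 1; ring
  -- the size of the derivatives
  set Λ : ℝ := h ^ (1 + (2 * q + 5) * δ) with hΛ
  have hΛ0 : 0 < Λ := by positivity
  have hder1 : ∀ x, |x| ≤ R → |(derivative P).eval x| ≤ Λ := by
    intro x hx
    have h1 := deriv_bound hP.le hh0.le (fun i _ => hco i) hR1 hx 1 le_rfl
    rw [Function.iterate_one] at h1
    refine h1.trans ?_
    calc ((q + 3).factorial : ℝ) * h * R ^ (q + 2) ≤ h ^ δ * h ^ (1 : ℝ) * R ^ (q + 2) := by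
          rw [Real.rpow_one]
          gcongr
      _ = Λ := by
          rw [hR, hnat, hadd, hadd, hΛ]
          congr 1
          push_cast
          ring
  -- the points to avoid
  set r : ℝ := h ^ (-((2 * q + 6) * δ)) with hr
  have hr0 : 0 < r := by positivity
  have hr1 : r ≤ 1 := Real.rpow_le_one_of_one_le_of_nonpos hh1 (by
    have : 0 ≤ (2 * (q : ℝ) + 6) * δ := by positivity
    linarith)
  obtain ⟨E1, hE1c, hE1⟩ := root_avoid (derivative P)
  obtain ⟨E2, hE2c, hE2⟩ := root_avoid (derivative G)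
  obtain ⟨hPd, hPl⟩ := Cnt_lead (G := P) (by rw [hP]; omega)
  obtain ⟨hGd, hGl'⟩ := Cnt_lead hG1
  rw [hPd, hP] at hE1c hE1
  rw [hGd] at hE2c hE2
  have hPl2 : |P.leadingCoeff| = |P.coeff (q + 2)| := by rw [leadingCoeff, hP]
  set E : Finset ℝ := E1 ∪ E2 with hE
  have hEc : (E.card : ℝ) ≤ 2 * q + 1 := by
    have h1 : E.card ≤ E1.card + E2.card := card_union_le _ _
    have h2 : E.card ≤ 2 * q + 1 := by omega
    exact_mod_cast h2
  -- the square root
  set V : ℝ := ((Nat.sqrt H : ℕ) : ℝ) with hV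
  have hV1 : 1 ≤ V := by
    rw [hV]
    have : 0 < Nat.sqrt H := Nat.sqrt_pos.2 (by omega)
    exact_mod_cast this
  have hV0 : 0 < V := by linarith
  have hV2 : V ≤ h ^ (1 / 2 : ℝ) := by
    rw [← Real.sqrt_eq_rpow, hV, hh]
    refine Real.le_sqrt_of_sq_le ?_
    have := Nat.sqrt_le' H
    exact_mod_cast this
  set w : ℝ := h ^ (-(1 / 20) : ℝ) / V with hw
  have hw0 : 0 < w := by positivity
  have hwV : V * w = h ^ (-(1 / 20) : ℝ) := by
    rw [hw]
    field_simp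
  have hwle : w ≤ h ^ (-(1 / 20) : ℝ) := by
    rw [← hwV]
    exact le_mul_of_one_le_left hw0.le hV1
  have hfl : 0 ≤ ⌊V * R + 1⌋ := Int.floor_nonneg.2 (by positivity)
  set Mm : Finset ℤ := Finset.Icc (-⌊V * R + 1⌋) ⌊V * R + 1⌋ with hMm
  have hMc : (Mm.card : ℝ) ≤ 2 * (V * R) + 3 := by
    have h3 : ((Mm.card : ℕ) : ℤ) = 2 * ⌊V * R + 1⌋ + 1 := by
      rw [hMm, Int.card_Icc, Int.toNat_of_nonneg (by omega)]
      ring
    have h4 : (Mm.card : ℝ) = 2 * (⌊V * R + 1⌋ : ℝ) + 1 := by exact_mod_cast h3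
    have := Int.floor_le (V * R + 1)
    linarith
  -- the dichotomy
  have hdich : ∀ s ∈ CntSa q H a, ¬ Gd q H G ⟨a, s⟩ →
      (h - h ^ (19 / 20 : ℝ) < |(s.1 : ℝ)|) ∨ ((∃ t ∈ E, |s.2 - t| < r) ∨
        ∃ m ∈ Mm, |s.2 - (m : ℝ) / V| < w) := by
    intro s hs hbad
    by_contra hcon
    push Not at hcon
    obtain ⟨hc1, hc2', hc3⟩ := hcon
    apply hbad
    have hx := hsR s hs
    have hPx := hE1 s.2 r hr0.le (fun t ht => hc2' t (by rw [hE, Finset.mem_union]; exact Or.inl ht))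
    have hGx := hE2 s.2 r hr0.le (fun t ht => hc2' t (by rw [hE, Finset.mem_union]; exact Or.inr ht))
    have hfm : ∀ m : ℤ, |(m : ℝ)| ≤ V * R + 1 → w ≤ |s.2 - (m : ℝ) / V| := by
      intro m hm
      refine hc3 m ?_
      rw [hMm, Finset.mem_Icc, ← abs_le]
      refine Int.le_floor.2 ?_
      push_cast
      exact hm
    have hVx : |V * s.2| ≤ V * R := by
      rw [abs_mul, abs_of_pos hV0]
      gcongr
    have hfr := Int.self_sub_floor (V * s.2)
    have hfr0 := Int.fract_nonneg (V * s.2)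
    have hfr1 := Int.fract_lt_one (V * s.2)
    have hwm : ∀ m : ℤ, |s.2 - (m : ℝ) / V| = |V * s.2 - m| / V := by
      intro m
      have : s.2 - (m : ℝ) / V = (V * s.2 - m) / V := by field_simp
      rw [this, abs_div, abs_of_pos hV0]
    rw [abs_le] at hVx
    refine ⟨halast, ?_, ?_, ?_, ha0, hc1, ?_, ?_⟩
    · refine hx.trans ?_
      rw [hR]
      refine hmono _ _ ?_
      have := hδc 2 (by nlinarith)
      linarith
    · show h ^ (1 - et q) ≤ |(derivative (pol q a s.1)).eval s.2|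
      rw [Cnt_der]
      refine le_trans ?_ hPx
      calc h ^ (1 - et q) ≤ h ^ (1 - δ) * r ^ (q + 2 - 1) := by
            rw [hr, hnat, hadd]
            refine hmono _ _ ?_
            have h1 := hδc (1 + (q + 1) * (2 * q + 6)) (by nlinarith)
            have h2 : ((q + 2 - 1 : ℕ) : ℝ) = (q : ℝ) + 1 := by
              rw [show q + 2 - 1 = q + 1 by omega]
              push_cast
              ring
            rw [h2]
            nlinarith
        _ ≤ |(derivative P).leadingCoeff| * r ^ (q + 2 - 1) := by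
            have h1 : h ^ (1 - δ) ≤ |(derivative P).leadingCoeff| := by
              refine le_trans ?_ hPl
              rw [hPl2]
              exact hlead
            gcongr
    · show h ^ (-et q) ≤ |(derivative G).eval s.2|
      refine le_trans ?_ hGx
      calc h ^ (-et q) ≤ h ^ (-δ) * r ^ q := by
            rw [hr, hnat, hadd]
            refine hmono _ _ ?_
            have h1 := hδc (1 + q * (2 * q + 6)) (by nlinarith)
            nlinarith
        _ ≤ |(derivative G).leadingCoeff| * r ^ (G.natDegree - 1) := by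
            have h1 : r ^ q ≤ r ^ (G.natDegree - 1) := pow_le_pow_of_le_one hr0.le hr1 (by omega)
            have h2 : h ^ (-δ) ≤ |(derivative G).leadingCoeff| := hGl.trans hGl'
            gcongr
    · show h ^ (-(1 / 20) : ℝ) ≤ Int.fract (V * s.2)
      have hm : |((⌊V * s.2⌋ : ℤ) : ℝ)| ≤ V * R + 1 := by
        rw [abs_le]
        constructor <;> linarith [hVx.1, hVx.2]
      have h1 := hfm _ hm
      rw [hwm, hfr, abs_of_nonneg hfr0, le_div_iff₀ hV0, mul_comm, hwV] at h1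
      exact h1
    · show Int.fract (V * s.2) ≤ 1 - h ^ (-(1 / 20) : ℝ)
      have hm : |((⌊V * s.2⌋ + 1 : ℤ) : ℝ)| ≤ V * R + 1 := by
        push_cast
        rw [abs_le]
        constructor <;> linarith [hVx.1, hVx.2]
      have h1 := hfm _ hm
      have h2 : V * s.2 - ((⌊V * s.2⌋ + 1 : ℤ) : ℝ) = Int.fract (V * s.2) - 1 := by
        push_cast
        linarith
      rw [hwm, h2, abs_of_nonpos (by linarith), le_div_iff₀ hV0, mul_comm, hwV] at h1
      linarith
  -- the points as real numbers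
  set X : Finset ℝ := (CntSa q H a).image (fun s => s.2) with hX
  have hXm : ∀ x ∈ X, |x| ≤ R ∧ ∃ c : ℤ, P.eval x = c := by
    intro x hx
    rw [hX, Finset.mem_image] at hx
    obtain ⟨s, hs, rfl⟩ := hx
    refine ⟨hsR s hs, -s.1, ?_⟩
    rw [(hmem s hs).2]
    push_cast
    rfl
  have hinj : Set.InjOn (fun s : (Σ _ : ℤ, ℝ) => s.2) (CntSa q H a : Set (Σ _ : ℤ, ℝ)) := by
    rintro ⟨c, x⟩ hs ⟨c', x'⟩ hs' hxx
    simp only at hxx
    subst hxx
    have h1 := (hmem _ hs).2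
    have h2 := (hmem _ hs').2
    simp only at h1 h2
    rw [h1] at h2
    have h3 : (c : ℝ) = c' := by linarith
    have h4 : c = c' := by exact_mod_cast h3
    rw [h4]
  have hpowle : h ^ (-(1 / 20) : ℝ) * (Λ * R) ≤ h ^ (1 - δ) := by
    rw [hΛ, hR, hadd, hadd]
    refine hmono _ _ ?_
    have := hδc (2 * q + 8) (by nlinarith)
    nlinarith
  have hone : 1 ≤ h ^ (1 - δ) := Real.one_le_rpow hh1 (by linarith)
  -- near the exceptional points
  have hcard4 : ((X.filter (fun x => ∃ t ∈ E, |x - t| < r)).card : ℝ) ≤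
      5 * (2 * q + 1) * (q + 2) * h ^ (1 - δ) := by
    have h1 : X.filter (fun x => ∃ t ∈ E, |x - t| < r) ⊆
        E.biUnion (fun t => X.filter (fun x => |x - t| < r)) := by
      intro x hx
      rw [Finset.mem_filter] at hx
      obtain ⟨hx1, t, ht, ht2⟩ := hx
      rw [Finset.mem_biUnion]
      exact ⟨t, ht, by rw [Finset.mem_filter]; exact ⟨hx1, ht2⟩⟩
    have h2 : ∀ t ∈ E, ((X.filter (fun x => |x - t| < r)).card : ℝ) ≤
        (q + 2) * 5 * h ^ (1 - δ) := by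
      intro t _
      refine (near_count hP X hΛ0.le hr0.le hXm hder1 t).trans ?_
      have h3 : Λ * r = h ^ (1 - δ) := by
        rw [hΛ, hr, hadd]
        congr 1
        ring
      have h5 : (2 : ℝ) * (Λ * (2 * r)) + 1 ≤ 5 * h ^ (1 - δ) := by
        have e1 : (2 : ℝ) * (Λ * (2 * r)) = 4 * (Λ * r) := by ring
        rw [e1, h3]
        linarith
      calc ((q : ℝ) + 2) * (2 * (Λ * (2 * r)) + 1) ≤ (q + 2) * (5 * h ^ (1 - δ)) := by gcongr
        _ = _ := by ring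
    calc ((X.filter (fun x => ∃ t ∈ E, |x - t| < r)).card : ℝ)
        ≤ ((E.biUnion (fun t => X.filter (fun x => |x - t| < r))).card : ℝ) := by
          exact_mod_cast Finset.card_le_card h1
      _ ≤ ∑ t ∈ E, ((X.filter (fun x => |x - t| < r)).card : ℝ) := by
          exact_mod_cast Finset.card_biUnion_le
      _ ≤ ∑ _t ∈ E, (q + 2) * 5 * h ^ (1 - δ) := sum_le_sum h2
      _ = E.card * ((q + 2) * 5 * h ^ (1 - δ)) := by rw [sum_const, nsmul_eq_mul]
      _ ≤ (2 * q + 1) * ((q + 2) * 5 * h ^ (1 - δ)) := by gcongr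
      _ = _ := by ring
  -- near the points `m / V`
  have hcard5 : ((X.filter (fun x => ∃ m ∈ Mm, |x - (m : ℝ) / V| < w)).card : ℝ) ≤
      25 * (q + 2) * h ^ (1 - δ) := by
    have h1 : X.filter (fun x => ∃ m ∈ Mm, |x - (m : ℝ) / V| < w) ⊆
        Mm.biUnion (fun m => X.filter (fun x => |x - (m : ℝ) / V| < w)) := by
      intro x hx
      rw [Finset.mem_filter] at hx
      obtain ⟨hx1, t, ht, ht2⟩ := hx
      rw [Finset.mem_biUnion]
      exact ⟨t, ht, by rw [Finset.mem_filter]; exact ⟨hx1, ht2⟩⟩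
    have h2 : ∀ m ∈ Mm, ((X.filter (fun x => |x - (m : ℝ) / V| < w)).card : ℝ) ≤
        (q + 2) * (2 * (Λ * (2 * w)) + 1) := fun m _ =>
      near_count hP X hΛ0.le hw0.le hXm hder1 _
    have hVR : V * R ≤ h ^ (1 - δ) := by
      calc V * R ≤ h ^ (1 / 2 : ℝ) * R := by gcongr
        _ = h ^ (1 / 2 + 2 * δ) := by rw [hR, hadd]
        _ ≤ h ^ (1 - δ) := hmono _ _ (by linarith)
    have hVR1 : 1 ≤ V * R := by nlinarith
    have hkey : (2 * (V * R) + 3) * (2 * (Λ * (2 * w)) + 1) ≤ 25 * h ^ (1 - δ) := by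
      have e1 : (2 * (V * R) + 3) * (2 * (Λ * (2 * w)) + 1) =
          8 * ((V * w) * (Λ * R)) + 12 * (w * Λ) + 2 * (V * R) + 3 := by ring
      rw [e1, hwV]
      have e2 : w * Λ ≤ h ^ (1 - δ) := by
        refine le_trans ?_ hpowle
        calc w * Λ ≤ h ^ (-(1 / 20) : ℝ) * Λ := by gcongr
          _ ≤ h ^ (-(1 / 20) : ℝ) * (Λ * R) := by
            have : Λ ≤ Λ * R := le_mul_of_one_le_right hΛ0.le hR1
            gcongr
      linarith
    calc ((X.filter (fun x => ∃ m ∈ Mm, |x - (m : ℝ) / V| < w)).card : ℝ)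
        ≤ ((Mm.biUnion (fun m => X.filter (fun x => |x - (m : ℝ) / V| < w))).card : ℝ) := by
          exact_mod_cast Finset.card_le_card h1
      _ ≤ ∑ m ∈ Mm, ((X.filter (fun x => |x - (m : ℝ) / V| < w)).card : ℝ) := by
          exact_mod_cast Finset.card_biUnion_le
      _ ≤ ∑ _m ∈ Mm, ((q : ℝ) + 2) * (2 * (Λ * (2 * w)) + 1) := sum_le_sum h2
      _ = Mm.card * (((q : ℝ) + 2) * (2 * (Λ * (2 * w)) + 1)) := by rw [sum_const, nsmul_eq_mul]
      _ ≤ (2 * (V * R) + 3) * (((q : ℝ) + 2) * (2 * (Λ * (2 * w)) + 1)) := by gcongr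
      _ = (q + 2) * ((2 * (V * R) + 3) * (2 * (Λ * (2 * w)) + 1)) := by ring
      _ ≤ (q + 2) * (25 * h ^ (1 - δ)) := by gcongr
      _ = _ := by ring
  -- conclusion
  have hsub : (CntSa q H a).filter (fun s => ¬ Gd q H G ⟨a, s⟩) ⊆
      (CntSa q H a).filter (fun s => h - h ^ (19 / 20 : ℝ) < |(s.1 : ℝ)|) ∪
      ((CntSa q H a).filter (fun s => ∃ t ∈ E, |s.2 - t| < r) ∪
        (CntSa q H a).filter (fun s => ∃ m ∈ Mm, |s.2 - (m : ℝ) / V| < w)) := by
    intro s hs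
    rw [Finset.mem_filter] at hs
    rw [Finset.mem_union, Finset.mem_union, Finset.mem_filter, Finset.mem_filter,
      Finset.mem_filter]
    rcases hdich s hs.1 hs.2 with h1 | h1 | h1
    · exact Or.inl ⟨hs.1, h1⟩
    · exact Or.inr (Or.inl ⟨hs.1, h1⟩)
    · exact Or.inr (Or.inr ⟨hs.1, h1⟩)
  have hA := Cnt_c0 q H a (h ^ (19 / 20 : ℝ)) (by positivity)
  have hU1 : (1 : ℝ) ≤ h ^ (19 / 20 : ℝ) := Real.one_le_rpow hh1 (by norm_num)
  have hUle : h ^ (19 / 20 : ℝ) ≤ h ^ (1 - δ) := hmono _ _ (by linarith)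
  have hB : ((CntSa q H a).filter (fun s => ∃ t ∈ E, |s.2 - t| < r)).card ≤
      (X.filter (fun x => ∃ t ∈ E, |x - t| < r)).card := by
    refine Finset.card_le_card_of_injOn (fun s => s.2) ?_ ?_
    · intro s hs
      rw [Finset.mem_coe, Finset.mem_filter] at hs
      rw [Finset.mem_coe, Finset.mem_filter]
      exact ⟨Finset.mem_image_of_mem _ hs.1, hs.2⟩
    · exact hinj.mono (by
        intro s hs
        rw [Finset.mem_coe, Finset.mem_filter] at hs
        exact hs.1)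
  have hC : ((CntSa q H a).filter (fun s => ∃ m ∈ Mm, |s.2 - (m : ℝ) / V| < w)).card ≤
      (X.filter (fun x => ∃ m ∈ Mm, |x - (m : ℝ) / V| < w)).card := by
    refine Finset.card_le_card_of_injOn (fun s => s.2) ?_ ?_
    · intro s hs
      rw [Finset.mem_coe, Finset.mem_filter] at hs
      rw [Finset.mem_coe, Finset.mem_filter]
      exact ⟨Finset.mem_image_of_mem _ hs.1, hs.2⟩
    · exact hinj.mono (by
        intro s hs
        rw [Finset.mem_coe, Finset.mem_filter] at hs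
        exact hs.1)
  have hBR : (((CntSa q H a).filter (fun s => ∃ t ∈ E, |s.2 - t| < r)).card : ℝ) ≤
      5 * (2 * q + 1) * (q + 2) * h ^ (1 - δ) := le_trans (by exact_mod_cast hB) hcard4
  have hCR : (((CntSa q H a).filter (fun s => ∃ m ∈ Mm, |s.2 - (m : ℝ) / V| < w)).card : ℝ) ≤
      25 * (q + 2) * h ^ (1 - δ) := le_trans (by exact_mod_cast hC) hcard5
  have hAR : (((CntSa q H a).filter (fun s => h - h ^ (19 / 20 : ℝ) < |(s.1 : ℝ)|)).card : ℝ) ≤
      4 * (q + 2) * h ^ (1 - δ) := by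
    refine hA.trans ?_
    calc (2 * h ^ (19 / 20 : ℝ) + 2) * ((q : ℝ) + 2) ≤ (4 * h ^ (1 - δ)) * (q + 2) := by
          gcongr
          linarith
      _ = _ := by ring
  have hall := (Finset.card_le_card hsub).trans ((Finset.card_union_le _ _).trans
    (Nat.add_le_add_left (Finset.card_union_le _ _) _))
  have hallR : (((CntSa q H a).filter (fun s => ¬ Gd q H G ⟨a, s⟩)).card : ℝ) ≤
      (((CntSa q H a).filter (fun s => h - h ^ (19 / 20 : ℝ) < |(s.1 : ℝ)|)).card : ℝ) +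
      ((((CntSa q H a).filter (fun s => ∃ t ∈ E, |s.2 - t| < r)).card : ℝ) +
        (((CntSa q H a).filter (fun s => ∃ m ∈ Mm, |s.2 - (m : ℝ) / V| < w)).card : ℝ)) := by
    exact_mod_cast hall
  refine hallR.trans ?_
  calc _ ≤ 4 * (q + 2) * h ^ (1 - δ) + (5 * (2 * q + 1) * (q + 2) * h ^ (1 - δ) +
        25 * (q + 2) * h ^ (1 - δ)) := add_le_add hAR (add_le_add hBR hCR)
    _ = _ := by ring

theorem t_cnt : S_CNT := by
  classical
  intro q
  have hqR : (0 : ℝ) ≤ q := Nat.cast_nonneg q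
  obtain ⟨δ, hδ⟩ : ∃ δ : ℝ, δ = 1 / (10 ^ 4 * ((q : ℝ) + 3) ^ 3) := ⟨_, rfl⟩
  have hδ0 : 0 < δ := by rw [hδ]; positivity
  have hδ1 : δ ≤ 1 / 20 := by
    rw [hδ]
    refine one_div_le_one_div_of_le (by norm_num) ?_
    have : (1 : ℝ) ≤ ((q : ℝ) + 3) ^ 3 := one_le_pow₀ (by linarith)
    linarith
  obtain ⟨C1, hC1⟩ : ∃ C1 : ℝ, C1 = 4 * ((q : ℝ) + 2) + 5 * (2 * q + 1) * (q + 2) + 25 * (q + 2) :=
    ⟨_, rfl⟩
  have hC10 : 0 ≤ C1 := by rw [hC1]; positivity
  obtain ⟨Ct, hCt⟩ : ∃ Ct : ℝ, Ct = 3 ^ (q + 3) * ((q : ℝ) + 2) + 3 ^ (q + 2) * 4 * (q + 2) +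
    3 ^ (q + 2) * C1 := ⟨_, rfl⟩
  obtain ⟨H1, hH1⟩ := eventually_atTop.1 (((ev_le 3 δ hδ0).and
    (ev_le ((q + 3).factorial : ℝ) δ hδ0)).and (ev_le Ct (δ / 2) (by positivity)))
  refine ⟨δ, hδ0, δ / 2, by positivity, max H1 16, ?_⟩
  intro H hH G hG1 hG2 _ hGl
  obtain ⟨⟨hHa, hHb⟩, hHc⟩ := hH1 H (le_of_max_le_left hH)
  have hH16 : 16 ≤ H := le_of_max_le_right hH
  obtain ⟨h, hh⟩ : ∃ h : ℝ, h = (H : ℝ) := ⟨_, rfl⟩
  have hh16 : (16 : ℝ) ≤ h := by rw [hh]; exact_mod_cast hH16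
  have hh1 : 1 ≤ h := by linarith
  have hh0 : 0 < h := by linarith
  have hset : {p ∈ (Om q H : Set (Pr q)) | ¬ Gd q H G p} =
      (((Om q H).filter (fun p => ¬ Gd q H G p) : Finset (Pr q)) : Set (Pr q)) := by
    ext p
    simp
  rw [hset, Set.ncard_coe_finset, Cnt_split q H (Gd q H G)]
  push_cast
  set T : ℝ := h ^ (1 - δ) with hT
  set U : ℝ := h ^ (19 / 20 : ℝ) with hU
  have hT1 : 1 ≤ T := Real.one_le_rpow hh1 (by linarith)
  have hU1 : 1 ≤ U := Real.one_le_rpow hh1 (by norm_num)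
  have hUT : U ≤ T := Real.rpow_le_rpow_of_exponent_le hh1 (by linarith)
  -- bound for every `a`
  have hN : ∀ a ∈ Av q H, (((CntSa q H a).filter (fun s => ¬ Gd q H G ⟨a, s⟩)).card : ℝ) ≤
      (if |(a (Fin.last (q + 1)) : ℝ)| < T then (2 * h + 1) * ((q : ℝ) + 2) else 0) +
      (if h - U < |(a 0 : ℝ)| then (2 * h + 1) * ((q : ℝ) + 2) else 0) + C1 * T := by
    intro a ha
    have htriv : (((CntSa q H a).filter (fun s => ¬ Gd q H G ⟨a, s⟩)).card : ℝ) ≤
        (2 * h + 1) * ((q : ℝ) + 2) := by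
      refine le_trans ?_ ((Cnt_Sa q H a).trans (le_of_eq (by rw [hh])))
      exact_mod_cast Finset.card_filter_le _ _
    have h0 : 0 ≤ (2 * h + 1) * ((q : ℝ) + 2) := by positivity
    have h1 : 0 ≤ C1 * T := by positivity
    by_cases hc1 : |(a (Fin.last (q + 1)) : ℝ)| < T
    · rw [if_pos hc1]
      split_ifs <;> linarith
    · rw [if_neg hc1]
      by_cases hc2 : h - U < |(a 0 : ℝ)|
      · rw [if_pos hc2]
        linarith
      · rw [if_neg hc2]
        push Not at hc1 hc2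
        rw [hC1, hT, hh]
        rw [hT, hh] at hc1
        rw [hU, hh] at hc2
        simp only [zero_add, add_zero]
        exact Cnt_one q H δ hδ hH16 hHa hHb G hG1 hG2 hGl a ha hc1 hc2
  refine (sum_le_sum hN).trans ?_
  rw [sum_add_distrib, sum_add_distrib, ← sum_filter, ← sum_filter, sum_const, sum_const, sum_const,
    nsmul_eq_mul, nsmul_eq_mul, nsmul_eq_mul, card_Av]
  have hs1 := card_small q H T (by linarith)
  have hs2 := Cnt_a0 q H U (by linarith)
  rw [← hh] at hs1 hs2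
  have h3h : 2 * h + 1 ≤ 3 * h := by linarith
  have hA : (((Av q H).filter (fun a => |(a (Fin.last (q + 1)) : ℝ)| < T)).card : ℝ) *
      ((2 * h + 1) * ((q : ℝ) + 2)) ≤ 3 ^ (q + 3) * ((q : ℝ) + 2) * (h ^ (q + 2) * T) := by
    calc _ ≤ ((2 * h + 1) ^ (q + 1) * (2 * T + 1)) * ((2 * h + 1) * ((q : ℝ) + 2)) := by gcongr
      _ ≤ ((3 * h) ^ (q + 1) * (3 * T)) * ((3 * h) * ((q : ℝ) + 2)) := by
          have : 2 * T + 1 ≤ 3 * T := by linarith
          gcongr
      _ = _ := by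
          rw [mul_pow]
          ring
  have hB : (((Av q H).filter (fun a => h - U < |(a 0 : ℝ)|)).card : ℝ) *
      ((2 * h + 1) * ((q : ℝ) + 2)) ≤ 3 ^ (q + 2) * 4 * (q + 2) * (h ^ (q + 2) * T) := by
    calc _ ≤ ((2 * h + 1) ^ (q + 1) * (2 * U + 2)) * ((2 * h + 1) * ((q : ℝ) + 2)) := by gcongr
      _ ≤ ((3 * h) ^ (q + 1) * (4 * T)) * ((3 * h) * ((q : ℝ) + 2)) := by
          have : 2 * U + 2 ≤ 4 * T := by linarith
          gcongr
      _ = _ := by
          rw [mul_pow]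
          ring
  have hC : (((2 * H + 1) ^ (q + 2) : ℕ) : ℝ) * (C1 * T) ≤ 3 ^ (q + 2) * C1 * (h ^ (q + 2) * T) := by
    have h4 : (((2 * H + 1) ^ (q + 2) : ℕ) : ℝ) = (2 * h + 1) ^ (q + 2) := by
      rw [hh]
      push_cast
      ring
    rw [h4]
    calc (2 * h + 1) ^ (q + 2) * (C1 * T) ≤ (3 * h) ^ (q + 2) * (C1 * T) := by gcongr
      _ = _ := by
          rw [mul_pow]
          ring
  have hpow : h ^ (q + 2) * T = h ^ ((q : ℝ) + 3 - δ) := by
    rw [hT, ← Real.rpow_natCast h (q + 2), ← Real.rpow_add hh0]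
    congr 1
    push_cast
    ring
  have hfin : Ct * (h ^ (q + 2) * T) ≤ h ^ ((q : ℝ) + 3 - δ / 2) := by
    rw [hpow]
    calc Ct * h ^ ((q : ℝ) + 3 - δ) ≤ h ^ (δ / 2) * h ^ ((q : ℝ) + 3 - δ) := by
          rw [← hh] at hHc
          gcongr
      _ = _ := by
          rw [← Real.rpow_add hh0]
          congr 1
          ring
  rw [← hh]
  refine le_trans ?_ hfin
  rw [hCt]
  have hsum := add_le_add (add_le_add hA hB) hC
  refine le_trans ?_ (hsum.trans (le_of_eq (by ring)))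
  exact le_of_eq (by rfl)

end Pool.Agent.N586.AN
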