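import Pool.Agent.N586.AN.Pair3
import Pool.Agent.N586.AN.Core

/-!
# The bilinear sum of one pair: sizes, in the full range
-/

set_option autoImplicit false

namespace Pool.Agent.N586.AN

open Finset Real Filter
open Pool.Agent.Y933.KD (e norm_e e_add)
open Pool.Agent.Y933.KD.VdC (ev_le)
open Pool.Agent.N586.RT (logpow log_ge)

theorem core2 (hTN : S_TN2) (hBR : S_BR) (D : ℕ) (hD : 1 ≤ D) (δ β : ℝ) (hδp : 0 < δ)
    (hβ : 0 < β) (hδβ : 2 * δ + β < 1) : ∃ H0 : ℕ, ∀ H : ℕ, H0 ≤ H → ∀ (t γ : ℕ → ℝ) (p₁ w₀ θ : ℝ), (H : ℝ) ^ (999 / 1000 : ℝ) ≤ |p₁| →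
    |p₁| ≤ (H : ℝ) ^ (1002 / 1000 : ℝ) → (∀ k ∈ Finset.Icc 2 D, |t k| ≤ (H : ℝ) ^ (1002 / 1000 : ℝ)) →
    (H : ℝ) ^ (-(1 / 1000) : ℝ) ≤ |γ 1| → |γ 1| ≤ (H : ℝ) ^ (3 / 1000 : ℝ) →
    (∀ k ∈ Finset.Icc 2 D, |γ k| ≤ (H : ℝ) ^ (3 / 1000 : ℝ)) → 1 ≤ w₀ → w₀ ≤ 2 →
    (H : ℝ) ^ (2 : ℝ) ≤ |θ| → |θ| ≤ Real.exp ((log H) ^ (1 + δ)) →
    ∃ σ : ℝ → ℝ, (∀ n : ℕ, (n : ℝ) ≤ (H : ℝ) ^ (39 / 100 : ℝ) →
      p₁ * σ n + ∑ k ∈ Finset.Icc 2 D, t k * σ n ^ k + n * (w₀ + (Nat.sqrt H : ℝ) * σ n) = 0 ∧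
        |σ n| ≤ 8 * n / |p₁|) ∧
      ‖∑ x ∈ Finset.Icc 1 (ML H), ∑ y ∈ Finset.Icc 1 (ML H),
        e (θ * (γ 1 * σ ((x * y : ℕ) : ℝ) + ∑ k ∈ Finset.Icc 2 D, γ k * σ ((x * y : ℕ) : ℝ) ^ k))‖ ≤
        (ML H : ℝ) ^ 2 * Real.exp (-(2 * (log H) ^ β)) := by
  obtain ⟨C, hC0, hC⟩ := bil2 hTN
  have hDR : (1 : ℝ) ≤ D := by exact_mod_cast hD
  obtain ⟨H1, hH1⟩ := eventually_atTop.1 (((((((((ev_le (16 * 64 * (D + 1) ^ 2) (1 / 1000) (by norm_num)).and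
    (logpow (by linarith : (0 : ℝ) < δ) 1)).and
    (logpow (by linarith : (1 : ℝ) < 1 + δ) 1)).and
    (logpow (by linarith : δ < 1) (1000))).and
    (logpow hβ (2 * C + 1))).and
    (logpow (by linarith : β < 1 - 2 * δ) (300 * 10 ^ 10))).and
    (logpow (by linarith : β < 1) 1000)).and
    (log_ge 1000)).and (eventually_ge_atTop 2))
  refine ⟨H1, ?_⟩
  intro H hH t γ p₁ w₀ θ hp1 hp2 ht hγ1 hγ2 hγ hw1 hw2 hθ1 hθ2
  obtain ⟨⟨⟨⟨⟨⟨⟨⟨hbig, hLδ⟩, hLδ1⟩, hLδ2⟩, hLC⟩, hL9⟩, hLβ⟩, hL1000⟩, hH2⟩ := hH1 H hH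
  have hHR : (2 : ℝ) ≤ H := by exact_mod_cast hH2
  have hHp : (0 : ℝ) < H := by linarith
  have hH1R : (1 : ℝ) ≤ H := by linarith
  obtain ⟨L, hL⟩ : ∃ L : ℝ, L = log H := ⟨_, rfl⟩
  rw [← hL] at hLδ hLδ1 hLδ2 hLC hL9 hLβ hL1000 hθ2 ⊢
  rw [Real.rpow_one] at hLδ1 hLδ2 hLβ
  rw [Real.rpow_zero] at hLδ hLC
  have hL0 : 0 < L := by linarith
  have hexp : ∀ x : ℝ, (H : ℝ) ^ x = Real.exp (x * L) := by
    intro x
    rw [Real.rpow_def_of_pos hHp, hL, mul_comm]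
  have hadd : ∀ x y : ℝ, (H : ℝ) ^ x * (H : ℝ) ^ y = (H : ℝ) ^ (x + y) :=
    fun x y => (Real.rpow_add hHp x y).symm
  have hmono : ∀ x y : ℝ, x ≤ y → (H : ℝ) ^ x ≤ (H : ℝ) ^ y := fun x y hxy =>
    Real.rpow_le_rpow_of_exponent_le hH1R hxy
  have hbig0 : (1024 : ℝ) ≤ (H : ℝ) ^ (1 / 1000 : ℝ) := by
    refine le_trans ?_ hbig
    nlinarith
  have hhalf2 : (2 : ℝ) ≤ (H : ℝ) ^ (1 / 2 : ℝ) := by
    have := hmono (1 / 1000) (1 / 2) (by norm_num)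
    linarith
  -- the slope
  obtain ⟨V, hV⟩ : ∃ V : ℝ, V = (Nat.sqrt H : ℝ) := ⟨_, rfl⟩
  obtain ⟨hV1, hV2⟩ := sqrt_bounds hhalf2
  rw [← hV] at hV1 hV2 ⊢
  have hV4 : 4 ≤ V := by
    have := hmono (1 / 1000) (1 / 2) (by norm_num)
    linarith
  have hV0 : 0 < V := by linarith
  have hp0 : 0 < |p₁| := lt_of_lt_of_le (by positivity) hp1
  have hpne : p₁ ≠ 0 := abs_pos.1 hp0
  have hγ0 : 0 < |γ 1| := lt_of_lt_of_le (by positivity) hγ1
  have hθ0 : 0 < |θ| := lt_of_lt_of_le (by positivity) hθ1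
  -- the branch
  obtain ⟨σ, g, hσ, hg⟩ := hBR D t γ p₁ V w₀ ((H : ℝ) ^ (1002 / 1000 : ℝ))
    ((H : ℝ) ^ (3 / 1000 : ℝ)) hpne hV4 hw1 hw2 (by positivity) (by positivity) ht hγ (by
      calc 64 * ((D : ℝ) + 1) ^ 2 * (H : ℝ) ^ (1002 / 1000 : ℝ) ≤
          (16 * 64 * ((D : ℝ) + 1) ^ 2) * (H : ℝ) ^ (1002 / 1000 : ℝ) / 2 := by
            have : 0 ≤ 64 * ((D : ℝ) + 1) ^ 2 * (H : ℝ) ^ (1002 / 1000 : ℝ) := by positivity
            linarith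
        _ ≤ (H : ℝ) ^ (1 / 1000 : ℝ) * (H : ℝ) ^ (1002 / 1000 : ℝ) / 2 := by gcongr
        _ = (H : ℝ) ^ (1003 / 1000 : ℝ) / 2 := by
            rw [hadd]
            norm_num
        _ ≤ ((H : ℝ) ^ (1 / 2 : ℝ) * (H : ℝ) ^ (999 / 1000 : ℝ)) / 2 := by
            rw [hadd]
            have := hmono (1003 / 1000) (1 / 2 + 999 / 1000) (by norm_num)
            linarith
        _ = ((H : ℝ) ^ (1 / 2 : ℝ) / 2) * (H : ℝ) ^ (999 / 1000 : ℝ) := by ring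
        _ ≤ V * |p₁| := by gcongr)
  -- the scale
  obtain ⟨X, hX⟩ : ∃ X : ℝ, X = |p₁| / V := ⟨_, rfl⟩
  have hX0 : 0 < X := by rw [hX]; positivity
  have hXlo : (H : ℝ) ^ (499 / 1000 : ℝ) ≤ X := by
    rw [hX, le_div_iff₀ hV0]
    calc (H : ℝ) ^ (499 / 1000 : ℝ) * V ≤ (H : ℝ) ^ (499 / 1000 : ℝ) * (H : ℝ) ^ (1 / 2 : ℝ) := by
          gcongr
      _ = (H : ℝ) ^ (999 / 1000 : ℝ) := by rw [hadd]; norm_num
      _ ≤ _ := hp1
  have hXhi : X ≤ (H : ℝ) ^ (503 / 1000 : ℝ) := by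
    rw [hX, div_le_iff₀ hV0]
    calc |p₁| ≤ (H : ℝ) ^ (1002 / 1000 : ℝ) := hp2
      _ = (H : ℝ) ^ (502 / 1000 : ℝ) * (H : ℝ) ^ (1 / 2 : ℝ) := by rw [hadd]; norm_num
      _ = (H : ℝ) ^ (502 / 1000 : ℝ) * 2 * ((H : ℝ) ^ (1 / 2 : ℝ) / 2) := by ring
      _ ≤ (H : ℝ) ^ (502 / 1000 : ℝ) * (H : ℝ) ^ (1 / 1000 : ℝ) * V := by
          gcongr
          linarith
      _ = _ := by rw [hadd]; norm_num
  obtain ⟨N, hN⟩ : ∃ N : ℕ, N = ⌊X⌋₊ := ⟨_, rfl⟩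
  have hX4 : 1024 ≤ X := by
    have := hmono (1 / 1000) (499 / 1000) (by norm_num)
    linarith
  have hNX : (N : ℝ) ≤ X := by
    rw [hN]
    exact Nat.floor_le hX0.le
  have hXN : X ≤ 2 * N := by
    have h1 := Nat.lt_floor_add_one X
    rw [← hN] at h1
    linarith
  have hN2 : 2 ≤ N := by
    have : (2 : ℝ) ≤ N := by linarith
    exact_mod_cast this
  have hNR : (2 : ℝ) ≤ N := by exact_mod_cast hN2
  have hN0 : (0 : ℝ) < N := by linarith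
  have hN1 : (1 : ℝ) ≤ N := by linarith
  have hNlo : (H : ℝ) ^ (498 / 1000 : ℝ) ≤ N := by
    have h1 : (H : ℝ) ^ (498 / 1000 : ℝ) * 2 ≤ (H : ℝ) ^ (499 / 1000 : ℝ) := by
      calc (H : ℝ) ^ (498 / 1000 : ℝ) * 2 ≤ (H : ℝ) ^ (498 / 1000 : ℝ) * (H : ℝ) ^ (1 / 1000 : ℝ) := by
            gcongr
            linarith
        _ = _ := by rw [hadd]; norm_num
    linarith
  have hNhi : (N : ℝ) ≤ (H : ℝ) ^ (503 / 1000 : ℝ) := hNX.trans hXhi
  have hlogN : 49 / 100 * L ≤ log N := by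
    have h1 : log ((H : ℝ) ^ (498 / 1000 : ℝ)) ≤ log N := Real.log_le_log (by positivity) hNlo
    rw [Real.log_rpow hHp, ← hL] at h1
    linarith
  have hlogN0 : 0 < log (N : ℝ) := by
    have : 0 < 49 / 100 * L := by positivity
    linarith
  -- the length
  obtain ⟨M, hM⟩ : ∃ M : ℕ, M = ML H := ⟨_, rfl⟩
  rw [← hM]
  have hMhi : (M : ℝ) ≤ (H : ℝ) ^ (39 / 200 : ℝ) := by
    rw [hM]
    exact Nat.floor_le (by positivity)
  have hMlo : (H : ℝ) ^ (39 / 200 : ℝ) ≤ 2 * M := by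
    have h1 := Nat.lt_floor_add_one ((H : ℝ) ^ (39 / 200 : ℝ))
    have h2 : (⌊(H : ℝ) ^ (39 / 200 : ℝ)⌋₊ : ℝ) = M := by rw [hM]; rfl
    rw [h2] at h1
    have := hmono (1 / 1000) (39 / 200) (by norm_num)
    linarith
  have hM1R : (1 : ℝ) ≤ M := by
    have := hmono (1 / 1000) (39 / 200) (by norm_num)
    linarith
  have hM1 : 1 ≤ M := by exact_mod_cast hM1R
  -- the amplitude
  obtain ⟨A, hA⟩ : ∃ A : ℝ, A = |θ| * |γ 1| * w₀ / V := ⟨_, rfl⟩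
  have hA0 : 0 < A := by rw [hA]; positivity
  obtain ⟨κ, hκ⟩ : ∃ κ : ℝ, κ = log (12 * A) / log N := ⟨_, rfl⟩
  have hκA : (N : ℝ) ^ κ = 12 * A := by
    rw [Real.rpow_def_of_pos hN0, hκ, mul_div_cancel₀ _ hlogN0.ne', Real.exp_log (by positivity)]
  have hAlo : (H : ℝ) ^ (1499 / 1000 : ℝ) ≤ A := by
    rw [hA, le_div_iff₀ hV0]
    calc (H : ℝ) ^ (1499 / 1000 : ℝ) * V ≤ (H : ℝ) ^ (1499 / 1000 : ℝ) * (H : ℝ) ^ (1 / 2 : ℝ) := by
          gcongr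
      _ = (H : ℝ) ^ (2 : ℝ) * (H : ℝ) ^ (-(1 / 1000) : ℝ) * 1 := by
          rw [hadd, hadd, mul_one]
          norm_num
      _ ≤ |θ| * |γ 1| * w₀ := by gcongr
  have hκ2 : 2 ≤ κ := by
    rw [hκ, le_div_iff₀ hlogN0]
    have h1 : (2 : ℝ) * log N = log ((N : ℝ) ^ 2) := by
      rw [Real.log_pow]
      norm_num
    rw [h1]
    apply Real.log_le_log (by positivity)
    calc (N : ℝ) ^ 2 ≤ ((H : ℝ) ^ (503 / 1000 : ℝ)) ^ 2 := by gcongr
      _ = (H : ℝ) ^ (1006 / 1000 : ℝ) := by rw [sq, hadd]; norm_num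
      _ ≤ (H : ℝ) ^ (1499 / 1000 : ℝ) := hmono _ _ (by norm_num)
      _ ≤ A := hAlo
      _ ≤ 12 * A := by linarith
  have hκ4 : κ ≤ 4 * L ^ δ := by
    rw [hκ, div_le_iff₀ hlogN0]
    have h1 : log (12 * A) ≤ 3 / 2 * L ^ (1 + δ) := by
      rw [Real.log_le_iff_le_exp (by positivity)]
      have h2 : A ≤ |θ| * (H : ℝ) ^ (3 / 1000 : ℝ) * 2 / 1 := by
        rw [hA]
        gcongr
        linarith
      calc 12 * A ≤ 24 * (H : ℝ) ^ (3 / 1000 : ℝ) * |θ| := by linarith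
        _ ≤ (H : ℝ) ^ (1 / 1000 : ℝ) * (H : ℝ) ^ (3 / 1000 : ℝ) * Real.exp (L ^ (1 + δ)) := by
            gcongr
            linarith
        _ = Real.exp (4 / 1000 * L + L ^ (1 + δ)) := by
            rw [hadd, hexp, ← Real.exp_add]
            norm_num
        _ ≤ _ := by
            apply Real.exp_le_exp.2
            linarith
    refine h1.trans ?_
    have h2 : L ^ (1 + δ) = L ^ δ * L := by
      rw [add_comm, Real.rpow_add hL0, Real.rpow_one]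
    have h3 : 0 < L ^ δ := by positivity
    calc 3 / 2 * L ^ (1 + δ) = 3 / 2 * (L ^ δ * L) := by rw [h2]
      _ ≤ 4 * L ^ δ * (49 / 100 * L) := by nlinarith [mul_pos h3 hL0]
      _ ≤ 4 * L ^ δ * log N := by gcongr
  -- the error
  obtain ⟨E, hE⟩ : ∃ E : ℝ, E = (32 * D * (H : ℝ) ^ (1002 / 1000 : ℝ) * |γ 1| / |p₁| +
      16 * D * (H : ℝ) ^ (3 / 1000 : ℝ)) / V ^ 2 := ⟨_, rfl⟩
  rw [← hE] at hg
  have hE0 : 0 ≤ E := by rw [hE]; positivity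
  have hElo : E * (H : ℝ) ^ (1 / 10 : ℝ) ≤ |γ 1| * w₀ / (2 * V) := by
    have h1 : (32 * D * (H : ℝ) ^ (1002 / 1000 : ℝ) * |γ 1| / |p₁| +
      16 * D * (H : ℝ) ^ (3 / 1000 : ℝ)) ≤ (H : ℝ) ^ (7 / 1000 : ℝ) := by
      have h2 : (32 * D * (H : ℝ) ^ (1002 / 1000 : ℝ) * |γ 1| / |p₁|) ≤
          32 * D * (H : ℝ) ^ (6 / 1000 : ℝ) := by
        rw [div_le_iff₀ hp0]
        calc 32 * D * (H : ℝ) ^ (1002 / 1000 : ℝ) * |γ 1| ≤
            32 * D * (H : ℝ) ^ (1002 / 1000 : ℝ) * (H : ℝ) ^ (3 / 1000 : ℝ) := by gcongr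
          _ = 32 * D * (H : ℝ) ^ (6 / 1000 : ℝ) * (H : ℝ) ^ (999 / 1000 : ℝ) := by
              rw [mul_assoc, hadd, mul_assoc _ _ ((H : ℝ) ^ (999 / 1000 : ℝ)), hadd]
              norm_num
          _ ≤ _ := by gcongr
      have h3 : 16 * (D : ℝ) * (H : ℝ) ^ (3 / 1000 : ℝ) ≤ 16 * D * (H : ℝ) ^ (6 / 1000 : ℝ) := by
        have := hmono (3 / 1000) (6 / 1000) (by norm_num)
        gcongr
      calc _ ≤ 32 * D * (H : ℝ) ^ (6 / 1000 : ℝ) + 16 * D * (H : ℝ) ^ (6 / 1000 : ℝ) :=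
            add_le_add h2 h3
        _ = (48 * D) * (H : ℝ) ^ (6 / 1000 : ℝ) := by ring
        _ ≤ (H : ℝ) ^ (1 / 1000 : ℝ) * (H : ℝ) ^ (6 / 1000 : ℝ) := by
            refine mul_le_mul_of_nonneg_right (le_trans ?_ hbig) (by positivity)
            nlinarith
        _ = _ := by rw [hadd]; norm_num
    have h4 : E ≤ (H : ℝ) ^ (7 / 1000 : ℝ) / V ^ 2 := by
      rw [hE]
      gcongr
    have h5 : (H : ℝ) ^ (107 / 1000 : ℝ) * 2 ≤ (H : ℝ) ^ (-(1 / 1000) : ℝ) * V := by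
      calc (H : ℝ) ^ (107 / 1000 : ℝ) * 2 = (H : ℝ) ^ (107 / 1000 : ℝ) * 4 / 2 := by ring
        _ ≤ (H : ℝ) ^ (107 / 1000 : ℝ) * (H : ℝ) ^ (1 / 1000 : ℝ) / 2 := by
            gcongr
            linarith
        _ = (H : ℝ) ^ (108 / 1000 : ℝ) / 2 := by rw [hadd]; norm_num
        _ ≤ (H : ℝ) ^ (499 / 1000 : ℝ) / 2 := by
            have := hmono (108 / 1000) (499 / 1000) (by norm_num)
            linarith
        _ = (H : ℝ) ^ (-(1 / 1000) : ℝ) * ((H : ℝ) ^ (1 / 2 : ℝ) / 2) := by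
            rw [mul_div_assoc', hadd]
            norm_num
        _ ≤ _ := by gcongr
    calc E * (H : ℝ) ^ (1 / 10 : ℝ) ≤ (H : ℝ) ^ (7 / 1000 : ℝ) / V ^ 2 * (H : ℝ) ^ (1 / 10 : ℝ) := by
          gcongr
      _ = (H : ℝ) ^ (107 / 1000 : ℝ) * 2 / (2 * V ^ 2) := by
          rw [div_mul_eq_mul_div, hadd]
          norm_num
          field_simp
      _ ≤ (H : ℝ) ^ (-(1 / 1000) : ℝ) * V / (2 * V ^ 2) := by gcongr
      _ = (H : ℝ) ^ (-(1 / 1000) : ℝ) * 1 / (2 * V) := by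
          field_simp
      _ ≤ _ := by gcongr
  have hE1 : E ≤ |γ 1| * w₀ / (2 * V) := by
    refine le_trans ?_ hElo
    have h1 : 1 ≤ (H : ℝ) ^ (1 / 10 : ℝ) := by
      have := hmono (1 / 1000) (1 / 10) (by norm_num)
      linarith
    calc E = E * 1 := (mul_one E).symm
      _ ≤ _ := by gcongr
  have hmain : ∀ k, 1 ≤ k → |γ 1 * ((-1) ^ k * w₀ * V ^ (k - 1) / p₁ ^ k)| =
      |γ 1| * w₀ / V / X ^ k := by
    intro k hk
    obtain ⟨k, rfl⟩ : ∃ k', k = k' + 1 := ⟨k - 1, by omega⟩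
    rw [abs_mul, abs_div, abs_mul, abs_mul, abs_pow, abs_neg, abs_one, one_pow, one_mul, abs_pow,
      abs_pow, abs_of_pos hV0, abs_of_nonneg (by linarith : 0 ≤ w₀), Nat.add_sub_cancel, hX,
      div_pow]
    field_simp
    ring
  have h4V : ∀ k : ℕ, (4 * V / |p₁|) ^ k = (4 / X) ^ k := by
    intro k
    congr 1
    rw [hX]
    field_simp
  refine ⟨σ, ?_, ?_⟩
  · intro n hn
    have h1 : |(n : ℝ)| ≤ |p₁| / (8 * V) := by
      rw [abs_of_nonneg (Nat.cast_nonneg n)]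
      have h2 : |p₁| / (8 * V) = X / 8 := by rw [hX, div_div, mul_comm]
      rw [h2, le_div_iff₀ (by norm_num)]
      calc (n : ℝ) * 8 ≤ (H : ℝ) ^ (39 / 100 : ℝ) * (H : ℝ) ^ (1 / 1000 : ℝ) := by
            gcongr
            linarith
        _ ≤ (H : ℝ) ^ (499 / 1000 : ℝ) := by
            rw [hadd]
            exact hmono _ _ (by norm_num)
        _ ≤ X := hXlo
    obtain ⟨h2, h3, _⟩ := hσ n h1
    rw [abs_of_nonneg (Nat.cast_nonneg n : (0 : ℝ) ≤ (n : ℝ))] at h3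
    exact ⟨h2, h3⟩
  · have hk4 : ∀ k, k ≤ ⌈5 * κ⌉₊ + 5 → (4 : ℝ) ^ k ≤ (H : ℝ) ^ (1 / 10 : ℝ) := by
      intro k hk
      have h1 : (k : ℝ) ≤ 20 * L ^ δ + 6 := by
        have h2 := Nat.ceil_lt_add_one (a := 5 * κ) (by linarith)
        have h3 : (k : ℝ) ≤ (⌈5 * κ⌉₊ : ℝ) + 5 := by exact_mod_cast hk
        linarith
      have h6 : (4 : ℝ) ≤ Real.exp 2 := by
        have h7 : (2 : ℝ) ≤ Real.exp 1 := by
          have := Real.add_one_le_exp (1 : ℝ)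
          linarith
        calc (4 : ℝ) = 2 * 2 := by norm_num
          _ ≤ Real.exp 1 * Real.exp 1 := by gcongr
          _ = Real.exp 2 := by rw [← Real.exp_add]; norm_num
      calc (4 : ℝ) ^ k ≤ (Real.exp 2) ^ k := pow_le_pow_left₀ (by norm_num) h6 _
        _ = Real.exp ((k : ℝ) * 2) := (Real.exp_nat_mul _ _).symm
        _ ≤ Real.exp (1 / 10 * L) := by
            apply Real.exp_le_exp.2
            linarith
        _ = _ := (hexp _).symm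
    have key := hC N M κ A X (fun k => θ * g k)
      (fun n => θ * (γ 1 * σ n + ∑ k ∈ Finset.Icc 2 D, γ k * σ n ^ k)) hN2 ?_ hκ2 hM1 ?_ ?_ hA0 hNX
      hXN hκA ?_ ?_ ?_
    · refine key.trans ?_
      refine mul_le_mul_of_nonneg_left ?_ (by positivity)
      rw [Real.rpow_def_of_pos hN0, Real.rpow_def_of_pos hN0, ← Real.exp_add]
      have hLδp : 0 < L ^ δ := by positivity
      have hLβp : 0 < L ^ β := by positivity
      have h5 : 1 + κ ≤ 5 * L ^ δ := by linarith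
      have hκ0 : 0 < 1 + κ := by linarith
      have h7 : 3 * L ^ β ≤ log N * (1 / 10 ^ 10 / (1 + κ) ^ 2) := by
        have h8 : (1 + κ) ^ 2 ≤ 25 * L ^ (2 * δ) := by
          calc (1 + κ) ^ 2 ≤ (5 * L ^ δ) ^ 2 := by gcongr
            _ = 25 * (L ^ δ) ^ 2 := by ring
            _ = 25 * L ^ (2 * δ) := by
                rw [← Real.rpow_natCast, ← Real.rpow_mul hL0.le]
                push_cast
                ring_nf
        rw [div_div, mul_one_div, le_div_iff₀ (by positivity)]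
        have h9 : L = L ^ (1 - 2 * δ) * L ^ (2 * δ) := by
          rw [← Real.rpow_add hL0]
          norm_num
        calc 3 * L ^ β * (10 ^ 10 * (1 + κ) ^ 2) ≤
            3 * L ^ β * (10 ^ 10 * (25 * L ^ (2 * δ))) := by gcongr
          _ = (300 * 10 ^ 10 * L ^ β) * L ^ (2 * δ) / 4 := by ring
          _ ≤ L ^ (1 - 2 * δ) * L ^ (2 * δ) / 4 := by gcongr
          _ = L / 4 := by rw [← h9]
          _ ≤ log N := by linarith
      have h8 : log (N : ℝ) * -(1 / 10 ^ 10 / (1 + κ) ^ 2) =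
          -(log N * (1 / 10 ^ 10 / (1 + κ) ^ 2)) := by ring
      have h9 : Real.exp (-(2 * L ^ β)) = Real.exp (-(3 * L ^ β)) * Real.exp (L ^ β) := by
        rw [← Real.exp_add]
        ring_nf
      have h10 : 2 * C + 1 + 1 ≤ Real.exp (L ^ β) := by
        have := Real.add_one_le_exp (L ^ β)
        linarith
      have h11 : Real.exp (log (N : ℝ) * -(1 / 10 ^ 10 / (1 + κ) ^ 2)) ≤ Real.exp (-(3 * L ^ β)) := by
        apply Real.exp_le_exp.2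
        rw [h8]
        linarith
      have h12 : Real.exp (16 * (1 + κ) + log (N : ℝ) * -1) ≤ Real.exp (-(3 * L ^ β)) := by
        apply Real.exp_le_exp.2
        linarith
      have h13 := (Real.exp_pos (-(3 * L ^ β))).le
      rw [h9]
      calc C * Real.exp (log (N : ℝ) * -(1 / 10 ^ 10 / (1 + κ) ^ 2)) +
          Real.exp (16 * (1 + κ) + log (N : ℝ) * -1) ≤
          C * Real.exp (-(3 * L ^ β)) + Real.exp (-(3 * L ^ β)) := by gcongr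
        _ = Real.exp (-(3 * L ^ β)) * (C + 1) := by ring
        _ ≤ _ := by
            refine mul_le_mul_of_nonneg_left ?_ h13
            linarith
    · -- `8 ≤ N ^ (1 / 5)`
      calc (8 : ℝ) ≤ (H : ℝ) ^ (1 / 1000 : ℝ) := by linarith
        _ ≤ (H : ℝ) ^ (498 / 1000 * (1 / 5) : ℝ) := hmono _ _ (by norm_num)
        _ = ((H : ℝ) ^ (498 / 1000 : ℝ)) ^ (1 / 5 : ℝ) := Real.rpow_mul hHp.le _ _
        _ ≤ (N : ℝ) ^ (1 / 5 : ℝ) := Real.rpow_le_rpow (by positivity) hNlo (by norm_num)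
    · calc (N : ℝ) ^ (19 / 50 : ℝ) ≤ ((H : ℝ) ^ (503 / 1000 : ℝ)) ^ (19 / 50 : ℝ) :=
            Real.rpow_le_rpow hN0.le hNhi (by norm_num)
        _ = (H : ℝ) ^ (503 / 1000 * (19 / 50) : ℝ) := (Real.rpow_mul hHp.le _ _).symm
        _ = (H : ℝ) ^ (503 / 1000 * (19 / 50) : ℝ) * 2 / 2 := by ring
        _ ≤ (H : ℝ) ^ (503 / 1000 * (19 / 50) : ℝ) * (H : ℝ) ^ (1 / 1000 : ℝ) / 2 := by
            gcongr
            linarith
        _ ≤ (H : ℝ) ^ (39 / 200 : ℝ) / 2 := by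
            rw [hadd]
            have := hmono (503 / 1000 * (19 / 50) + 1 / 1000) (39 / 200) (by norm_num)
            linarith
        _ ≤ 2 * M := by linarith
    · calc (M : ℝ) ≤ (H : ℝ) ^ (39 / 200 : ℝ) := hMhi
        _ ≤ (H : ℝ) ^ (498 / 1000 * (2 / 5) : ℝ) := hmono _ _ (by norm_num)
        _ = ((H : ℝ) ^ (498 / 1000 : ℝ)) ^ (2 / 5 : ℝ) := Real.rpow_mul hHp.le _ _
        _ ≤ (N : ℝ) ^ (2 / 5 : ℝ) := Real.rpow_le_rpow (by positivity) hNlo (by norm_num)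
    · intro k hk hkr
      have h1 := hg k hk
      rw [h4V] at h1
      have h2 := hk4 k hkr
      have h3 : E * (4 / X) ^ k ≤ |γ 1| * w₀ / (2 * V) / X ^ k := by
        rw [div_pow, mul_div_assoc']
        gcongr
        refine le_trans ?_ hElo
        gcongr
      have h4 := hmain k hk
      have h5 : |γ 1| * w₀ / (2 * V) / X ^ k = (|γ 1| * w₀ / V / X ^ k) / 2 := by
        field_simp
      rw [h5] at h3
      have h6 := abs_sub_abs_le_abs_sub (g k) (γ 1 * ((-1) ^ k * w₀ * V ^ (k - 1) / p₁ ^ k))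
      have h7 := abs_sub_abs_le_abs_sub (γ 1 * ((-1) ^ k * w₀ * V ^ (k - 1) / p₁ ^ k)) (g k)
      rw [abs_sub_comm] at h7
      rw [h4] at h6 h7
      have h8 : A / X ^ k = |θ| * (|γ 1| * w₀ / V / X ^ k) := by
        rw [hA]
        ring
      have h9 : A / 2 / X ^ k = |θ| * ((|γ 1| * w₀ / V / X ^ k) / 2) := by
        rw [hA]
        ring
      have h10 : 2 * A / X ^ k = |θ| * (2 * (|γ 1| * w₀ / V / X ^ k)) := by
        rw [hA]
        ring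
      have h11 : 0 ≤ |γ 1| * w₀ / V / X ^ k := by positivity
      constructor
      · rw [abs_mul, h9]
        refine mul_le_mul_of_nonneg_left ?_ (abs_nonneg θ)
        linarith
      · rw [abs_mul, h10]
        refine mul_le_mul_of_nonneg_left ?_ (abs_nonneg θ)
        linarith
    · intro k hk
      have h1 := hg k hk
      rw [h4V] at h1
      have h4 := hmain k hk
      have h6 := abs_sub_abs_le_abs_sub (g k) (γ 1 * ((-1) ^ k * w₀ * V ^ (k - 1) / p₁ ^ k))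
      rw [h4] at h6
      have h7 : |γ 1| * w₀ / V / X ^ k ≤ |γ 1| * w₀ / V * (4 / X) ^ k := by
        rw [div_pow, mul_div_assoc']
        gcongr
        have : (1 : ℝ) ≤ 4 ^ k := one_le_pow₀ (by norm_num)
        have h0 : 0 ≤ |γ 1| * w₀ / V := by positivity
        nlinarith
      have h8 : E * (4 / X) ^ k ≤ |γ 1| * w₀ / (2 * V) * (4 / X) ^ k := by gcongr
      have h9 : 2 * A * (4 / X) ^ k = |θ| * (2 * (|γ 1| * w₀ / V) * (4 / X) ^ k) := by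
        rw [hA]
        ring
      have h10 : |γ 1| * w₀ / (2 * V) * (4 / X) ^ k = (|γ 1| * w₀ / V) * (4 / X) ^ k / 2 := by
        field_simp
      have h11 : 0 ≤ (|γ 1| * w₀ / V) * (4 / X) ^ k := by positivity
      rw [abs_mul, h9]
      refine mul_le_mul_of_nonneg_left ?_ (abs_nonneg θ)
      linarith
    · intro n hn
      have h1 : |(n : ℝ)| ≤ |p₁| / (8 * V) := by
        rw [abs_of_nonneg (Nat.cast_nonneg n)]
        have h2 : |p₁| / (8 * V) = X / 8 := by rw [hX, div_div, mul_comm]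
        rw [h2]
        exact hn
      obtain ⟨_, _, h3⟩ := hσ n h1
      have h4 := h3.mul_left θ
      refine h4.congr_fun ?_
      intro k
      ring

end Pool.Agent.N586.AN
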