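import Pool.Agent.N586.AN.Stm2

/-!
# From pairs to algebraic numbers
-/

set_option autoImplicit false

namespace Pool.Agent.N586.AN

open Finset Real Filter Polynomial
open Pool.Agent.Y933.KG (pol Om Alg)
open Pool.Agent.N586.RT (logpow log_ge Nw)

/-- polynomials in `log H` are smaller than `exp ((log H) ^ β)` -/
lemma exp_beats (C β : ℝ) (hβ : 0 < β) :
    ∀ᶠ H : ℕ in atTop, C * log H ≤ Real.exp ((log H) ^ β) := by
  have hlog : Tendsto (fun N : ℕ => log (N : ℝ)) atTop atTop :=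
    Real.tendsto_log_atTop.comp tendsto_natCast_atTop_atTop
  have h1 := (isLittleO_log_rpow_atTop hβ).bound (by norm_num : (0 : ℝ) < 1 / 2)
  filter_upwards [hlog.eventually h1, log_ge 1, logpow hβ (2 * log (max C 1))] with H h2 h3 h4
  rw [Real.norm_eq_abs, Real.norm_eq_abs, abs_of_nonneg (Real.rpow_nonneg (by linarith) _)] at h2
  rw [Real.rpow_zero, mul_one] at h4
  have hL : 0 < log (H : ℝ) := by linarith
  have hC1 : (1 : ℝ) ≤ max C 1 := le_max_right _ _
  calc C * log H ≤ max C 1 * log H := by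
        gcongr
        exact le_max_left _ _
    _ = Real.exp (log (max C 1) + log (log H)) := by
        rw [Real.exp_add, Real.exp_log (by linarith), Real.exp_log hL]
    _ ≤ _ := by
        apply Real.exp_le_exp.2
        have := le_abs_self (log (log (H : ℝ)))
        linarith

theorem t_fin3 (hN : S_NRM2) (hA : S_ALG) (q : ℕ) (δ β : ℝ) (hδ : 0 < δ) (hβ : 0 < β)
    (hδβ : 2 * δ + β < 1) (B w : ℕ) (ε : ℝ) (hε : 0 < ε) : ∃ H₀ : ℕ, ∀ H : ℕ, H₀ ≤ H →
      (({x ∈ Alg (q + 2) H | ¬ ∀ (f : ℤ[X]) (m : ℕ), Sml q β H f m →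
        Nw B w ((Real.log H) ^ (1 + δ)) ε (ε * Real.log H) (aeval x f / m)}.ncard : ℕ) : ℝ) ≤
        Real.exp (-(Real.log H) ^ β) * ((Alg (q + 2) H).ncard : ℝ) := by
  classical
  obtain ⟨C, hC, H1, hH1⟩ := hA q
  obtain ⟨H2, hH2⟩ := hN q δ β hδ hβ hδβ B w ε hε
  obtain ⟨H3, hH3⟩ := eventually_atTop.1 (exp_beats C β hβ)
  refine ⟨max H1 (max H2 H3), fun H hH => ?_⟩
  have hHa := hH1 H (le_of_max_le_left hH)
  have hHb := hH2 H (le_of_max_le_left (le_of_max_le_right hH))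
  have hHc := hH3 H (le_of_max_le_right (le_of_max_le_right hH))
  set S := {x ∈ Alg (q + 2) H | ¬ ∀ (f : ℤ[X]) (m : ℕ), Sml q β H f m →
        Nw B w ((Real.log H) ^ (1 + δ)) ε (ε * Real.log H) (aeval x f / m)} with hS
  set O := (Om q H).filter (fun p => ¬ ∀ (f : ℤ[X]) (m : ℕ), 1 ≤ f.natDegree → f.natDegree < q + 2 →
      (∀ i, |(f.coeff i : ℝ)| ≤ Real.exp ((Real.log H) ^ β)) → 1 ≤ m →
      (m : ℝ) ≤ Real.exp ((Real.log H) ^ β) →
      Nw B w ((Real.log H) ^ (1 + δ)) ε (ε * Real.log H) (aeval p.2.2 f / m)) with hO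
  have hsub : S ⊆ ((O.image fun p => p.2.2 : Finset ℝ) : Set ℝ) := by
    rintro x ⟨hx, hbad⟩
    obtain ⟨p, hp, hpx⟩ := Pool.Agent.Y933.KG.Alg_sub q H hx
    rw [Finset.mem_coe, Finset.mem_image]
    refine ⟨p, ?_, hpx⟩
    rw [hO, Finset.mem_filter]
    refine ⟨hp, fun hcon => hbad ?_⟩
    intro f m hf
    have h1 := hcon f m hf.1 hf.2.1 hf.2.2.1 hf.2.2.2.1 hf.2.2.2.2
    rwa [hpx] at h1
  have h1 : (S.ncard : ℝ) ≤ (O.card : ℝ) := by
    have h2 : S.ncard ≤ (O.image fun p => p.2.2).card := by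
      rw [← Set.ncard_coe_finset]
      exact Set.ncard_le_ncard hsub (Finset.finite_toSet _)
    exact_mod_cast h2.trans Finset.card_image_le
  calc (S.ncard : ℝ) ≤ (O.card : ℝ) := h1
    _ ≤ (H : ℝ) ^ (q + 3) * Real.exp (-(2 * (Real.log H) ^ β)) := hHb
    _ ≤ (C * Real.log H * ((Alg (q + 2) H).ncard : ℝ)) * Real.exp (-(2 * (Real.log H) ^ β)) := by
        gcongr
    _ = (C * Real.log H) * (((Alg (q + 2) H).ncard : ℝ) * Real.exp (-(2 * (Real.log H) ^ β))) := by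
        ring
    _ ≤ Real.exp ((Real.log H) ^ β) *
        (((Alg (q + 2) H).ncard : ℝ) * Real.exp (-(2 * (Real.log H) ^ β))) := by gcongr
    _ = Real.exp ((Real.log H) ^ β) * Real.exp (-(2 * (Real.log H) ^ β)) *
        ((Alg (q + 2) H).ncard : ℝ) := by ring
    _ = _ := by
        rw [← Real.exp_add]
        congr 2
        ring

end Pool.Agent.N586.AN
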