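import Pool.Agent.N586.AN.Stm2
import Pool.Agent.N586.AN.Nrm

/-! U6 of project AN: from exponential sums to normality of nearly all pairs, with parameters. This
follows `Pool.Agent.N586.AN.Nrm` (helper26). -/

set_option autoImplicit false

namespace Pool.Agent.N586.AN

open Finset Real Filter Polynomial MeasureTheory
open Pool.Agent.Y933.KG (pol Om Av Alg card_Om_le Om_nonempty)
open Pool.Agent.Y933.KD (e hat unif unif_prob integral_unif real_unif wd WS_ci)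
open Pool.Agent.N586.RT (Nw block Fs mem_Fs card_Fs logpow log_ge)

open Classical in
/-- one polynomial and one base -/
lemma nrm_one2 (hT : S_TOT2) (q : ℕ) (δ δ' β' : ℝ) (hδ : 0 < δ) (hδδ : δ < δ') (hβ' : 0 < β')
    (hδβ : 2 * δ' + β' < 1) : ∀ (B w : ℕ) (ε : ℝ), 0 < ε →
    ∃ c : ℝ, 0 < c ∧ ∃ H0 : ℕ, ∀ H : ℕ, H0 ≤ H → ∀ G : ℝ[X], 1 ≤ G.natDegree →
    G.natDegree ≤ q + 1 →
    (∀ i, 1 ≤ i → |G.coeff i| ≤ Real.exp ((Real.log H) ^ β')) →
    Real.exp (-(Real.log H) ^ β') ≤ |G.leadingCoeff| →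
    ∀ b, 2 ≤ b → b ≤ B →
      (((Om q H).filter (fun p => ¬ Nrm1 b w ((Real.log H) ^ (1 + δ)) ε (ε * Real.log H)
        (G.eval p.2.2))).card : ℝ) ≤
        (Om q H).card * ((Real.log H) ^ (1 + δ) * Real.exp (-(c * (Real.log H) ^ β'))) := by
  have hδ' : 0 < δ' := by linarith
  have hTOT := hT q δ' β' hδ' hβ' hδβ
  intro B w ε hε
  have hl2 : 0 < Real.log 2 := Real.log_pos (by norm_num)
  obtain ⟨N0, hN0⟩ := hTOT (ε / 4 * Real.log 2) (by positivity)
  obtain ⟨c0, hc0, τ0, hτ0⟩ := block (B := B) (w := max w 1) (le_max_right _ _)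
    (by positivity : 0 < ε / 2)
  set lB : ℝ := Real.log (max (B : ℝ) 2) with hlB
  have hlB0 : 0 ≤ lB := Real.log_nonneg (by have := le_max_right (B : ℝ) 2; linarith)
  obtain ⟨N1, hN1⟩ := eventually_atTop.1 ((((((logpow hβ' (τ0)).and
    (logpow (by linarith : β' < 1) (2 / ε))).and
    (logpow (by linarith : (1 + δ : ℝ) < 1 + δ') (1 + lB + (ε / 4 + 1) * lB))).and
    (log_ge 1)).and (log_ge (4 / ε))).and (eventually_ge_atTop 2))
  refine ⟨c0, hc0, max N0 N1, ?_⟩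
  intro H hH G hG1 hG2 hG3 hG4 b hb hbB
  obtain ⟨⟨⟨⟨⟨h1, h2⟩, h3⟩, h4⟩, h5⟩, h6⟩ := hN1 H (le_of_max_le_right hH)
  have key := hN0 H (le_of_max_le_left hH) G hG1 hG2 hG3 hG4
  have hHR : (2 : ℝ) ≤ H := by exact_mod_cast h6
  have hHp : (0 : ℝ) < H := by linarith
  obtain ⟨L, hL⟩ : ∃ L : ℝ, L = Real.log H := ⟨_, rfl⟩
  rw [← hL] at h1 h2 h3 h4 h5 key ⊢
  rw [Real.rpow_zero, mul_one] at h1
  rw [Real.rpow_one] at h2
  have hL0 : 0 < L := by linarith
  set τ : ℝ := L ^ β' with hτ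
  have hτ0' : 0 ≤ τ := Real.rpow_nonneg hL0.le _
  have hτL : τ ≤ L := by
    rw [hτ]
    calc L ^ β' ≤ L ^ (1 : ℝ) := Real.rpow_le_rpow_of_exponent_le h4 (by linarith)
      _ = L := Real.rpow_one L
  set T : ℝ := L ^ (1 + δ) with hT'
  have hT1 : 1 ≤ T := Real.one_le_rpow h4 (by positivity)
  have hTL : L ≤ T := by
    rw [hT']
    calc L = L ^ (1 : ℝ) := (Real.rpow_one L).symm
      _ ≤ _ := Real.rpow_le_rpow_of_exponent_le h4 (by linarith)
  set n0 : ℕ := ⌈ε / 4 * L⌉₊ with hn0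
  have hn0a : ε / 4 * L ≤ n0 := Nat.le_ceil _
  have hn0b : (n0 : ℝ) ≤ ε / 4 * L + 1 := (Nat.ceil_lt_add_one (by positivity)).le
  have hbR : (2 : ℝ) ≤ b := by exact_mod_cast hb
  have hcard0 : (0 : ℝ) < ((Om q H).card : ℝ) := by
    exact_mod_cast (Om_nonempty q H h6).card_pos
  obtain ⟨U, hU, hPU, hx⟩ := hτ0 τ h1 T hT1
    (unif (Om q H) (fun p => (b : ℝ) ^ n0 * G.eval p.2.2)) (unif_prob (Om_nonempty q H h6) _)
    (fun b' n h hb1 hb2 hn hh hh2 => by
      have hb'R : (2 : ℝ) ≤ b' := by exact_mod_cast hb1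
      have hh1 : (1 : ℝ) ≤ |(h : ℝ)| := by
        have : (1 : ℤ) ≤ |h| := Int.one_le_abs hh
        exact_mod_cast this
      have hb0 : (1 : ℝ) ≤ (b' : ℝ) ^ n := one_le_pow₀ (by linarith)
      have hθ : |(h : ℝ) * (b' : ℝ) ^ n * (b : ℝ) ^ n0| = |(h : ℝ)| * (b' : ℝ) ^ n * (b : ℝ) ^ n0 := by
        rw [abs_mul, abs_mul, abs_of_nonneg (by positivity : (0 : ℝ) ≤ (b' : ℝ) ^ n),
          abs_of_nonneg (by positivity : (0 : ℝ) ≤ (b : ℝ) ^ n0)]
      have hθ1 : (H : ℝ) ^ (ε / 4 * Real.log 2) ≤ |(h : ℝ) * (b' : ℝ) ^ n * (b : ℝ) ^ n0| := by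
        rw [hθ]
        have e1 : (H : ℝ) ^ (ε / 4 * Real.log 2) = (2 : ℝ) ^ (ε / 4 * L) := by
          rw [Real.rpow_def_of_pos hHp, Real.rpow_def_of_pos (by norm_num), hL]
          congr 1
          ring
        have e2 : (2 : ℝ) ^ (ε / 4 * L) ≤ (b : ℝ) ^ n0 := by
          calc (2 : ℝ) ^ (ε / 4 * L) ≤ (2 : ℝ) ^ ((n0 : ℕ) : ℝ) :=
                Real.rpow_le_rpow_of_exponent_le (by norm_num) hn0a
            _ = (2 : ℝ) ^ n0 := Real.rpow_natCast _ _
            _ ≤ _ := by gcongr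
        rw [e1]
        refine e2.trans ?_
        have e3 : (1 : ℝ) ≤ |(h : ℝ)| * (b' : ℝ) ^ n := by nlinarith
        have e4 : (0 : ℝ) ≤ (b : ℝ) ^ n0 := by positivity
        nlinarith
      have hpw : ∀ (c m : ℕ), 2 ≤ c → c ≤ B → (c : ℝ) ^ m ≤ Real.exp (m * lB) := by
        intro c m hc hcB
        have hcR : (2 : ℝ) ≤ c := by exact_mod_cast hc
        rw [← Real.exp_log (by positivity : (0 : ℝ) < (c : ℝ) ^ m), Real.log_pow]
        apply Real.exp_le_exp.2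
        have g3 : Real.log c ≤ lB := by
          apply Real.log_le_log (by linarith)
          refine le_trans ?_ (le_max_left _ _)
          exact_mod_cast hcB
        gcongr
      have hθ2 : |(h : ℝ) * (b' : ℝ) ^ n * (b : ℝ) ^ n0| ≤ Real.exp (L ^ (1 + δ')) := by
        rw [hθ]
        calc |(h : ℝ)| * (b' : ℝ) ^ n * (b : ℝ) ^ n0
            ≤ Real.exp τ * Real.exp (n * lB) * Real.exp (n0 * lB) := by
              have g1 := hpw b' n hb1 hb2
              have g2 := hpw b n0 hb hbB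
              gcongr
          _ = Real.exp (τ + n * lB + n0 * lB) := by rw [Real.exp_add, Real.exp_add]
          _ ≤ _ := by
              apply Real.exp_le_exp.2
              have g1 : (n : ℝ) * lB ≤ T * lB := by gcongr
              have g2 : (n0 : ℝ) * lB ≤ ((ε / 4 + 1) * T) * lB := by
                refine mul_le_mul_of_nonneg_right ?_ hlB0
                nlinarith
              have g3 : (1 + lB + (ε / 4 + 1) * lB) * T = T + T * lB + ((ε / 4 + 1) * T) * lB := by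
                ring
              linarith
      have h7 := key _ hθ1 hθ2
      unfold hat
      rw [integral_unif]
      have e1 : ∑ p ∈ Om q H, e (((h * (b' : ℤ) ^ n : ℤ) : ℝ) * ((b : ℝ) ^ n0 * G.eval p.2.2)) =
          ∑ p ∈ Om q H, e ((h : ℝ) * (b' : ℝ) ^ n * (b : ℝ) ^ n0 * G.eval p.2.2) := by
        refine sum_congr rfl fun p _ => ?_
        congr 1
        push_cast
        ring
      rw [e1, norm_mul, norm_div, norm_one, Complex.norm_natCast, one_div,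
        inv_mul_le_iff₀ hcard0]
      exact h7)
  rw [real_unif _ _ hU, div_le_iff₀ hcard0, mul_comm _ ((Om q H).card : ℝ)] at hPU
  refine le_trans ?_ hPU
  refine Nat.cast_le.2 (Finset.card_le_card fun p hp => ?_)
  rw [Finset.mem_filter] at hp ⊢
  refine ⟨hp.1, ?_⟩
  by_contra hpU
  apply hp.2
  have h8 : Nrm1 b w T (ε / 2) τ ((b : ℝ) ^ n0 * G.eval p.2.2) := by
    intro k j s N hk hkw hj hsN
    have h9 := hx _ hpU b k j s N hb hbB hk (hkw.trans (le_max_left _ _)) hj hsN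
    rw [WS_ci (by omega)] at h9
    exact h9
  have h10 := nrm_shift (by omega) hn0b (by positivity) h8 hτ0'
  intro k j s N hk hkw hj hsN
  refine (h10 k j s N hk hkw hj hsN).trans ?_
  have h11 : ε / 2 * (N : ℝ) ≤ ε * N := by
    have : (0 : ℝ) ≤ N := Nat.cast_nonneg _
    nlinarith
  have h12 : τ ≤ ε / 2 * L := by
    have e1 : ε / 2 * (2 / ε * τ) = τ := by field_simp
    have e2 := mul_le_mul_of_nonneg_left h2 (by positivity : 0 ≤ ε / 2)
    linarith
  have h13 : 1 ≤ ε / 4 * L := by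
    rw [div_le_iff₀ hε] at h5
    linarith
  linarith

open Classical in
/-- **U6** -/
theorem t_nrm2 (hT : S_TOT2) : S_NRM2 := by
  intro q δ β hδ hβ hδβ B w ε hε
  obtain ⟨γ, hγ⟩ : ∃ γ : ℝ, γ = (1 - 2 * δ - β) / 8 := ⟨_, rfl⟩
  have hγ0 : 0 < γ := by rw [hγ]; linarith
  obtain ⟨β', hβ'⟩ : ∃ β' : ℝ, β' = β + γ := ⟨_, rfl⟩
  have hββ : β < β' := by linarith
  obtain ⟨c0, hc0, M1, hM1⟩ := nrm_one2 hT q δ (δ + γ) β' hδ (by linarith) (by linarith)
    (by rw [hβ', hγ]; linarith) B w ε hε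
  have hqR : (0 : ℝ) ≤ q := Nat.cast_nonneg q
  set K0 : ℝ := Real.log ((B + 1) * (3 ^ (q + 3) * (q + 2))) with hK0
  have hK0a : (1 : ℝ) ≤ (B + 1) * (3 ^ (q + 3) * (q + 2)) := by
    have e1 : (1 : ℝ) ≤ 3 ^ (q + 3) := one_le_pow₀ (by norm_num)
    have e2 : (0 : ℝ) ≤ B := Nat.cast_nonneg _
    have e3 : (1 : ℝ) ≤ 3 ^ (q + 3) * (q + 2) := by nlinarith
    nlinarith
  have hK0b : 0 ≤ K0 := Real.log_nonneg hK0a
  obtain ⟨M2, hM2⟩ := eventually_atTop.1 ((((logpow hββ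
    ((K0 + (2 * q + 5) + (1 + δ) + 2) / c0)).and
    (log_ge 1)).and (eventually_ge_atTop 2)).and
    (logpow hβ 2))
  -- `log log H ≤ (log H) ^ β`
  have hll : ∀ᶠ M : ℕ in atTop, Real.log (Real.log M) ≤ (Real.log M) ^ β := by
    have hlog : Tendsto (fun N : ℕ => Real.log (N : ℝ)) atTop atTop :=
      Real.tendsto_log_atTop.comp tendsto_natCast_atTop_atTop
    have h1 := (isLittleO_log_rpow_atTop hβ).bound
      (by norm_num : (0 : ℝ) < 1)
    filter_upwards [hlog.eventually h1, log_ge 1] with M h2 h3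
    rw [one_mul, Real.norm_eq_abs, Real.norm_eq_abs] at h2
    rw [abs_of_nonneg (Real.rpow_nonneg (by linarith) _)] at h2
    exact (le_abs_self _).trans h2
  obtain ⟨M3, hM3⟩ := eventually_atTop.1 hll
  refine ⟨max (max M1 M2) M3, fun H hH => ?_⟩
  have hHM1 : M1 ≤ H := le_of_max_le_left (le_of_max_le_left hH)
  obtain ⟨⟨⟨hb, hL1⟩, hH2⟩, hv⟩ := hM2 H (le_of_max_le_right (le_of_max_le_left hH))
  have hc := hM3 H (le_of_max_le_right hH)
  have hG := hM1 H hHM1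
  have hHR : (2 : ℝ) ≤ H := by exact_mod_cast hH2
  have hHp : (0 : ℝ) < H := by linarith
  have hOm := card_Om_le q H (by omega)
  obtain ⟨L, hL⟩ : ∃ L : ℝ, L = Real.log H := ⟨_, rfl⟩
  rw [← hL] at hb hL1 hc hG hv ⊢
  rw [Real.rpow_zero, mul_one] at hv
  have hL0 : 0 < L := by linarith
  obtain ⟨V, hV⟩ : ∃ V : ℝ, V = Real.exp (L ^ β) := ⟨_, rfl⟩
  have hV' : Real.exp (-L ^ β) = V⁻¹ := by rw [hV, Real.exp_neg]
  have hLL : L ^ β ≤ L ^ β' := Real.rpow_le_rpow_of_exponent_le hL1 hββ.le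
  have hG : ∀ G : ℝ[X], 1 ≤ G.natDegree → G.natDegree ≤ q + 1 →
      (∀ i, 1 ≤ i → |G.coeff i| ≤ V) → V⁻¹ ≤ |G.leadingCoeff| → ∀ b, 2 ≤ b → b ≤ B →
      (((Om q H).filter (fun p => ¬ Nrm1 b w (L ^ (1 + δ)) ε (ε * L) (G.eval p.2.2))).card : ℝ) ≤
        (Om q H).card * (L ^ (1 + δ) * Real.exp (-(c0 * L ^ β'))) := by
    intro G h1 h2 h3 h4
    refine hG G h1 h2 (fun i hi => (h3 i hi).trans ?_) (le_trans ?_ h4)
    · rw [hV]
      exact Real.exp_le_exp.2 hLL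
    · rw [← hV']
      exact Real.exp_le_exp.2 (by linarith)
  rw [← hV]
  have hV1 : 1 ≤ V := by
    rw [hV]
    exact Real.one_le_exp (by positivity)
  have hV0 : 0 < V := by linarith
  have h3V : 3 * V ≤ V ^ 2 := by
    have h1 : (3 : ℝ) ≤ V := by
      rw [hV]
      have := Real.add_one_le_exp (L ^ β)
      linarith
    nlinarith
  set τ : ℝ := L ^ β' with hτ
  set T : ℝ := L ^ (1 + δ) with hT'
  have hT1 : 1 ≤ T := Real.one_le_rpow hL1 (by positivity)
  set R : ℝ := (Om q H).card * (T * Real.exp (-(c0 * τ))) with hR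
  have hR0 : 0 ≤ R := by positivity
  set S : Finset ((ℤ[X] × ℕ) × ℕ) := ((Fs (q + 1) ⌊V⌋) ×ˢ (Finset.Icc 1 ⌊V⌋₊)) ×ˢ Finset.range (B + 1)
    with hS
  set bad : (ℤ[X] × ℕ) × ℕ → Finset (Pr q) := fun z => (Om q H).filter (fun p =>
    1 ≤ z.1.1.natDegree ∧ z.1.1.natDegree < q + 2 ∧ (∀ i, |(z.1.1.coeff i : ℝ)| ≤ V) ∧ 1 ≤ z.1.2 ∧
      (z.1.2 : ℝ) ≤ V ∧ 2 ≤ z.2 ∧ z.2 ≤ B ∧
      ¬ Nrm1 z.2 w T ε (ε * L) (aeval p.2.2 z.1.1 / z.1.2)) with hbad
  have hsub : (Om q H).filter (fun p => ¬ ∀ (f : ℤ[X]) (m : ℕ), 1 ≤ f.natDegree →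
      f.natDegree < q + 2 → (∀ i, |(f.coeff i : ℝ)| ≤ V) → 1 ≤ m → (m : ℝ) ≤ V →
      Nw B w T ε (ε * L) (aeval p.2.2 f / m)) ⊆ S.biUnion bad := by
    intro p hp
    rw [Finset.mem_filter] at hp
    obtain ⟨hp1, hp2⟩ := hp
    push Not at hp2
    obtain ⟨f, m, hf1, hf2, hf3, hm1, hm2, hno⟩ := hp2
    obtain ⟨b, hb2, hbB, hnb⟩ : ∃ b, 2 ≤ b ∧ b ≤ B ∧
        ¬ Nrm1 b w T ε (ε * L) (aeval p.2.2 f / m) := by
      by_contra hcon
      push Not at hcon
      apply hno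
      intro b k j s N hb hbB hk hkw hj hsN
      exact hcon b hb hbB k j s N hk hkw hj hsN
    rw [Finset.mem_biUnion]
    refine ⟨((f, m), b), ?_, ?_⟩
    · rw [hS, Finset.mem_product, Finset.mem_product]
      refine ⟨⟨?_, ?_⟩, ?_⟩
      · refine mem_Fs (by simp only; omega) fun i => Int.le_floor.2 ?_
        push_cast
        exact hf3 i
      · rw [Finset.mem_Icc]
        exact ⟨hm1, Nat.le_floor hm2⟩
      · rw [Finset.mem_range]
        simp only
        omega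
    · rw [hbad]
      simp only [Finset.mem_filter]
      exact ⟨hp1, hf1, hf2, hf3, hm1, hm2, hb2, hbB, hnb⟩
  have hone : ∀ z ∈ S, ((bad z).card : ℝ) ≤ R := by
    intro z _
    by_cases hz : 1 ≤ z.1.1.natDegree ∧ z.1.1.natDegree < q + 2 ∧
        (∀ i, |(z.1.1.coeff i : ℝ)| ≤ V) ∧ 1 ≤ z.1.2 ∧ (z.1.2 : ℝ) ≤ V ∧ 2 ≤ z.2 ∧ z.2 ≤ B
    · obtain ⟨hz1, hz2, hz3, hz4, hz5, hz6, hz7⟩ := hz
      have hm0 : (0 : ℝ) < z.1.2 := by exact_mod_cast (by omega : 0 < z.1.2)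
      have hm1 : (1 : ℝ) ≤ z.1.2 := by exact_mod_cast hz4
      set G : ℝ[X] := C (1 / (z.1.2 : ℝ)) * z.1.1.map (Int.castRingHom ℝ) with hG'
      have hGc : ∀ i, G.coeff i = (z.1.1.coeff i : ℝ) / z.1.2 := by
        intro i
        rw [hG', coeff_C_mul, coeff_map]
        simp only [eq_intCast]
        ring
      have hGdeg : G.natDegree = z.1.1.natDegree := by
        rw [hG', natDegree_C_mul (by positivity), natDegree_map_eq_of_injective
          (RingHom.injective_int (Int.castRingHom ℝ))]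
      have key := hG G (by rw [hGdeg]; exact hz1) (by rw [hGdeg]; omega)
        (by
          intro i _
          rw [hGc, abs_div, abs_of_pos hm0]
          exact (div_le_self (abs_nonneg _) hm1).trans (hz3 i))
        (by
          rw [leadingCoeff, hGdeg, hGc, abs_div, abs_of_pos hm0]
          have h1 : (1 : ℝ) ≤ |(z.1.1.coeff z.1.1.natDegree : ℝ)| := by
            have h2 : z.1.1.coeff z.1.1.natDegree ≠ 0 := by
              rw [coeff_natDegree, Ne, leadingCoeff_eq_zero]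
              intro h
              rw [h, natDegree_zero] at hz1
              omega
            have h3 : (1 : ℤ) ≤ |z.1.1.coeff z.1.1.natDegree| := Int.one_le_abs h2
            exact_mod_cast h3
          calc V⁻¹ ≤ (z.1.2 : ℝ)⁻¹ := by gcongr
            _ = 1 / z.1.2 := by rw [one_div]
            _ ≤ _ := by gcongr) z.2 hz6 hz7
      refine le_trans (Nat.cast_le.2 (Finset.card_le_card fun p hp => ?_)) key
      rw [hbad] at hp
      simp only [Finset.mem_filter] at hp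
      rw [Finset.mem_filter]
      refine ⟨hp.1, fun hcon => hp.2.2.2.2.2.2.2.2 ?_⟩
      have h2 : G.eval p.2.2 = aeval p.2.2 z.1.1 / z.1.2 := by
        rw [hG', eval_mul, eval_C, eval_map, aeval_def]
        have : (algebraMap ℤ ℝ) = Int.castRingHom ℝ := rfl
        rw [this]
        ring
      rwa [h2] at hcon
    · have h1 : bad z = ∅ := by
        rw [hbad]
        simp only
        rw [Finset.filter_eq_empty_iff]
        rintro p _ ⟨h2, h3, h4, h5, h6, h7, h8, _⟩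
        exact hz ⟨h2, h3, h4, h5, h6, h7, h8⟩
      rw [h1, Finset.card_empty, Nat.cast_zero]
      exact hR0
  have hScard : ((S.card : ℕ) : ℝ) ≤ (B + 1) * V ^ (2 * q + 5) := by
    rw [hS, Finset.card_product, Finset.card_product, Nat.card_Icc, Nat.add_sub_cancel,
      Finset.card_range]
    push_cast
    have h1 := card_Fs (q + 1) (Int.floor_nonneg.2 (by linarith : (0 : ℝ) ≤ V))
    have h2 := Nat.floor_le (by linarith : (0 : ℝ) ≤ V)
    have h3 := Int.floor_le V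
    have h0 : (0 : ℝ) ≤ (⌊V⌋ : ℝ) := by exact_mod_cast Int.floor_nonneg.2 (by linarith : (0 : ℝ) ≤ V)
    calc ((Fs (q + 1) ⌊V⌋).card : ℝ) * (⌊V⌋₊ : ℝ) * (B + 1)
        ≤ (2 * (⌊V⌋ : ℝ) + 1) ^ (q + 1 + 1) * V * (B + 1) := by
          gcongr
      _ ≤ (V ^ 2) ^ (q + 1 + 1) * V * (B + 1) := by
          have : 2 * (⌊V⌋ : ℝ) + 1 ≤ V ^ 2 := by linarith
          gcongr
      _ = _ := by ring
  have hfin : (B + 1) * V ^ (2 * q + 5) * ((3 ^ (q + 3) * (q + 2)) * (T * Real.exp (-(c0 * τ)))) ≤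
      Real.exp (-(2 * L ^ β)) := by
    have e1 : V ^ (2 * q + 5) = Real.exp ((2 * q + 5) * L ^ β) := by
      rw [hV, ← Real.exp_nat_mul]
      congr 1
      push_cast
      ring
    have e2 : T = Real.exp ((1 + δ) * Real.log L) := by
      rw [hT', Real.rpow_def_of_pos hL0]
      congr 1
      ring
    have e3 : ((B : ℝ) + 1) * (3 ^ (q + 3) * (q + 2)) = Real.exp K0 := by
      rw [hK0, Real.exp_log (by linarith)]
    calc (B + 1) * V ^ (2 * q + 5) * ((3 ^ (q + 3) * (q + 2)) * (T * Real.exp (-(c0 * τ))))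
        = ((B : ℝ) + 1) * (3 ^ (q + 3) * (q + 2)) * V ^ (2 * q + 5) * T * Real.exp (-(c0 * τ)) := by
          ring
      _ = Real.exp (K0 + (2 * q + 5) * L ^ β + (1 + δ) * Real.log L + -(c0 * τ)) := by
          rw [e3, e1, e2, ← Real.exp_add, ← Real.exp_add, ← Real.exp_add]
      _ ≤ _ := by
          apply Real.exp_le_exp.2
          have h1 : (1 + δ) * Real.log L ≤ (1 + δ) * L ^ β := by gcongr
          have h2 : (K0 + (2 * q + 5) + (1 + δ) + 2) * L ^ β ≤ c0 * τ := by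
            have h3 : (K0 + (2 * q + 5) + (1 + δ) + 2) * L ^ β =
                c0 * ((K0 + (2 * q + 5) + (1 + δ) + 2) / c0 * L ^ β) := by
              field_simp
            rw [h3]
            exact mul_le_mul_of_nonneg_left hb hc0.le
          have h4 : (1 : ℝ) ≤ L ^ β := Real.one_le_rpow hL1 hβ.le
          have h5 : K0 ≤ K0 * L ^ β := le_mul_of_one_le_right hK0b h4
          linarith
  calc _ ≤ ((S.biUnion bad).card : ℝ) := by exact_mod_cast Finset.card_le_card hsub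
    _ ≤ ∑ z ∈ S, ((bad z).card : ℝ) := by exact_mod_cast Finset.card_biUnion_le
    _ ≤ ∑ _z ∈ S, R := sum_le_sum hone
    _ = (S.card : ℝ) * R := by rw [sum_const, nsmul_eq_mul]
    _ ≤ ((B + 1) * V ^ (2 * q + 5)) *
        ((3 ^ (q + 3) * (q + 2) * (H : ℝ) ^ (q + 3)) * (T * Real.exp (-(c0 * τ)))) := by
        rw [hR]
        gcongr
    _ = (H : ℝ) ^ (q + 3) * ((B + 1) * V ^ (2 * q + 5) *
        ((3 ^ (q + 3) * (q + 2)) * (T * Real.exp (-(c0 * τ))))) := by ring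
    _ ≤ _ := by gcongr

end Pool.Agent.N586.AN
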