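import Pool.Agent.N586.AN.Core

/-!
# The bilinear sum of one good pair
-/

set_option autoImplicit false

namespace Pool.Agent.N586.AN

open Finset Real Filter Polynomial
open Pool.Agent.Y933.KG (pol Om mem_Om pol_natDegree_le pol_coeff_abs deriv_bound)
open Pool.Agent.Y933.KD (e norm_e e_add)
open Pool.Agent.Y933.KD.VdC (ev_le)
open Pool.Agent.N586.RT (logpow log_ge)

lemma one_taylor {P : ℝ[X]} {n : ℕ} (hn : 1 ≤ n) (hP : P.natDegree ≤ n) (x s : ℝ) :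
    P.eval (x + s) = P.eval x + ((taylor x P).coeff 1 * s +
      ∑ k ∈ Finset.Icc 2 n, (taylor x P).coeff k * s ^ k) := by
  obtain ⟨m, rfl⟩ : ∃ m, n = m + 1 := ⟨n - 1, by omega⟩
  rw [add_comm x s, ← taylor_eval x P s, eval_eq_sum_range' (n := m + 1 + 1)
    (by rw [natDegree_taylor]; omega), Finset.sum_range_succ', Finset.sum_range_succ']
  have h1 : ∑ k ∈ Finset.Icc 2 (m + 1), (taylor x P).coeff k * s ^ k =
      ∑ i ∈ range m, (taylor x P).coeff (i + 1 + 1) * s ^ (i + 1 + 1) := by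
    rw [show Finset.Icc 2 (m + 1) = Finset.Ico 2 (m + 2) by
      ext k; simp only [Finset.mem_Icc, Finset.mem_Ico]; omega, Finset.sum_Ico_eq_sum_range]
    refine Finset.sum_congr rfl fun i _ => ?_
    rw [show 2 + i = i + 1 + 1 by ring]
  rw [h1, taylor_coeff_zero]
  simp only [pow_zero, mul_one, zero_add, pow_one]
  ring

lemma one_coeff (P : ℝ[X]) (x : ℝ) (k : ℕ) :
    |(taylor x P).coeff k| ≤ |(derivative^[k] P).eval x| := by
  have h0 : derivative^[k] P = k.factorial • hasseDeriv k P := by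
    rw [← factorial_smul_hasseDeriv]
    rfl
  rw [taylor_coeff, h0, eval_smul, nsmul_eq_mul, abs_mul]
  have h1 : (1 : ℝ) ≤ |((k.factorial : ℕ) : ℝ)| := by
    rw [abs_of_nonneg (Nat.cast_nonneg _)]
    exact_mod_cast Nat.one_le_iff_ne_zero.2 (Nat.factorial_ne_zero k)
  exact le_mul_of_one_le_left (abs_nonneg _) h1

lemma et_pos (q : ℕ) : 0 < et q := by unfold et; positivity

lemma et_le (q : ℕ) : et q ≤ 1 / 3000 := by
  unfold et
  apply one_div_le_one_div_of_le (by norm_num)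
  have : (0 : ℝ) ≤ q := Nat.cast_nonneg q
  linarith

lemma et_mul (q : ℕ) : et q * (q + 2) ≤ 1 / 1000 := by
  unfold et
  have : (0 : ℝ) ≤ q := Nat.cast_nonneg q
  rw [div_mul_eq_mul_div, div_le_div_iff₀ (by positivity) (by positivity)]
  linarith

/-- **the bilinear sum of one good pair** -/
theorem one (hBR : S_BR) (q : ℕ) : ∃ δ : ℝ, 0 < δ ∧ δ ≤ 1 / 40 ∧ ∃ H0 : ℕ, ∀ H : ℕ,
    H0 ≤ H → ∀ G : ℝ[X], G.natDegree ≤ q + 1 →
    (∀ i, 1 ≤ i → |G.coeff i| ≤ Real.exp ((log H) ^ (4 / 5 : ℝ))) →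
    ∀ θ : ℝ, (H : ℝ) ^ (2 : ℝ) ≤ |θ| → |θ| ≤ Real.exp ((log H) ^ (1 + δ)) →
    ∀ p ∈ Om q H, Gd q H G p → ∃ σ : ℝ → ℝ, (∀ n : ℕ, (n : ℝ) ≤ (H : ℝ) ^ (39 / 100 : ℝ) →
      (pol q p.1 p.2.1).eval (p.2.2 + σ n) +
        n * (vv (Nat.sqrt H) p.2.2 + (Nat.sqrt H : ℝ) * (p.2.2 + σ n)) = 0 ∧
      |σ n| ≤ 8 * n / |(derivative (pol q p.1 p.2.1)).eval p.2.2|) ∧
      ‖∑ x ∈ Finset.Icc 1 (ML H), ∑ y ∈ Finset.Icc 1 (ML H),
        e (θ * G.eval (p.2.2 + σ ((x * y : ℕ) : ℝ)))‖ ≤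
        (ML H : ℝ) ^ 2 * Real.exp (-(2 * (log H) ^ (9 / 10 : ℝ))) := by
  obtain ⟨δ, hδ, hδ1, H1, hH1⟩ := core hBR (q + 2) (by omega)
  obtain ⟨H2, hH2⟩ := eventually_atTop.1 (((ev_le ((q + 3).factorial : ℝ) (1 / 1000)
    (by norm_num)).and (logpow (by norm_num : (4 / 5 : ℝ) < 1) 1000)).and (eventually_ge_atTop 2))
  refine ⟨δ, hδ, hδ1, max H1 H2, ?_⟩
  intro H hH G hG2 hGc θ hθ1 hθ2 p hp hgd
  obtain ⟨⟨hfac, hlog⟩, hHge⟩ := hH2 H (le_of_max_le_right hH)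
  have hHR : (2 : ℝ) ≤ H := by exact_mod_cast hHge
  have hHp : (0 : ℝ) < H := by linarith
  have hH1R : (1 : ℝ) ≤ H := by linarith
  have hadd : ∀ x y : ℝ, (H : ℝ) ^ x * (H : ℝ) ^ y = (H : ℝ) ^ (x + y) :=
    fun x y => (Real.rpow_add hHp x y).symm
  have hmono : ∀ x y : ℝ, x ≤ y → (H : ℝ) ^ x ≤ (H : ℝ) ^ y := fun x y hxy =>
    Real.rpow_le_rpow_of_exponent_le hH1R hxy
  rw [Real.rpow_one] at hlog
  have hexp : Real.exp ((log H) ^ (4 / 5 : ℝ)) ≤ (H : ℝ) ^ (1 / 1000 : ℝ) := by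
    rw [Real.rpow_def_of_pos hHp]
    apply Real.exp_le_exp.2
    linarith
  obtain ⟨hp1, hp2, hp3, hp4⟩ := mem_Om.1 hp
  set P : ℝ[X] := pol q p.1 p.2.1 with hP
  have hPd : P.natDegree ≤ q + 2 := pol_natDegree_le _ _ _
  have hPc : ∀ i, 1 ≤ i → |P.coeff i| ≤ (H : ℝ) := fun i _ => by
    rw [hP]
    refine pol_coeff_abs q p.1 p.2.1 hHp.le (fun j => ?_) ?_ i
    · exact_mod_cast hp1 j
    · exact_mod_cast hp2
  obtain ⟨x, hx⟩ : ∃ x : ℝ, x = p.2.2 := ⟨_, rfl⟩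
  rw [← hx] at hp4 ⊢
  have hsz := hgd.size
  have hder := hgd.der
  have hderG := hgd.derG
  rw [← hx] at hsz hder hderG
  set R : ℝ := (H : ℝ) ^ et q with hR
  have hR1 : 1 ≤ R := Real.one_le_rpow hH1R (et_pos q).le
  have hRq : R ^ (q + 2) ≤ (H : ℝ) ^ (1 / 1000 : ℝ) := by
    rw [hR, ← Real.rpow_natCast, ← Real.rpow_mul hHp.le]
    apply hmono
    push_cast
    exact et_mul q
  have hPk : ∀ k, 1 ≤ k → |(taylor x P).coeff k| ≤ (H : ℝ) ^ (1002 / 1000 : ℝ) := by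
    intro k hk
    refine (one_coeff P x k).trans ((deriv_bound hPd hHp.le hPc hR1 hsz k hk).trans ?_)
    calc ((q + 3).factorial : ℝ) * H * R ^ (q + 2) ≤
        (H : ℝ) ^ (1 / 1000 : ℝ) * (H : ℝ) ^ (1 : ℝ) * (H : ℝ) ^ (1 / 1000 : ℝ) := by
          rw [Real.rpow_one]
          gcongr
      _ = _ := by rw [hadd, hadd]; norm_num
  have hGk : ∀ k, 1 ≤ k → |(taylor x G).coeff k| ≤ (H : ℝ) ^ (3 / 1000 : ℝ) := by
    intro k hk
    refine (one_coeff G x k).trans ((deriv_bound (q := q) (by omega)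
      (Real.exp_pos ((log H) ^ (4 / 5 : ℝ))).le hGc hR1 hsz k hk).trans ?_)
    calc ((q + 3).factorial : ℝ) * Real.exp ((log H) ^ (4 / 5 : ℝ)) * R ^ (q + 2) ≤
        (H : ℝ) ^ (1 / 1000 : ℝ) * (H : ℝ) ^ (1 / 1000 : ℝ) * (H : ℝ) ^ (1 / 1000 : ℝ) := by
          gcongr
      _ = _ := by rw [hadd, hadd]; norm_num
  have hp1' : (taylor x P).coeff 1 = (derivative P).eval x := taylor_coeff_one ..
  have hg1' : (taylor x G).coeff 1 = (derivative G).eval x := taylor_coeff_one ..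
  have hw : (vv (Nat.sqrt H) x : ℝ) + (Nat.sqrt H : ℝ) * x = 1 + Int.fract ((Nat.sqrt H : ℝ) * x) := by
    unfold vv
    push_cast
    rw [Int.fract]
    ring
  have hf1 := Int.fract_nonneg ((Nat.sqrt H : ℝ) * x)
  have hf2 := (Int.fract_lt_one ((Nat.sqrt H : ℝ) * x)).le
  obtain ⟨σ, hσ1, hσ2⟩ := hH1 H (le_of_max_le_left hH) (fun k => (taylor x P).coeff k)
    (fun k => (taylor x G).coeff k) ((derivative P).eval x)
    (1 + Int.fract ((Nat.sqrt H : ℝ) * x)) θ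
    ((hmono _ _ (by linarith [et_le q])).trans hder)
    (by rw [← hp1']; exact hPk 1 le_rfl)
    (fun k hk => hPk k (by rw [Finset.mem_Icc] at hk; omega))
    (by
      rw [hg1']
      exact (hmono _ _ (by linarith [et_le q])).trans hderG)
    (hGk 1 le_rfl) (fun k hk => hGk k (by rw [Finset.mem_Icc] at hk; omega)) (by linarith)
    (by linarith) hθ1 hθ2
  refine ⟨σ, ?_, ?_⟩
  · intro n hn
    obtain ⟨h1, h2⟩ := hσ1 n hn
    refine ⟨?_, h2⟩
    rw [one_taylor (n := q + 2) (by omega) hPd x (σ n), hp4, hp1']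
    linear_combination h1 + (n : ℝ) * hw
  · refine le_trans (le_of_eq ?_) hσ2
    have h1 : ∀ n : ℝ, e (θ * G.eval (x + σ n)) = e (θ * G.eval x) *
        e (θ * ((taylor x G).coeff 1 * σ n +
          ∑ k ∈ Finset.Icc 2 (q + 2), (taylor x G).coeff k * σ n ^ k)) := by
      intro n
      rw [one_taylor (n := q + 2) (by omega) (by omega) x (σ n), mul_add, e_add]
    rw [Finset.sum_congr rfl fun a _ => Finset.sum_congr rfl fun b _ => h1 ((a * b : ℕ) : ℝ),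
      Finset.sum_congr rfl fun a _ => (Finset.mul_sum _ _ _).symm, ← Finset.mul_sum, norm_mul,
      norm_e, one_mul]

end Pool.Agent.N586.AN
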