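import Pool.Agent.N586.AN.Tn3
import Pool.Agent.N586.AN.Pair

/-!
# The bilinear sum of one pair, with bounded constants
-/

set_option autoImplicit false

namespace Pool.Agent.N586.AN

open Finset Real Filter
open Pool.Agent.Y957.VK (TT)
open Pool.Agent.Y933.KD (e norm_e e_add)
open Pool.Agent.N586.RT (Adm ph ph_eq norm_e_sub)

/-- **the bilinear sum of one pair** -/
theorem bil2 (hTN : S_TN2) : ∃ C : ℝ, 0 ≤ C ∧ ∀ (N M : ℕ) (κ A X : ℝ) (g h : ℕ → ℝ), 2 ≤ N → 8 ≤ (N : ℝ) ^ (1 / 5 : ℝ) →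
    2 ≤ κ → 1 ≤ M → (N : ℝ) ^ (19 / 50 : ℝ) ≤ 2 * M → (M : ℝ) ≤ (N : ℝ) ^ (2 / 5 : ℝ) →
    0 < A → (N : ℝ) ≤ X → X ≤ 2 * N → (N : ℝ) ^ κ = 12 * A →
    (∀ k, 1 ≤ k → k ≤ ⌈5 * κ⌉₊ + 5 → A / 2 / X ^ k ≤ |g k| ∧ |g k| ≤ 2 * A / X ^ k) →
    (∀ k, 1 ≤ k → |g k| ≤ 2 * A * (4 / X) ^ k) →
    (∀ n : ℕ, (n : ℝ) ≤ X / 8 → HasSum (fun k => g (k + 1) * (n : ℝ) ^ (k + 1)) (h n)) →
    ‖∑ x ∈ Finset.Icc 1 M, ∑ y ∈ Finset.Icc 1 M, e (h (x * y))‖ ≤
      (M : ℝ) ^ 2 * (C * (N : ℝ) ^ (-(1 / 10 ^ 10 / (1 + κ) ^ 2) : ℝ) +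
        Real.exp (16 * (1 + κ)) * (N : ℝ) ^ (-1 : ℝ)) := by
  obtain ⟨C, hC0, hC⟩ := hTN 24 (by norm_num)
  refine ⟨C, hC0, ?_⟩
  intro N M κ A X g h hN hN8 hκ hM1 hMlo hMhi hA hNX hX2 hκA hg1 hg2 hs
  have hNR : (2 : ℝ) ≤ N := by exact_mod_cast hN
  have hN1 : (1 : ℝ) ≤ N := by linarith
  have hN0 : (0 : ℝ) < N := by linarith
  have hX0 : 0 < X := by linarith
  obtain ⟨r, hr⟩ : ∃ r : ℕ, r = ⌈5 * κ⌉₊ + 5 := ⟨_, rfl⟩
  have hr1 : 5 * κ + 5 ≤ (r : ℝ) := by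
    rw [hr]
    push_cast
    have := Nat.le_ceil (5 * κ)
    linarith
  have hr2 : (r : ℝ) ≤ 5 * κ + 6 := by
    rw [hr]
    push_cast
    have := Nat.ceil_lt_add_one (a := 5 * κ) (by linarith)
    linarith
  rw [← hr] at hg1
  have hadm : Adm 24 N κ r g := by
    intro j hj
    rw [Finset.mem_Icc] at hj
    obtain ⟨h1, h2⟩ := hg1 j hj.1 hj.2
    have hjR : (1 : ℝ) ≤ j := by exact_mod_cast hj.1
    constructor
    · refine le_trans ?_ h1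
      rw [hκA]
      calc 12 * A / (24 * (j : ℝ) ^ 2 * (2 * (N : ℝ)) ^ j) = A / 2 / ((j : ℝ) ^ 2 * (2 * (N : ℝ)) ^ j) := by
            field_simp
            norm_num
        _ ≤ A / 2 / (1 * X ^ j) := by
            apply div_le_div_of_nonneg_left (by positivity) (by positivity)
            have : (1 : ℝ) ≤ (j : ℝ) ^ 2 := one_le_pow₀ hjR
            gcongr
        _ = _ := by rw [one_mul]
    · refine h2.trans ?_
      rw [hκA]
      calc 2 * A / X ^ j ≤ 2 * A / (N : ℝ) ^ j := by gcongr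
        _ = _ := by
            field_simp
            norm_num
  have key := hC N M κ (19 / 50) g hN (by linarith) hM1 (by norm_num) (by norm_num)
    (by linarith) hMlo hMhi (by rw [← hr]; exact hadm)
  rw [← hr] at key
  -- the approximation
  set P : ℝ := (N : ℝ) ^ (-1 : ℝ) with hP
  have hP0 : 0 < P := by positivity
  have hκ1 : (1 : ℝ) ≤ 1 + κ := by linarith
  have happ : ∀ x ∈ Finset.Icc 1 M, ∀ y ∈ Finset.Icc 1 M,
      ‖e (h (x * y)) - ph r g ((x : ℝ) * y)‖ ≤ Real.exp (16 * (1 + κ)) * P := by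
    intro x hx y hy
    rw [Finset.mem_Icc] at hx hy
    have hxM : (x : ℝ) ≤ M := by exact_mod_cast hx.2
    have hyM : (y : ℝ) ≤ M := by exact_mod_cast hy.2
    have hn1 : ((x * y : ℕ) : ℝ) ≤ (N : ℝ) ^ (4 / 5 : ℝ) := by
      push_cast
      calc (x : ℝ) * y ≤ (N : ℝ) ^ (2 / 5 : ℝ) * (N : ℝ) ^ (2 / 5 : ℝ) :=
            mul_le_mul (hxM.trans hMhi) (hyM.trans hMhi) (by positivity) (by positivity)
        _ = _ := by
            rw [← Real.rpow_add hN0]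
            norm_num
    have hNsplit : (N : ℝ) = (N : ℝ) ^ (4 / 5 : ℝ) * (N : ℝ) ^ (1 / 5 : ℝ) := by
      rw [← Real.rpow_add hN0]
      norm_num
    have hn2 : ((x * y : ℕ) : ℝ) ≤ X / 8 := by
      rw [le_div_iff₀ (by norm_num)]
      refine le_trans ?_ hNX
      calc ((x * y : ℕ) : ℝ) * 8 ≤ (N : ℝ) ^ (4 / 5 : ℝ) * (N : ℝ) ^ (1 / 5 : ℝ) := by gcongr
        _ = N := hNsplit.symm
    have hz : 4 * ((x * y : ℕ) : ℝ) / X ≤ 1 / 2 := by
      rw [div_le_iff₀ hX0]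
      linarith
    have hz2 : 4 * ((x * y : ℕ) : ℝ) / X ≤ 4 * (N : ℝ) ^ (-(1 / 5) : ℝ) := by
      calc 4 * ((x * y : ℕ) : ℝ) / X ≤ 4 * (N : ℝ) ^ (4 / 5 : ℝ) / N := by gcongr
        _ = 4 * ((N : ℝ) ^ (4 / 5 : ℝ) / (N : ℝ) ^ (1 : ℝ)) := by rw [Real.rpow_one]; ring
        _ = _ := by
            rw [← Real.rpow_sub hN0]
            norm_num
    have h1 := pair_tail (r := r) hA.le hX0 (Nat.cast_nonneg (x * y)) hz hg2 (hs (x * y) hn2)
    have h2 : ph r g ((x : ℝ) * y) = e (∑ j ∈ Finset.Icc 1 r, g j * ((x * y : ℕ) : ℝ) ^ j) := by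
      rw [ph_eq]
      push_cast
      rfl
    rw [h2]
    refine (norm_e_sub _ _).trans ?_
    have hpi : 2 * π * 4 ≤ 36 := by
      have := Real.pi_le_four
      linarith
    have h3 : (4 * ((x * y : ℕ) : ℝ) / X) ^ (r + 1) ≤
        (4 : ℝ) ^ (r + 1) * ((N : ℝ) ^ (-(1 / 5) : ℝ)) ^ (r + 1) := by
      rw [← mul_pow]
      exact pow_le_pow_left₀ (by positivity) hz2 _
    have h4 : (N : ℝ) ^ κ * ((N : ℝ) ^ (-(1 / 5) : ℝ)) ^ (r + 1) ≤ P := by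
      rw [← Real.rpow_natCast, ← Real.rpow_mul hN0.le, ← Real.rpow_add hN0, hP]
      apply Real.rpow_le_rpow_of_exponent_le hN1
      push_cast
      linarith
    have h5 : (4 : ℝ) ^ (r + 1) ≤ Real.exp (2 * (5 * κ + 7)) := by
      have h6 : (4 : ℝ) ≤ Real.exp 2 := by
        have h7 : (2 : ℝ) ≤ Real.exp 1 := by
          have := Real.add_one_le_exp (1 : ℝ)
          linarith
        calc (4 : ℝ) = 2 * 2 := by norm_num
          _ ≤ Real.exp 1 * Real.exp 1 := by gcongr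
          _ = Real.exp 2 := by rw [← Real.exp_add]; norm_num
      calc (4 : ℝ) ^ (r + 1) ≤ (Real.exp 2) ^ (r + 1) := pow_le_pow_left₀ (by norm_num) h6 _
        _ = Real.exp (((r + 1 : ℕ) : ℝ) * 2) := (Real.exp_nat_mul _ _).symm
        _ ≤ _ := by
            apply Real.exp_le_exp.2
            push_cast
            linarith
    have h6 : (3 : ℝ) ≤ Real.exp 2 := by
      have := Real.add_one_le_exp (2 : ℝ)
      linarith
    calc 2 * π * |h (x * y) - ∑ j ∈ Finset.Icc 1 r, g j * ((x * y : ℕ) : ℝ) ^ j| ≤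
        2 * π * (4 * A * (4 * ((x * y : ℕ) : ℝ) / X) ^ (r + 1)) := by gcongr
      _ = (2 * π * 4) * (A * (4 * ((x * y : ℕ) : ℝ) / X) ^ (r + 1)) := by ring
      _ ≤ 36 * (A * ((4 : ℝ) ^ (r + 1) * ((N : ℝ) ^ (-(1 / 5) : ℝ)) ^ (r + 1))) := by gcongr
      _ = 3 * (4 : ℝ) ^ (r + 1) * ((12 * A) * ((N : ℝ) ^ (-(1 / 5) : ℝ)) ^ (r + 1)) := by ring
      _ = 3 * (4 : ℝ) ^ (r + 1) * ((N : ℝ) ^ κ * ((N : ℝ) ^ (-(1 / 5) : ℝ)) ^ (r + 1)) := by
          rw [hκA]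
      _ ≤ Real.exp 2 * Real.exp (2 * (5 * κ + 7)) * P := by gcongr
      _ ≤ Real.exp (16 * (1 + κ)) * P := by
          rw [← Real.exp_add]
          refine mul_le_mul_of_nonneg_right (Real.exp_le_exp.2 ?_) hP0.le
          linarith
  have hdiff : ‖∑ x ∈ Finset.Icc 1 M, ∑ y ∈ Finset.Icc 1 M, e (h (x * y)) - TT r M g‖ ≤
      (M : ℝ) ^ 2 * (Real.exp (16 * (1 + κ)) * P) := by
    rw [pair_TT, ← Finset.sum_sub_distrib]
    refine (norm_sum_le _ _).trans ?_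
    calc _ ≤ ∑ _x ∈ Finset.Icc 1 M, (M : ℝ) * (Real.exp (16 * (1 + κ)) * P) := by
          refine Finset.sum_le_sum fun x hx => ?_
          rw [← Finset.sum_sub_distrib]
          refine (norm_sum_le _ _).trans ?_
          refine (Finset.sum_le_sum fun y hy => happ x hx y hy).trans (le_of_eq ?_)
          rw [Finset.sum_const, Nat.card_Icc, Nat.add_sub_cancel, nsmul_eq_mul]
      _ = _ := by
          rw [Finset.sum_const, Nat.card_Icc, Nat.add_sub_cancel, nsmul_eq_mul]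
          ring
  have hsum : ‖∑ x ∈ Finset.Icc 1 M, ∑ y ∈ Finset.Icc 1 M, e (h (x * y))‖ ≤
      ‖∑ x ∈ Finset.Icc 1 M, ∑ y ∈ Finset.Icc 1 M, e (h (x * y)) - TT r M g‖ + ‖TT r M g‖ := by
    have := norm_add_le (∑ x ∈ Finset.Icc 1 M, ∑ y ∈ Finset.Icc 1 M, e (h (x * y)) - TT r M g)
      (TT r M g)
    rwa [sub_add_cancel] at this
  refine hsum.trans ((add_le_add hdiff key).trans (le_of_eq ?_))
  ring

end Pool.Agent.N586.AN
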