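import Pool.Agent.N586.AN.Stm

/-!
# AN/T4: the shifts are injective maps of the good pairs (helper415)
-/

set_option autoImplicit false

namespace Pool.Agent.N586.AN

open Finset Polynomial Filter
open Pool.Agent.Y933.KG (pol Om Av mem_Om pol_coeff_zero pol_coeff_succ pol_coeff_big
  pol_natDegree_le pol_coeff_abs deriv_bound)
open Pool.Agent.Y933.KD.VdC (ev_le)

lemma Sh_et (q : ℕ) : 0 < et q ∧ et q ≤ 1 / 3000 ∧ et q * ((q : ℝ) + 3) = 1 / 1000 := by
  have hq : (0 : ℝ) ≤ (q : ℝ) := Nat.cast_nonneg q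
  unfold et
  refine ⟨by positivity, ?_, ?_⟩
  · rw [div_le_div_iff₀ (by positivity) (by norm_num)]
    linarith
  · field_simp

lemma Sh_V (H : ℕ) : ((Nat.sqrt H : ℕ) : ℝ) ≤ (H : ℝ) ^ (1 / 2 : ℝ) := by
  rw [← Real.sqrt_eq_rpow]
  exact Real.nat_sqrt_le_real_sqrt

lemma Sh_vv (V : ℕ) (x : ℝ) : |(vv V x : ℝ)| ≤ 2 + |(V : ℝ) * x| := by
  unfold vv
  have h1 := Int.floor_le ((V : ℝ) * x)
  have h2 := Int.lt_floor_add_one ((V : ℝ) * x)
  have h3 := le_abs_self ((V : ℝ) * x)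
  have h4 := neg_abs_le ((V : ℝ) * x)
  push_cast
  rw [abs_le]
  constructor <;> linarith

/-- the shifted pair -/
noncomputable def Sh_phi (q : ℕ) (V n : ℕ) (σ : Pr q → ℝ) (p : Pr q) : Pr q :=
  ⟨Function.update p.1 0 (p.1 0 + (n * V : ℤ)), p.2.1 + n * vv V p.2.2, p.2.2 + σ p⟩

lemma Sh_pol (q : ℕ) (a : Fin (q + 2) → ℤ) (c m w : ℤ) :
    pol q (Function.update a 0 (a 0 + m)) (c + w) = pol q a c + (C (m : ℝ) * X + C (w : ℝ)) := by
  unfold pol
  have h : ∀ j : Fin (q + 1), Function.update a 0 (a 0 + m) j.succ = a j.succ :=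
    fun j => Function.update_of_ne (Fin.succ_ne_zero j) _ _
  rw [Fin.sum_univ_succ,
    Fin.sum_univ_succ (f := fun i : Fin (q + 2) => C (a i : ℝ) * X ^ ((i : ℕ) + 1))]
  simp only [h, Function.update_self, Fin.val_zero, zero_add, pow_one, Int.cast_add, C_add]
  ring

lemma Sh_mem {q H n : ℕ} {G : ℝ[X]} {σ : Pr q → ℝ} (hH : 1 ≤ H)
    (hb : 3 ≤ (H : ℝ) ^ (1 / 100 : ℝ)) (hn : (n : ℝ) ≤ (H : ℝ) ^ (39 / 100 : ℝ)) {p : Pr q}
    (hp : p ∈ Om q H) (hg : Gd q H G p)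
    (hs : (pol q p.1 p.2.1).eval (p.2.2 + σ p) +
        n * (vv (Nat.sqrt H) p.2.2 + (Nat.sqrt H : ℝ) * (p.2.2 + σ p)) = 0) :
    Sh_phi q (Nat.sqrt H) n σ p ∈ Om q H := by
  obtain ⟨h1, h2, h3, h4⟩ := mem_Om.1 hp
  obtain ⟨he0, he1, he2⟩ := Sh_et q
  have hX : (1 : ℝ) ≤ H := by exact_mod_cast hH
  have hX0 : (0 : ℝ) < H := by linarith
  have hV := Sh_V H
  rw [mem_Om]
  unfold Sh_phi
  dsimp only
  refine ⟨fun i => ?_, ?_, ?_, ?_⟩
  · rcases eq_or_ne i 0 with rfl | hi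
    · rw [Function.update_self]
      have h5 : |((p.1 0 + (n : ℤ) * (Nat.sqrt H : ℤ) : ℤ) : ℝ)| ≤ H := by
        push_cast
        have h6 : (n : ℝ) * (Nat.sqrt H : ℝ) ≤ (H : ℝ) ^ (19 / 20 : ℝ) := by
          calc (n : ℝ) * (Nat.sqrt H : ℝ) ≤ (H : ℝ) ^ (39 / 100 : ℝ) * (H : ℝ) ^ (1 / 2 : ℝ) :=
                mul_le_mul hn hV (by positivity) (by positivity)
            _ = (H : ℝ) ^ (89 / 100 : ℝ) := by
                rw [← Real.rpow_add hX0]; norm_num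
            _ ≤ _ := Real.rpow_le_rpow_of_exponent_le hX (by norm_num)
        have h7 : 0 ≤ (n : ℝ) * (Nat.sqrt H : ℝ) := by positivity
        have h8 := hg.box1
        rw [abs_le] at h8 ⊢
        constructor <;> linarith
      exact_mod_cast h5
    · rw [Function.update_of_ne hi]; exact h1 i
  · have h5 : |((p.2.1 + n * vv (Nat.sqrt H) p.2.2 : ℤ) : ℝ)| ≤ H := by
      push_cast
      have h6 : |(n : ℝ) * (vv (Nat.sqrt H) p.2.2 : ℝ)| ≤ (H : ℝ) ^ (19 / 20 : ℝ) := by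
        have h7 := Sh_vv (Nat.sqrt H) p.2.2
        have h8 : |((Nat.sqrt H : ℕ) : ℝ) * p.2.2| ≤ (H : ℝ) ^ (1 / 2 + et q) := by
          rw [abs_mul, abs_of_nonneg (Nat.cast_nonneg _), Real.rpow_add hX0]
          exact mul_le_mul hV hg.size (abs_nonneg _) (by positivity)
        have h9 : 1 ≤ (H : ℝ) ^ (1 / 2 + et q) := Real.one_le_rpow hX (by linarith)
        have h10 : |(vv (Nat.sqrt H) p.2.2 : ℝ)| ≤
            (H : ℝ) ^ (1 / 100 : ℝ) * (H : ℝ) ^ (1 / 2 + et q) := by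
          nlinarith
        rw [abs_mul, abs_of_nonneg (Nat.cast_nonneg _)]
        calc (n : ℝ) * |(vv (Nat.sqrt H) p.2.2 : ℝ)| ≤ (H : ℝ) ^ (39 / 100 : ℝ) *
              ((H : ℝ) ^ (1 / 100 : ℝ) * (H : ℝ) ^ (1 / 2 + et q)) :=
              mul_le_mul hn h10 (abs_nonneg _) (by positivity)
          _ = (H : ℝ) ^ (39 / 100 + (1 / 100 + (1 / 2 + et q))) := by
              rw [← Real.rpow_add hX0, ← Real.rpow_add hX0]
          _ ≤ _ := Real.rpow_le_rpow_of_exponent_le hX (by linarith)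
      have h8 := hg.box0
      rw [abs_le] at h6 h8 ⊢
      constructor <;> linarith [h6.1, h6.2, h8.1, h8.2]
    exact_mod_cast h5
  · intro h5
    have h6 := pol_coeff_succ q (Function.update p.1 0 (p.1 0 + (n : ℤ) * (Nat.sqrt H : ℤ)))
      (p.2.1 + n * vv (Nat.sqrt H) p.2.2) (Fin.last (q + 1))
    rw [h5, coeff_zero, Function.update_of_ne] at h6
    · exact hg.last (by exact_mod_cast h6.symm)
    · intro h7
      simp [Fin.ext_iff] at h7
  · rw [Sh_pol, eval_add, eval_add, eval_mul, eval_C, eval_C, eval_X]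
    push_cast
    linarith

lemma Sh_rolle {P : ℝ[X]} {x y D L : ℝ} (hxy : x < y) (hx : P.eval x = 0) (hy : P.eval y = 0)
    (hD0 : 0 ≤ D) (hD : ∀ z ∈ Set.Icc x y, |(derivative^[2] P).eval z| ≤ D) (hL : y - x ≤ L) :
    |(derivative P).eval x| ≤ D * L := by
  obtain ⟨ξ, hξ, hξ0⟩ := exists_hasDerivAt_eq_zero (f := fun z => P.eval z)
    (f' := fun z => (derivative P).eval z) hxy P.continuous.continuousOn (by simp only [hx, hy])
    (fun z _ => P.hasDerivAt z)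
  have h1 := (convex_Icc x y).norm_image_sub_le_of_norm_hasDerivWithin_le
    (f := fun z => (derivative P).eval z) (f' := fun z => (derivative^[2] P).eval z) (C := D)
    (fun z _ => by
      have := (derivative P).hasDerivAt z
      exact this.hasDerivWithinAt)
    (fun z hz => by rw [Real.norm_eq_abs]; exact hD z hz)
    (Set.Ioo_subset_Icc_self hξ) (Set.left_mem_Icc.2 hxy.le)
  simp only [hξ0, sub_zero, Real.norm_eq_abs] at h1
  refine h1.trans (mul_le_mul_of_nonneg_left ?_ hD0)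
  rw [abs_of_nonpos (by linarith [hξ.1])]
  linarith [hξ.2]

lemma Sh_inj {q H n : ℕ} {G : ℝ[X]} {σ : Pr q → ℝ} (hH : 1 ≤ H)
    (hb : 64 * ((q + 3).factorial : ℝ) ≤ (H : ℝ) ^ (1 / 100 : ℝ))
    (hn : (n : ℝ) ≤ (H : ℝ) ^ (39 / 100 : ℝ)) {p p' : Pr q} (hp : p ∈ Om q H) (hp' : p' ∈ Om q H)
    (hg : Gd q H G p) (hg' : Gd q H G p')
    (hs : |σ p| ≤ 8 * n / |(derivative (pol q p.1 p.2.1)).eval p.2.2|)
    (hs' : |σ p'| ≤ 8 * n / |(derivative (pol q p'.1 p'.2.1)).eval p'.2.2|)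
    (he : Sh_phi q (Nat.sqrt H) n σ p = Sh_phi q (Nat.sqrt H) n σ p') : p = p' := by
  obtain ⟨he0, he1, he2⟩ := Sh_et q
  have hX : (1 : ℝ) ≤ H := by exact_mod_cast hH
  have hX0 : (0 : ℝ) < H := by linarith
  have hV := Sh_V H
  have hfac : (1 : ℝ) ≤ ((q + 3).factorial : ℝ) := by exact_mod_cast Nat.factorial_pos _
  have key : ∀ r : Pr q, Gd q H G r →
      |σ r| ≤ 8 * n / |(derivative (pol q r.1 r.2.1)).eval r.2.2| →
      |σ r| ≤ 8 * (H : ℝ) ^ (-(61 / 100) + et q) := by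
    intro r hr h1
    refine h1.trans ?_
    have h2 : 0 < (H : ℝ) ^ (1 - et q) := Real.rpow_pos_of_pos hX0 _
    calc 8 * (n : ℝ) / |(derivative (pol q r.1 r.2.1)).eval r.2.2|
        ≤ 8 * (H : ℝ) ^ (39 / 100 : ℝ) / (H : ℝ) ^ (1 - et q) :=
          div_le_div₀ (by positivity) (by linarith) h2 hr.der
      _ = 8 * (H : ℝ) ^ (-(61 / 100) + et q) := by
          rw [mul_div_assoc, ← Real.rpow_sub hX0]
          congr 2
          ring
  have k1 := key p hg hs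
  have k2 := key p' hg' hs'
  obtain ⟨h1, h2, h3, h4⟩ := mem_Om.1 hp
  obtain ⟨h1', h2', h3', h4'⟩ := mem_Om.1 hp'
  obtain ⟨hglast, hgsize, hgder, -, -, -, hgf1, hgf2⟩ := hg
  obtain ⟨hglast', hgsize', hgder', -, -, -, hgf1', hgf2'⟩ := hg'
  obtain ⟨a, c, x⟩ := p
  obtain ⟨a', c', x'⟩ := p'
  simp only [Sh_phi, Sigma.mk.injEq, heq_eq_eq] at he
  obtain ⟨e1, e2, e3⟩ := he
  dsimp only at *
  -- the two roots are close
  have hclose : |x - x'| ≤ 16 * (H : ℝ) ^ (-(61 / 100) + et q) := by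
    rw [abs_le] at k1 k2 ⊢
    constructor <;> linarith [k1.1, k1.2, k2.1, k2.2]
  have hδ : 0 < (H : ℝ) ^ (-(1 / 20) : ℝ) := Real.rpow_pos_of_pos hX0 _
  have hVc : |(Nat.sqrt H : ℝ) * x - (Nat.sqrt H : ℝ) * x'| ≤ (H : ℝ) ^ (-(1 / 20) : ℝ) := by
    rw [← mul_sub, abs_mul, abs_of_nonneg (Nat.cast_nonneg _)]
    calc (Nat.sqrt H : ℝ) * |x - x'| ≤
          (H : ℝ) ^ (1 / 2 : ℝ) * (16 * (H : ℝ) ^ (-(61 / 100) + et q)) :=
          mul_le_mul hV hclose (abs_nonneg _) (by positivity)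
      _ = 16 * ((H : ℝ) ^ (1 / 2 : ℝ) * (H : ℝ) ^ (-(61 / 100) + et q)) := by ring
      _ = 16 * (H : ℝ) ^ (1 / 2 + (-(61 / 100) + et q)) := by rw [← Real.rpow_add hX0]
      _ ≤ (H : ℝ) ^ (1 / 100 : ℝ) * (H : ℝ) ^ (1 / 2 + (-(61 / 100) + et q)) := by
          refine mul_le_mul_of_nonneg_right ?_ (by positivity)
          linarith
      _ = (H : ℝ) ^ (1 / 100 + (1 / 2 + (-(61 / 100) + et q))) := by rw [← Real.rpow_add hX0]
      _ ≤ _ := Real.rpow_le_rpow_of_exponent_le hX (by linarith)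
  have hfl : ⌊(Nat.sqrt H : ℝ) * x⌋ = ⌊(Nat.sqrt H : ℝ) * x'⌋ := by
    have f1 := Int.floor_add_fract ((Nat.sqrt H : ℝ) * x)
    have f2 := Int.floor_add_fract ((Nat.sqrt H : ℝ) * x')
    have f3 := abs_le.1 hVc
    rcases lt_trichotomy ⌊(Nat.sqrt H : ℝ) * x⌋ ⌊(Nat.sqrt H : ℝ) * x'⌋ with hlt | heq | hlt
    · exfalso
      have f4 : (⌊(Nat.sqrt H : ℝ) * x⌋ : ℝ) + 1 ≤ (⌊(Nat.sqrt H : ℝ) * x'⌋ : ℝ) := by
        exact_mod_cast hlt
      linarith [f3.1, f3.2]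
    · exact heq
    · exfalso
      have f4 : (⌊(Nat.sqrt H : ℝ) * x'⌋ : ℝ) + 1 ≤ (⌊(Nat.sqrt H : ℝ) * x⌋ : ℝ) := by
        exact_mod_cast hlt
      linarith [f3.1, f3.2]
  have haa : a = a' := by
    funext i
    rcases eq_or_ne i 0 with rfl | hi
    · have := congrFun e1 0
      rw [Function.update_self, Function.update_self] at this
      linarith
    · have := congrFun e1 i
      rwa [Function.update_of_ne hi, Function.update_of_ne hi] at this
  have hcc : c = c' := by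
    unfold vv at e2
    rw [hfl] at e2
    linarith
  subst haa
  subst hcc
  have hxx : x = x' := by
    by_contra hne
    have hdeg : (pol q a c).natDegree ≤ q + 2 := pol_natDegree_le q a c
    have hR : 1 ≤ (H : ℝ) ^ et q := Real.one_le_rpow hX he0.le
    have hco : ∀ i, 1 ≤ i → |(pol q a c).coeff i| ≤ (H : ℝ) := fun i _ =>
      pol_coeff_abs q a c hX0.le (fun i => by exact_mod_cast h1 i) (by exact_mod_cast h2) i
    have hD : ∀ z : ℝ, |z| ≤ (H : ℝ) ^ et q → |(derivative^[2] (pol q a c)).eval z| ≤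
        ((q + 3).factorial : ℝ) * H * ((H : ℝ) ^ et q) ^ (q + 2) := fun z hz =>
      deriv_bound hdeg hX0.le hco hR hz 2 (by norm_num)
    have hfin : ((q + 3).factorial : ℝ) * H * ((H : ℝ) ^ et q) ^ (q + 2) *
        (16 * (H : ℝ) ^ (-(61 / 100) + et q)) < (H : ℝ) ^ (1 - et q) := by
      have g1 : ((H : ℝ) ^ et q) ^ (q + 2) = (H : ℝ) ^ (et q * ((q : ℝ) + 2)) := by
        rw [← Real.rpow_natCast, ← Real.rpow_mul hX0.le]
        push_cast
        rfl
      have g2 : (H : ℝ) * (H : ℝ) ^ (et q * ((q : ℝ) + 2)) * (H : ℝ) ^ (-(61 / 100) + et q) =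
          (H : ℝ) ^ (391 / 1000 : ℝ) := by
        have g3 : (H : ℝ) * (H : ℝ) ^ (et q * ((q : ℝ) + 2)) =
            (H : ℝ) ^ (1 + et q * ((q : ℝ) + 2)) := by
          rw [Real.rpow_add hX0, Real.rpow_one]
        rw [g3, ← Real.rpow_add hX0]
        congr 1
        linarith
      have g4 : (H : ℝ) ^ (1 / 100 : ℝ) * (H : ℝ) ^ (391 / 1000 : ℝ) ≤ (H : ℝ) ^ (1 - et q) := by
        rw [← Real.rpow_add hX0]
        exact Real.rpow_le_rpow_of_exponent_le hX (by linarith)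
      have g5 : 0 < (H : ℝ) ^ (391 / 1000 : ℝ) := Real.rpow_pos_of_pos hX0 _
      calc ((q + 3).factorial : ℝ) * H * ((H : ℝ) ^ et q) ^ (q + 2) *
            (16 * (H : ℝ) ^ (-(61 / 100) + et q))
          = 16 * ((q + 3).factorial : ℝ) * ((H : ℝ) * (H : ℝ) ^ (et q * ((q : ℝ) + 2)) *
              (H : ℝ) ^ (-(61 / 100) + et q)) := by rw [g1]; ring
        _ = 16 * ((q + 3).factorial : ℝ) * (H : ℝ) ^ (391 / 1000 : ℝ) := by rw [g2]
        _ < 64 * ((q + 3).factorial : ℝ) * (H : ℝ) ^ (391 / 1000 : ℝ) := by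
            refine mul_lt_mul_of_pos_right ?_ g5
            linarith
        _ ≤ (H : ℝ) ^ (1 / 100 : ℝ) * (H : ℝ) ^ (391 / 1000 : ℝ) :=
            mul_le_mul_of_nonneg_right hb g5.le
        _ ≤ _ := g4
    have hD0 : 0 ≤ ((q + 3).factorial : ℝ) * H * ((H : ℝ) ^ et q) ^ (q + 2) := by positivity
    have hcl := abs_le.1 hclose
    have hsx := abs_le.1 hgsize
    have hsx' := abs_le.1 hgsize'
    rcases lt_or_gt_of_ne hne with hlt | hlt
    · have r1 := Sh_rolle (L := 16 * (H : ℝ) ^ (-(61 / 100) + et q)) hlt h4 h4' hD0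
        (fun z hz => hD z (abs_le.2 ⟨by linarith [hz.1], by linarith [hz.2]⟩))
        (by linarith [hcl.1])
      linarith
    · have r1 := Sh_rolle (L := 16 * (H : ℝ) ^ (-(61 / 100) + et q)) hlt h4' h4 hD0
        (fun z hz => hD z (abs_le.2 ⟨by linarith [hz.1], by linarith [hz.2]⟩))
        (by linarith [hcl.2])
      linarith
  rw [hxx]

open Classical in
/-- T4: the shifts are injective maps of the good pairs -/
theorem t_sh : S_SH := by
  intro q
  obtain ⟨H1, hH1⟩ := eventually_atTop.1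
    (ev_le (64 * ((q + 3).factorial : ℝ)) (1 / 100) (by norm_num))
  refine ⟨max H1 1, fun H hH G n σ F hn hF hσ => ?_⟩
  have hH1' : 1 ≤ H := (le_max_right _ _).trans hH
  have hb := hH1 H ((le_max_left _ _).trans hH)
  have hfac : (1 : ℝ) ≤ ((q + 3).factorial : ℝ) := by exact_mod_cast Nat.factorial_pos _
  set A := (Om q H).filter (fun p => Gd q H G p) with hA
  have hmemA : ∀ p ∈ A, p ∈ Om q H ∧ Gd q H G p := fun p hp => Finset.mem_filter.1 hp
  have hmem : ∀ p ∈ A, Sh_phi q (Nat.sqrt H) n σ p ∈ Om q H := fun p hp =>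
    Sh_mem hH1' (by linarith) hn (hmemA p hp).1 (hmemA p hp).2
      (hσ p (hmemA p hp).1 (hmemA p hp).2).1
  have hinj : Set.InjOn (Sh_phi q (Nat.sqrt H) n σ) (A : Set (Pr q)) := by
    intro p hp p' hp' he
    have m1 := hmemA p hp
    have m2 := hmemA p' hp'
    exact Sh_inj hH1' hb hn m1.1 m2.1 m1.2 m2.2 (hσ p m1.1 m1.2).2 (hσ p' m2.1 m2.2).2 he
  have hsum : ∑ p ∈ A, F (p.2.2 + σ p) =
      ∑ p ∈ A.image (Sh_phi q (Nat.sqrt H) n σ), F p.2.2 := by
    rw [Finset.sum_image hinj]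
    rfl
  have hsub : A.image (Sh_phi q (Nat.sqrt H) n σ) ⊆ Om q H := by
    intro p hp
    obtain ⟨p0, hp0, rfl⟩ := Finset.mem_image.1 hp
    exact hmem p0 hp0
  have hcard : ((Om q H \ A.image (Sh_phi q (Nat.sqrt H) n σ)).card) =
      {p ∈ (Om q H : Set (Pr q)) | ¬ Gd q H G p}.ncard := by
    have e1 : {p ∈ (Om q H : Set (Pr q)) | ¬ Gd q H G p} =
        (((Om q H).filter (fun p => ¬ Gd q H G p) : Finset (Pr q)) : Set (Pr q)) := by
      ext p
      simp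
    rw [e1, Set.ncard_coe_finset, Finset.card_sdiff_of_subset hsub, Finset.card_image_of_injOn hinj]
    have e2 : ((Om q H).filter (fun p => Gd q H G p)).card +
        ((Om q H).filter (fun p => ¬ Gd q H G p)).card = (Om q H).card := by
      convert Finset.card_filter_add_card_filter_not (s := Om q H) (fun p => Gd q H G p)
    rw [← hA] at e2
    omega
  have e3 := Finset.sum_sdiff (f := fun p : Pr q => F p.2.2) hsub
  rw [hsum, ← e3, add_sub_cancel_right]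
  refine (norm_sum_le _ _).trans ?_
  rw [← hcard]
  calc ∑ p ∈ Om q H \ A.image (Sh_phi q (Nat.sqrt H) n σ), ‖F p.2.2‖
      ≤ ∑ _p ∈ Om q H \ A.image (Sh_phi q (Nat.sqrt H) n σ), (1 : ℝ) :=
        Finset.sum_le_sum fun p _ => hF p.2.2
    _ = _ := by rw [Finset.sum_const, nsmul_eq_mul, mul_one]

end Pool.Agent.N586.AN
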