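import Pool.Agent.N586.RT.Fin2
import Pool.Agent.Y933.KG.Cnt2
import Pool.Agent.Y933.KG.AlgHat

/-!
# Project AN: almost all real algebraic numbers of degree `d` are normal up to
`(log H) ^ (1 + δ)` digits. Statements.

Idea: the exponential sum over all pairs (polynomial of height `H`, real root `x`) is compared with
the sums over the lines `P + n (v + V X)`, `V = √H`, `n ≤ H ^ (39 / 100)`, where the integer `v` is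
chosen such that `1 ≤ v + V x < 2`. Along the line the root moves nearly like
`x - n w / (P'(x) + n V)`, so all Taylor coefficients in `n` have the right size, and Vinogradov's
mean value theorem applies.
-/

set_option autoImplicit false

namespace Pool.Agent.N586.AN

open Finset Polynomial Filter
open Pool.Agent.Y933.KG (pol Om Av Alg)
open Pool.Agent.Y933.KD (e)
open Pool.Agent.Y957.VK (TT)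
open Pool.Agent.N586.RT (Adm Nw)

/-- pairs of a polynomial (coefficients, constant coefficient) and a real number -/
abbrev Pr (q : ℕ) := Σ _ : (Fin (q + 2) → ℤ), Σ _ : ℤ, ℝ

/-- the exponent `1 / (1000 (q + 3))` -/
noncomputable def et (q : ℕ) : ℝ := 1 / (1000 * ((q : ℝ) + 3))

/-- the good pairs -/
structure Gd (q H : ℕ) (G : ℝ[X]) (p : Pr q) : Prop where
  last : p.1 (Fin.last (q + 1)) ≠ 0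
  size : |p.2.2| ≤ (H : ℝ) ^ et q
  der : (H : ℝ) ^ (1 - et q) ≤ |(derivative (pol q p.1 p.2.1)).eval p.2.2|
  derG : (H : ℝ) ^ (-et q) ≤ |(derivative G).eval p.2.2|
  box1 : |(p.1 0 : ℝ)| ≤ H - (H : ℝ) ^ (19 / 20 : ℝ)
  box0 : |(p.2.1 : ℝ)| ≤ H - (H : ℝ) ^ (19 / 20 : ℝ)
  fr1 : (H : ℝ) ^ (-(1 / 20) : ℝ) ≤ Int.fract ((Nat.sqrt H : ℝ) * p.2.2)
  fr2 : Int.fract ((Nat.sqrt H : ℝ) * p.2.2) ≤ 1 - (H : ℝ) ^ (-(1 / 20) : ℝ)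

/-- the integer `v` with `1 ≤ v + V x < 2` -/
noncomputable def vv (V : ℕ) (x : ℝ) : ℤ := 1 - ⌊(V : ℝ) * x⌋

/-- T1: the bilinear sums of `N586.RT.tn` with a free length `M` -/
def S_TN : Prop := ∀ D : ℝ, 1 ≤ D → ∃ C : ℕ, ∀ (N M : ℕ) (κ : ℝ) (a : ℕ → ℝ), 2 ≤ N → 2 ≤ κ →
    1 ≤ M → (N : ℝ) ^ (19 / 50 : ℝ) ≤ M → (M : ℝ) ≤ (N : ℝ) ^ (2 / 5 : ℝ) →
    Adm D N κ (⌈5 * κ⌉₊ + 5) a →
    ‖TT (⌈5 * κ⌉₊ + 5) M a‖ ≤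
      Real.exp (C * (1 + κ) ^ C) * (M : ℝ) ^ 2 * (N : ℝ) ^ (-(1 / 10 ^ 10 / (1 + κ) ^ 2) : ℝ)

/-- T2: the branch `σ` of the root `s` of `p₁ s + t₂ s² + ⋯ + t_D s ^ D + y (w₀ + V s) = 0`, and the
Taylor coefficients of `γ₁ σ + γ₂ σ² + ⋯ + γ_D σ ^ D` -/
def S_BR : Prop := ∀ (D : ℕ) (t γ : ℕ → ℝ) (p₁ V w₀ T Γ : ℝ), p₁ ≠ 0 → 4 ≤ V → 1 ≤ w₀ → w₀ ≤ 2 →
    0 ≤ T → 0 ≤ Γ → (∀ k ∈ Finset.Icc 2 D, |t k| ≤ T) → (∀ k ∈ Finset.Icc 2 D, |γ k| ≤ Γ) →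
    64 * ((D : ℝ) + 1) ^ 2 * T ≤ V * |p₁| →
    ∃ (σ : ℝ → ℝ) (g : ℕ → ℝ),
      (∀ y, |y| ≤ |p₁| / (8 * V) →
        p₁ * σ y + ∑ k ∈ Finset.Icc 2 D, t k * σ y ^ k + y * (w₀ + V * σ y) = 0 ∧
        |σ y| ≤ 8 * |y| / |p₁| ∧
        HasSum (fun k => g (k + 1) * y ^ (k + 1))
          (γ 1 * σ y + ∑ k ∈ Finset.Icc 2 D, γ k * σ y ^ k)) ∧
      ∀ k, 1 ≤ k → |g k - γ 1 * ((-1) ^ k * w₀ * V ^ (k - 1) / p₁ ^ k)| ≤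
        (32 * D * T * |γ 1| / |p₁| + 16 * D * Γ) / V ^ 2 * (4 * V / |p₁|) ^ k

/-- T3: nearly all pairs are good -/
def S_CNT : Prop := ∀ q : ℕ, ∃ κ : ℝ, 0 < κ ∧ ∃ ρ : ℝ, 0 < ρ ∧ ∃ H0 : ℕ, ∀ H : ℕ, H0 ≤ H →
    ∀ G : ℝ[X], 1 ≤ G.natDegree → G.natDegree ≤ q + 1 →
    (∀ i, 1 ≤ i → |G.coeff i| ≤ (H : ℝ) ^ κ) → (H : ℝ) ^ (-κ) ≤ |G.leadingCoeff| →
    (({p ∈ (Om q H : Set (Pr q)) | ¬ Gd q H G p}.ncard : ℕ) : ℝ) ≤ (H : ℝ) ^ ((q : ℝ) + 3 - ρ)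

open Classical in
/-- T4: the shifts are injective maps of the good pairs -/
def S_SH : Prop := ∀ q : ℕ, ∃ H0 : ℕ, ∀ H : ℕ, H0 ≤ H → ∀ (G : ℝ[X]) (n : ℕ) (σ : Pr q → ℝ)
    (F : ℝ → ℂ), (n : ℝ) ≤ (H : ℝ) ^ (39 / 100 : ℝ) → (∀ x, ‖F x‖ ≤ 1) →
    (∀ p ∈ Om q H, Gd q H G p →
      (pol q p.1 p.2.1).eval (p.2.2 + σ p) +
        n * (vv (Nat.sqrt H) p.2.2 + (Nat.sqrt H : ℝ) * (p.2.2 + σ p)) = 0 ∧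
      |σ p| ≤ 8 * n / |(derivative (pol q p.1 p.2.1)).eval p.2.2|) →
    ‖∑ p ∈ Om q H, F p.2.2 - ∑ p ∈ (Om q H).filter (fun p => Gd q H G p), F (p.2.2 + σ p)‖ ≤
      (({p ∈ (Om q H : Set (Pr q)) | ¬ Gd q H G p}.ncard : ℕ) : ℝ)

/-- T5: the exponential sums over all pairs -/
def S_TOT : Prop := ∀ q : ℕ, ∃ δ : ℝ, 0 < δ ∧ δ ≤ 1 / 2 ∧ ∀ δ₀ : ℝ, 0 < δ₀ → ∃ H0 : ℕ, ∀ H : ℕ,
    H0 ≤ H → ∀ G : ℝ[X], 1 ≤ G.natDegree → G.natDegree ≤ q + 1 →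
    (∀ i, 1 ≤ i → |G.coeff i| ≤ Real.exp ((Real.log H) ^ (4 / 5 : ℝ))) →
    Real.exp (-(Real.log H) ^ (4 / 5 : ℝ)) ≤ |G.leadingCoeff| →
    ∀ θ : ℝ, (H : ℝ) ^ δ₀ ≤ |θ| → |θ| ≤ Real.exp ((Real.log H) ^ (1 + δ)) →
    ‖∑ p ∈ Om q H, e (θ * G.eval p.2.2)‖ ≤
      ((Om q H).card : ℝ) * Real.exp (-(Real.log H) ^ (9 / 10 : ℝ))

open Classical in
/-- T6: nearly all pairs are normal -/
def S_NRM : Prop := ∀ q : ℕ, ∃ δ : ℝ, 0 < δ ∧ ∀ (B w : ℕ) (ε : ℝ), 0 < ε → ∃ H0 : ℕ, ∀ H : ℕ,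
    H0 ≤ H →
    (((Om q H).filter (fun p => ¬ ∀ (f : ℤ[X]) (m : ℕ), 1 ≤ f.natDegree → f.natDegree < q + 2 →
      (∀ i, |(f.coeff i : ℝ)| ≤ Real.exp ((Real.log H) ^ (4 / 5 : ℝ))) → 1 ≤ m →
      (m : ℝ) ≤ Real.exp ((Real.log H) ^ (4 / 5 : ℝ)) →
      Nw B w ((Real.log H) ^ (1 + δ)) ε (ε * Real.log H) (aeval p.2.2 f / m))).card : ℝ) ≤
      (H : ℝ) ^ (q + 3) * Real.exp (-(2 * (Real.log H) ^ (4 / 5 : ℝ)))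

/-- T7: the number of real algebraic numbers of degree `q + 2` and height at most `H` -/
def S_ALG : Prop := ∀ q : ℕ, ∃ C : ℝ, 0 < C ∧ ∃ H0 : ℕ, ∀ H : ℕ, H0 ≤ H →
    (H : ℝ) ^ (q + 3) ≤ C * Real.log H * ((Alg (q + 2) H).ncard : ℝ)

/-- T8: the exponential sums over the algebraic numbers -/
def S_AH : Prop := ∀ q : ℕ, ∃ δ : ℝ, 0 < δ ∧ δ ≤ 1 / 2 ∧ ∀ δ₀ : ℝ, 0 < δ₀ → ∃ H0 : ℕ, ∀ H : ℕ,
    H0 ≤ H → ∀ G : ℝ[X], 1 ≤ G.natDegree → G.natDegree ≤ q + 1 →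
    (∀ i, 1 ≤ i → |G.coeff i| ≤ Real.exp ((Real.log H) ^ (3 / 4 : ℝ))) →
    Real.exp (-(Real.log H) ^ (3 / 4 : ℝ)) ≤ |G.leadingCoeff| →
    ∀ θ : ℝ, (H : ℝ) ^ δ₀ ≤ |θ| → |θ| ≤ Real.exp ((Real.log H) ^ (1 + δ)) →
    ∀ s : Finset ℝ, (∀ x, x ∈ s ↔ x ∈ Alg (q + 2) H) →
    ‖∑ x ∈ s, e (θ * G.eval x)‖ ≤ (s.card : ℝ) * Real.exp (-(Real.log H) ^ (4 / 5 : ℝ))

end Pool.Agent.N586.AN
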