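import Pool.Agent.N586.AN.Stm

/-!
# Project AN, second part: the full range of Vinogradov's method. Statements.

All theorems of the first part with explicit exponents: `(log H) ^ (1 + δ)` digits, heights
`exp ((log H) ^ β)` and savings `exp (-(log H) ^ β)` for all `δ, β > 0` with `2 δ + β < 1`.
-/

set_option autoImplicit false

namespace Pool.Agent.N586.AN

open Finset Polynomial Filter
open Pool.Agent.Y933.KG (pol Om Av Alg)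
open Pool.Agent.Y933.KD (e)
open Pool.Agent.Y957.VK (TT J)
open Pool.Agent.N586.RT (Adm Nw)

/-- U1: Vinogradov's mean value theorem with good constants -/
def S_VM : Prop := ∃ C : ℝ, 0 ≤ C ∧ ∀ r m X : ℕ, 2 ≤ r → 1 ≤ X →
  (J (r ^ 2 + r * m) r X : ℝ) ≤ Real.exp (C * ((r : ℝ) + m) ^ 4) *
    (X : ℝ) ^ (2 * ((r : ℝ) ^ 2 + r * m) - r * (r + 1) / 2 + r * (r + 1) / 2 * (1 - 1 / (r : ℝ)) ^ m : ℝ)

/-- U2: the bilinear sums with bounded constants -/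
def S_TN2 : Prop := ∀ D : ℝ, 1 ≤ D → ∃ C : ℝ, 0 ≤ C ∧ ∀ (N M : ℕ) (κ μ : ℝ) (a : ℕ → ℝ), 2 ≤ N →
    1 / 2 ≤ κ → 1 ≤ M → 1 / 10 ≤ μ → μ ≤ 2 / 5 → (1 - 2 * μ) * (3 * κ + 1 / 2) ≤ 4 / 5 * κ →
    (N : ℝ) ^ μ ≤ 2 * M → (M : ℝ) ≤ (N : ℝ) ^ (2 / 5 : ℝ) → Adm D N κ (⌈5 * κ⌉₊ + 5) a →
    ‖TT (⌈5 * κ⌉₊ + 5) M a‖ ≤
      C * (M : ℝ) ^ 2 * (N : ℝ) ^ (-(1 / 10 ^ 10 / (1 + κ) ^ 2) : ℝ)

/-- U5: the exponential sums over all pairs -/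
def S_TOT2 : Prop := ∀ (q : ℕ) (δ β : ℝ), 0 < δ → 0 < β → 2 * δ + β < 1 → ∀ δ₀ : ℝ, 0 < δ₀ →
    ∃ H0 : ℕ, ∀ H : ℕ, H0 ≤ H → ∀ G : ℝ[X], 1 ≤ G.natDegree → G.natDegree ≤ q + 1 →
    (∀ i, 1 ≤ i → |G.coeff i| ≤ Real.exp ((Real.log H) ^ β)) →
    Real.exp (-(Real.log H) ^ β) ≤ |G.leadingCoeff| →
    ∀ θ : ℝ, (H : ℝ) ^ δ₀ ≤ |θ| → |θ| ≤ Real.exp ((Real.log H) ^ (1 + δ)) →
    ‖∑ p ∈ Om q H, e (θ * G.eval p.2.2)‖ ≤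
      ((Om q H).card : ℝ) * Real.exp (-(Real.log H) ^ β)

open Classical in
/-- U6: nearly all pairs are normal -/
def S_NRM2 : Prop := ∀ (q : ℕ) (δ β : ℝ), 0 < δ → 0 < β → 2 * δ + β < 1 →
    ∀ (B w : ℕ) (ε : ℝ), 0 < ε → ∃ H0 : ℕ, ∀ H : ℕ, H0 ≤ H →
    (((Om q H).filter (fun p => ¬ ∀ (f : ℤ[X]) (m : ℕ), 1 ≤ f.natDegree → f.natDegree < q + 2 →
      (∀ i, |(f.coeff i : ℝ)| ≤ Real.exp ((Real.log H) ^ β)) → 1 ≤ m →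
      (m : ℝ) ≤ Real.exp ((Real.log H) ^ β) →
      Nw B w ((Real.log H) ^ (1 + δ)) ε (ε * Real.log H) (aeval p.2.2 f / m))).card : ℝ) ≤
      (H : ℝ) ^ (q + 3) * Real.exp (-(2 * (Real.log H) ^ β))

/-- U8: the exponential sums over the algebraic numbers -/
def S_AH2 : Prop := ∀ (q : ℕ) (δ β : ℝ), 0 < δ → 0 < β → 2 * δ + β < 1 → ∀ δ₀ : ℝ, 0 < δ₀ →
    ∃ H0 : ℕ, ∀ H : ℕ, H0 ≤ H → ∀ G : ℝ[X], 1 ≤ G.natDegree → G.natDegree ≤ q + 1 →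
    (∀ i, 1 ≤ i → |G.coeff i| ≤ Real.exp ((Real.log H) ^ β)) →
    Real.exp (-(Real.log H) ^ β) ≤ |G.leadingCoeff| →
    ∀ θ : ℝ, (H : ℝ) ^ δ₀ ≤ |θ| → |θ| ≤ Real.exp ((Real.log H) ^ (1 + δ)) →
    ∀ s : Finset ℝ, (∀ x, x ∈ s ↔ x ∈ Alg (q + 2) H) →
    ‖∑ x ∈ s, e (θ * G.eval x)‖ ≤ (s.card : ℝ) * Real.exp (-(Real.log H) ^ β)

/-- `1 ≤ deg f < q + 2`, and `m ≥ 1` and the coefficients of the integral polynomial `f` are at most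
`exp ((log H) ^ β)` -/
def Sml (q : ℕ) (β : ℝ) (H : ℕ) (f : ℤ[X]) (m : ℕ) : Prop :=
  1 ≤ f.natDegree ∧ f.natDegree < q + 2 ∧
    (∀ i, |(f.coeff i : ℝ)| ≤ Real.exp ((Real.log H) ^ β)) ∧ 1 ≤ m ∧
    (m : ℝ) ≤ Real.exp ((Real.log H) ^ β)

/-- U9: the central limit theorem for the digits of the elements of the fields generated by the
algebraic numbers of degree `q + 2` and height at most `H` -/
def S_CLT : Prop := ∀ (q : ℕ) (δ β c₀ : ℝ), 0 < δ → 0 < β → 2 * δ + β < 1 → 0 < c₀ →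
    ∀ (b w : ℕ) (F : ℕ → ℝ), 2 ≤ b → 1 ≤ w →
    0 < Pool.Agent.Y933.KD.cv b w F 0 + 2 * ∑ h ∈ Finset.Ico 1 w, Pool.Agent.Y933.KD.cv b w F h →
    ∀ (f : ℕ → ℤ[X]) (m s N : ℕ → ℕ), (∀ᶠ H : ℕ in atTop, Sml q β H (f H) (m H)) →
    Tendsto N atTop atTop → (∀ᶠ H : ℕ in atTop, c₀ * Real.log H ≤ s H) →
    (∀ᶠ H : ℕ in atTop, (s H : ℝ) + N H ≤ (Real.log H) ^ (1 + δ)) → ∀ a : ℝ,
    Tendsto (fun H : ℕ => (({x ∈ Alg (q + 2) H | ∑ i ∈ Finset.range (N H),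
        F (Pool.Agent.Y933.KD.wd b w (s H + i) (aeval x (f H) / (m H : ℝ))) -
        N H * Pool.Agent.Y933.KD.mn b w F ≤
        a * √((Pool.Agent.Y933.KD.cv b w F 0 +
          2 * ∑ h ∈ Finset.Ico 1 w, Pool.Agent.Y933.KD.cv b w F h) * N H)}.ncard : ℕ) : ℝ) /
        ((Alg (q + 2) H).ncard : ℝ)) atTop
      (nhds ((ProbabilityTheory.gaussianReal 0 1).real (Set.Iic a)))

end Pool.Agent.N586.AN
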