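import Pool.Agent.N586.AN.Tw3
import Pool.Agent.Y70.VK.Tn

/-!
# The bilinear sums with general admissible coefficients, a free length and bounded constants

This follows `Pool.Agent.N586.AN.Tn2` and `Pool.Agent.Y70.VK.Tn`.
-/

set_option autoImplicit false

namespace Pool.Agent.N586.AN

open Finset Pool.Agent.Y957.VK Pool.Agent.Y70.VK Pool.Agent.N586.RT

/-- the inequality between the logarithms, with bounded constants -/
theorem final' {κ L l r η g A0 A1 y K : ℝ} (hκ : 1 / 2 ≤ κ) (hL : 0 ≤ L) (hl : 0 ≤ l)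
    (hlL : l ≤ 2 / 5 * L) (hr : 5 * κ + 5 ≤ r) (hr' : r ≤ 5 * κ + 6)
    (hη : η ≤ r * (r + 1) / 2 / 2937) (hg : κ / 2 ≤ g) (hA0 : 0 ≤ A0) (hA1 : 0 ≤ A1)
    (hK : 2 * A1 + r * A0 + 1700 * r ≤ 4 * (9 * r ^ 2) ^ 2 * K)
    (H : 4 * (9 * r ^ 2) ^ 2 * y ≤ (8 * (9 * r ^ 2) ^ 2 - 4 * (9 * r ^ 2)) * l +
      2 * (A1 + (2 * (r ^ 2 + r * (8 * r)) - r * (r + 1) / 2 + η) * l) +
      (r * (r + 1) * l + r * A0 + r * Real.log (1 + L) - g * (κ / 5 * L))) :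
    y ≤ 2 * l + K - 1 / 10 ^ 10 / (1 + κ) ^ 2 * L := by
  have hκ0 : 0 < κ := by linarith
  have hr0 : 0 < r := by linarith
  have hr17 : r ≤ 17 * κ := by linarith
  have hr19 : r + 1 ≤ 19 * κ := by linarith
  have h1 := log_one_add hκ hL hr0 hr17
  have hrr : r * (r + 1) ≤ 323 * κ ^ 2 := by
    calc r * (r + 1) ≤ (17 * κ) * (19 * κ) := by gcongr
      _ = 323 * κ ^ 2 := by ring
  have h2 : 2 * η * l ≤ 0.044 * κ ^ 2 * L := by
    have h3 : 2 * η ≤ 323 * κ ^ 2 / 2937 := by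
      calc 2 * η ≤ r * (r + 1) / 2937 := by linarith
        _ ≤ 323 * κ ^ 2 / 2937 := by gcongr
    calc 2 * η * l ≤ 323 * κ ^ 2 / 2937 * l := by gcongr
      _ ≤ 323 * κ ^ 2 / 2937 * (2 / 5 * L) := by gcongr
      _ = (323 * 2 / (2937 * 5)) * (κ ^ 2 * L) := by ring
      _ ≤ 0.044 * (κ ^ 2 * L) := by
          refine mul_le_mul_of_nonneg_right (by norm_num) (by positivity)
      _ = 0.044 * κ ^ 2 * L := by ring
  have h3 : κ ^ 2 / 10 * L ≤ g * (κ / 5 * L) := by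
    calc κ ^ 2 / 10 * L = κ / 2 * (κ / 5 * L) := by ring
      _ ≤ g * (κ / 5 * L) := by gcongr
  have h4 : 4 * (9 * r ^ 2) ^ 2 * y ≤ 8 * (9 * r ^ 2) ^ 2 * l + (2 * A1 + r * A0 + 1700 * r) -
      0.036 * κ ^ 2 * L := by
    nlinarith
  have hs1 : (1 : ℝ) ≤ 4 * (9 * r ^ 2) ^ 2 := by
    have h5 : (1 : ℝ) ≤ r := by linarith
    have h6 : (1 : ℝ) ≤ r ^ 2 := one_le_pow₀ h5
    nlinarith
  have h5 : 4 * (9 * r ^ 2) ^ 2 * (1 / 10 ^ 10 / (1 + κ) ^ 2) ≤ 0.036 * κ ^ 2 := by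
    have h6 : r ^ 2 ≤ 289 * κ ^ 2 := by
      calc r ^ 2 ≤ (17 * κ) ^ 2 := by gcongr
        _ = 289 * κ ^ 2 := by ring
    have h7 : (9 * r ^ 2) ^ 2 ≤ (2601 * κ ^ 2) ^ 2 := by
      apply pow_le_pow_left₀ (by positivity)
      linarith
    have h8 : κ ^ 2 ≤ (1 + κ) ^ 2 := by gcongr; linarith
    have h9 : (0 : ℝ) < (1 + κ) ^ 2 := by positivity
    rw [div_div, ← mul_div_assoc, div_le_iff₀ (by positivity)]
    calc 4 * (9 * r ^ 2) ^ 2 * 1 ≤ 4 * (2601 * κ ^ 2) ^ 2 := by linarith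
      _ = 27060804 * (κ ^ 2 * κ ^ 2) := by ring
      _ ≤ (0.036 * 10 ^ 10) * (κ ^ 2 * (1 + κ) ^ 2) := by
          have h10 : κ ^ 2 * κ ^ 2 ≤ κ ^ 2 * (1 + κ) ^ 2 := by gcongr
          have h11 : 0 ≤ κ ^ 2 * κ ^ 2 := by positivity
          nlinarith
      _ = 0.036 * κ ^ 2 * (10 ^ 10 * (1 + κ) ^ 2) := by ring
  refine le_of_mul_le_mul_left ?_ (lt_of_lt_of_le one_pos hs1)
  have h6 : 4 * (9 * r ^ 2) ^ 2 * (1 / 10 ^ 10 / (1 + κ) ^ 2) * L ≤ 0.036 * κ ^ 2 * L := by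
    gcongr
  calc 4 * (9 * r ^ 2) ^ 2 * y ≤ 8 * (9 * r ^ 2) ^ 2 * l + 4 * (9 * r ^ 2) ^ 2 * K -
        4 * (9 * r ^ 2) ^ 2 * (1 / 10 ^ 10 / (1 + κ) ^ 2) * L := by linarith
    _ = 4 * (9 * r ^ 2) ^ 2 * (2 * l + K - 1 / 10 ^ 10 / (1 + κ) ^ 2 * L) := by ring

theorem consts' {κ r C0 C1 : ℝ} (hC0 : 0 ≤ C0) (hC1 : 0 ≤ C1) (hκ : 1 / 2 ≤ κ)
    (hr : 5 * κ + 5 ≤ r) :
    2 * (C1 * (r + 8 * r) ^ 4) + r * (C0 * (1 + κ)) + 1700 * r ≤
      4 * (9 * r ^ 2) ^ 2 * (41 * C1 + C0 + 6) := by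
  have hr1 : 1 ≤ r := by linarith
  have hr0 : 0 ≤ r := by linarith
  have h1 : (1 + κ) ≤ r := by linarith
  have h3 : r ≤ r ^ 4 := le_self_pow₀ hr1 (by norm_num)
  have h2 : r * (C0 * (1 + κ)) ≤ C0 * r ^ 4 := by
    calc r * (C0 * (1 + κ)) ≤ r * (C0 * r) := by gcongr
      _ = C0 * r ^ 2 := by ring
      _ ≤ C0 * r ^ 4 := by
          refine mul_le_mul_of_nonneg_left ?_ hC0
          exact pow_le_pow_right₀ hr1 (by norm_num)
  have h4 : 0 ≤ C1 * r ^ 4 := by positivity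
  have h5 : 0 ≤ C0 * r ^ 4 := by positivity
  calc 2 * (C1 * (r + 8 * r) ^ 4) + r * (C0 * (1 + κ)) + 1700 * r
      ≤ 2 * (C1 * (r + 8 * r) ^ 4) + C0 * r ^ 4 + 1700 * r ^ 4 := by linarith
    _ = 13122 * (C1 * r ^ 4) + C0 * r ^ 4 + 1700 * r ^ 4 := by ring
    _ ≤ 13284 * (C1 * r ^ 4) + 324 * (C0 * r ^ 4) + 1944 * r ^ 4 := by
        have : 0 ≤ r ^ 4 := by positivity
        linarith
    _ = 4 * (9 * r ^ 2) ^ 2 * (41 * C1 + C0 + 6) := by ring

theorem t_tn2 (hvm : S_VM) : S_TN2 := by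
  intro D hD
  obtain ⟨C1, hC1, hV⟩ := hvm
  obtain ⟨C0, hC0, hW⟩ := tw3 Pool.Agent.Y331.VK.wb D hD
  have h2 := dbl_all
  refine ⟨Real.exp (41 * C1 + C0 + 6), (Real.exp_pos _).le, ?_⟩
  intro N M κ μ a hN hκ hM1 hμ1 hμ2 hμ3 hMlo hMle hadm
  obtain ⟨r, hr⟩ : ∃ r : ℕ, r = ⌈5 * κ⌉₊ + 5 := ⟨_, rfl⟩
  rw [← hr]
  rw [← hr] at hadm
  have hκ0 : 0 < κ := by linarith
  have hNr : (2 : ℝ) ≤ N := by exact_mod_cast hN
  have hN0 : (0 : ℝ) < N := by linarith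
  have hr1 : 5 * κ + 5 ≤ (r : ℝ) := by
    rw [hr]
    push_cast
    have := Nat.le_ceil (5 * κ)
    linarith
  have hr2 : (r : ℝ) ≤ 5 * κ + 6 := by
    rw [hr]
    push_cast
    have := Nat.ceil_lt_add_one (a := 5 * κ) (by linarith)
    linarith
  have hr17 : (r : ℝ) ≤ 17 * κ := by linarith
  have hr0 : (0 : ℝ) ≤ r := Nat.cast_nonneg _
  have hrN : 2 ≤ r := by omega
  have hM1r : (1 : ℝ) ≤ M := by exact_mod_cast hM1
  obtain ⟨L, hL⟩ : ∃ L : ℝ, L = Real.log N := ⟨_, rfl⟩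
  obtain ⟨l, hl⟩ : ∃ l : ℝ, l = Real.log M := ⟨_, rfl⟩
  have hL0 : 0 ≤ L := by rw [hL]; exact Real.log_nonneg (by linarith)
  have hl0 : 0 ≤ l := by rw [hl]; exact Real.log_nonneg hM1r
  have hlL : l ≤ 2 / 5 * L := by
    rw [hl, hL, ← Real.log_rpow hN0]
    exact Real.log_le_log (by linarith) hMle
  have hexpN : ∀ a : ℝ, (N : ℝ) ^ a = Real.exp (a * L) := by
    intro a
    rw [Real.rpow_def_of_pos hN0, hL, mul_comm]
  have hexpM : (M : ℝ) ^ 2 = Real.exp (2 * l) := by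
    rw [hl, mul_comm, Real.exp_mul, Real.exp_log (by linarith)]
    norm_cast
  have hcon := consts' (κ := κ) hC0 hC1 (by linarith) hr1
  rcases (norm_nonneg (TT r M a)).eq_or_lt with hT | hT
  · rw [← hT]
    positivity
  suffices hmain : Real.log ‖TT r M a‖ ≤
      2 * l + (41 * C1 + C0 + 6) - 1 / 10 ^ 10 / (1 + κ) ^ 2 * L by
    rw [hexpM, hexpN, ← Real.exp_add, ← Real.exp_add, ← Real.exp_log hT]
    apply Real.exp_le_exp.2
    linarith
  by_cases hs : ((9 * r ^ 2 : ℕ) : ℝ) ≤ 3 * (N : ℝ) ^ (κ / 5)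
  · -- main case
    have hJ := hV r (8 * r) M hrN hM1
    have hD := h2 (9 * r ^ 2) r M a (by
      have : 0 < r ^ 2 := by positivity
      omega) (by omega) hM1
    have hrs : r ^ 2 + r * (8 * r) = 9 * r ^ 2 := by ring
    rw [hrs] at hJ
    obtain ⟨e, he⟩ : ∃ e : ℝ, e = 2 * ((r : ℝ) ^ 2 + r * (8 * r)) - r * (r + 1) / 2 +
      r * (r + 1) / 2 * (1 - 1 / (r : ℝ)) ^ (8 * r) := ⟨_, rfl⟩
    have hJ' : (J (9 * r ^ 2) r M : ℝ) ≤ Real.exp (C1 * ((r : ℝ) + 8 * r) ^ 4) * (M : ℝ) ^ e := by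
      rw [he]
      refine hJ.trans (le_of_eq ?_)
      push_cast
      rfl
    have hTpow : 0 < ‖TT r M a‖ ^ (4 * (9 * r ^ 2) ^ 2) := pow_pos hT _
    have hprod : 0 < (M : ℝ) ^ (8 * (9 * r ^ 2) ^ 2 - 4 * (9 * r ^ 2)) *
        (J (9 * r ^ 2) r M : ℝ) ^ 2 * ∏ j ∈ Finset.Icc 1 r, WJ (9 * r ^ 2) M j (a j) :=
      hTpow.trans_le hD
    have hJpos : (0 : ℝ) < J (9 * r ^ 2) r M := by
      rcases (Nat.cast_nonneg (α := ℝ) (J (9 * r ^ 2) r M)).eq_or_lt with h | h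
      · rw [← h] at hprod
        simp at hprod
      · exact h
    have hWnn : ∀ j, 0 ≤ WJ (9 * r ^ 2) M j (a j) := by
      intro j
      unfold WJ
      refine Finset.sum_nonneg fun u _ => ?_
      unfold mn dz
      split_ifs
      · positivity
      · refine le_min (by positivity) ?_
        have := abs_nonneg (a j * u - round (a j * u))
        positivity
    have hWpos : ∀ j ∈ Finset.Icc 1 r, 0 < WJ (9 * r ^ 2) M j (a j) := by
      intro j hj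
      rcases (hWnn j).eq_or_lt with h | h
      · rw [Finset.prod_eq_zero hj h.symm, mul_zero] at hprod
        exact absurd hprod (lt_irrefl _)
      · exact h
    have hlogJ : Real.log (J (9 * r ^ 2) r M : ℝ) ≤ C1 * ((r : ℝ) + 8 * r) ^ 4 + e * l := by
      refine (Real.log_le_log hJpos hJ').trans (le_of_eq ?_)
      rw [Real.log_mul (Real.exp_pos _).ne' (Real.rpow_pos_of_pos (by linarith) _).ne',
        Real.log_exp, Real.log_rpow (by linarith), hl]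
    have hlog1L : 0 ≤ Real.log (1 + L) := Real.log_nonneg (by linarith)
    have hlogW : ∀ j ∈ Finset.Icc 1 r, Real.log (WJ (9 * r ^ 2) M j (a j)) ≤
        2 * (j : ℝ) * l + C0 * (1 + κ) + Real.log (1 + L) -
          (if 2 * κ ≤ j ∧ (j : ℝ) ≤ 3 * κ + 1 / 2 then κ / 5 * L else 0) := by
      intro j hj
      obtain ⟨k1, k2⟩ := hW N j r (9 * r ^ 2) M κ μ a hN hκ hr rfl hM1 hμ1 hμ2 hμ3 hMlo hMle hj hadm
      have hM2j : Real.log ((M : ℝ) ^ (2 * j)) = 2 * (j : ℝ) * l := by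
        rw [Real.log_pow, hl]
        push_cast
        ring
      have hMp : (0 : ℝ) < (M : ℝ) ^ (2 * j) := by positivity
      split_ifs with hg
      · have k3 := k2 hs hg.1 hg.2
        refine (Real.log_le_log (hWpos j hj) k3).trans (le_of_eq ?_)
        have k4 : (0 : ℝ) < 1 + Real.log N := by rw [← hL]; linarith
        rw [Real.log_mul hMp.ne' (by positivity), Real.log_mul (by positivity) (by positivity),
          Real.log_mul (Real.exp_pos _).ne' k4.ne', Real.log_exp, hM2j, Real.log_rpow hN0, ← hL]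
        ring
      · refine (Real.log_le_log (hWpos j hj) k1).trans ?_
        rw [Real.log_mul hMp.ne' (Real.exp_pos _).ne', Real.log_exp, hM2j]
        linarith
    obtain ⟨g, hg⟩ : ∃ g : ℝ, g = (((Finset.Icc 1 r).filter fun j : ℕ =>
      2 * κ ≤ j ∧ (j : ℝ) ≤ 3 * κ + 1 / 2).card : ℝ) := ⟨_, rfl⟩
    have hsum : ∑ j ∈ Finset.Icc 1 r, Real.log (WJ (9 * r ^ 2) M j (a j)) ≤
        r * (r + 1) * l + r * (C0 * (1 + κ)) + r * Real.log (1 + L) - g * (κ / 5 * L) := by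
      refine (Finset.sum_le_sum hlogW).trans (le_of_eq ?_)
      rw [Finset.sum_sub_distrib, Finset.sum_add_distrib, Finset.sum_add_distrib,
        ← Finset.sum_mul, sum_two_mul, Finset.sum_const, Finset.sum_const, Nat.card_Icc,
        ← Finset.sum_filter, Finset.sum_const, hg]
      simp only [Nat.add_sub_cancel, nsmul_eq_mul]
    have hlogD : ((4 * (9 * r ^ 2) ^ 2 : ℕ) : ℝ) * Real.log ‖TT r M a‖ ≤
        ((8 * (9 * r ^ 2) ^ 2 - 4 * (9 * r ^ 2) : ℕ) : ℝ) * l +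
          2 * Real.log (J (9 * r ^ 2) r M : ℝ) +
          ∑ j ∈ Finset.Icc 1 r, Real.log (WJ (9 * r ^ 2) M j (a j)) := by
      have k1 := Real.log_le_log hTpow hD
      have k2 : (0 : ℝ) < ∏ j ∈ Finset.Icc 1 r, WJ (9 * r ^ 2) M j (a j) :=
        Finset.prod_pos hWpos
      rw [Real.log_mul (by positivity) k2.ne', Real.log_mul (by positivity) (by positivity),
        Real.log_pow, Real.log_pow, Real.log_pow, Real.log_prod (fun j hj => (hWpos j hj).ne'),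
        ← hl] at k1
      exact_mod_cast k1
    have hcast1 : ((4 * (9 * r ^ 2) ^ 2 : ℕ) : ℝ) = 4 * (9 * (r : ℝ) ^ 2) ^ 2 := by push_cast; ring
    have hcast2 : ((8 * (9 * r ^ 2) ^ 2 - 4 * (9 * r ^ 2) : ℕ) : ℝ) =
        8 * (9 * (r : ℝ) ^ 2) ^ 2 - 4 * (9 * (r : ℝ) ^ 2) := by
      rw [Nat.cast_sub]
      · push_cast
        ring
      · have k1 : 1 ≤ 9 * r ^ 2 := by
          have : 0 < r ^ 2 := by positivity
          omega
        nlinarith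
    rw [hcast1, hcast2] at hlogD
    have hη : r * (r + 1) / 2 * (1 - 1 / (r : ℝ)) ^ (8 * r) ≤ (r : ℝ) * (r + 1) / 2 / 2937 := by
      have k1 := pow_le_exp (r := r) (by omega)
      calc (r : ℝ) * (r + 1) / 2 * (1 - 1 / (r : ℝ)) ^ (8 * r) ≤
          (r : ℝ) * (r + 1) / 2 * (1 / 2937) := by gcongr
        _ = _ := by ring
    exact final' (κ := κ) (L := L) (l := l) (r := r)
      (η := r * (r + 1) / 2 * (1 - 1 / (r : ℝ)) ^ (8 * r)) (g := g)
      (A0 := C0 * (1 + κ)) (A1 := C1 * ((r : ℝ) + 8 * r) ^ 4)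
      (y := Real.log ‖TT r M a‖) (by linarith) hL0 hl0 hlL hr1 hr2 hη
      (by rw [hg]; exact card_good (by linarith) hr1) (by positivity) (by positivity) hcon (by
        rw [← he]
        linarith)
  · -- small `N`
    push Not at hs
    have k1 : κ / 5 * L ≤ (N : ℝ) ^ (κ / 5) := by
      rw [hexpN]
      have := Real.add_one_le_exp (κ / 5 * L)
      linarith
    have k2 : κ / 5 * L ≤ 9 * (r : ℝ) ^ 2 := by
      push_cast at hs
      have k3 : (0 : ℝ) < (N : ℝ) ^ (κ / 5) := by positivity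
      linarith
    have k3 : (r : ℝ) ^ 2 ≤ 289 * κ ^ 2 := by
      calc (r : ℝ) ^ 2 ≤ (17 * κ) ^ 2 := by gcongr
        _ = 289 * κ ^ 2 := by ring
    have k4 : L ≤ 26010 * (1 + κ) ^ 2 := by
      have k5 : κ / 5 * L ≤ κ / 5 * (13005 * κ) := by
        calc κ / 5 * L ≤ 9 * (289 * κ ^ 2) := by linarith
          _ = κ / 5 * (13005 * κ) := by ring
      have k6 : L ≤ 13005 * κ := le_of_mul_le_mul_left k5 (by positivity)
      nlinarith
    have k5 : 1 / 10 ^ 10 / (1 + κ) ^ 2 * L ≤ 1 := by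
      have k6 : (0 : ℝ) < (1 + κ) ^ 2 := by positivity
      rw [div_div, div_mul_eq_mul_div, div_le_one (by positivity)]
      nlinarith
    have k6 : Real.log ‖TT r M a‖ ≤ 2 * l := by
      refine (Real.log_le_log hT (TT_le _ _ _)).trans (le_of_eq ?_)
      rw [Real.log_pow, hl]
      norm_num
    linarith

end Pool.Agent.N586.AN
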