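import Pool.Agent.N586.AN.One3

/-!
# The exponential sums over all pairs, in the full range
-/

set_option autoImplicit false

namespace Pool.Agent.N586.AN

open Finset Real Filter Polynomial
open Pool.Agent.Y933.KG (pol Om tot_sum card_Om_ge)
open Pool.Agent.Y933.KD (e norm_e e_add)
open Pool.Agent.Y933.KD.VdC (ev_le)
open Pool.Agent.N586.RT (logpow log_ge)

/-- power savings are enough -/
lemma tot_small2 (K ρ β : ℝ) (hρ : 0 < ρ) (hβ : 0 < β) (hβ1 : β < 1) : ∃ H0 : ℕ, ∀ H : ℕ, H0 ≤ H →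
    K * (H : ℝ) ^ (-ρ) ≤ 1 / 2 * Real.exp (-(log H) ^ β) ∧
    Real.exp (-(2 * (log H) ^ β)) ≤ 1 / 2 * Real.exp (-(log H) ^ β) := by
  obtain ⟨H1, hH1⟩ := eventually_atTop.1 ((((ev_le (2 * K) (ρ / 2) (by positivity)).and
    (logpow hβ1 (2 / ρ))).and
    (logpow hβ 1)).and (eventually_ge_atTop 2))
  refine ⟨H1, fun H hH => ?_⟩
  obtain ⟨⟨⟨h1, h2⟩, h3⟩, h4⟩ := hH1 H hH
  have hHR : (2 : ℝ) ≤ H := by exact_mod_cast h4
  have hHp : (0 : ℝ) < H := by linarith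
  rw [Real.rpow_one] at h2
  rw [Real.rpow_zero] at h3
  constructor
  · have h5 : (H : ℝ) ^ (-(ρ / 2)) ≤ Real.exp (-(log H) ^ β) := by
      rw [Real.rpow_def_of_pos hHp]
      apply Real.exp_le_exp.2
      rw [div_mul_eq_mul_div, div_le_iff₀ hρ] at h2
      linarith
    have h6 : (H : ℝ) ^ (-ρ) = (H : ℝ) ^ (-(ρ / 2)) * ((H : ℝ) ^ (ρ / 2))⁻¹ := by
      rw [← Real.rpow_neg hHp.le, ← Real.rpow_add hHp]
      congr 1
      ring
    have h7 : 0 < (H : ℝ) ^ (ρ / 2) := by positivity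
    have h8 : K * ((H : ℝ) ^ (ρ / 2))⁻¹ ≤ 1 / 2 := by
      rw [← div_eq_mul_inv, div_le_iff₀ h7]
      linarith
    calc K * (H : ℝ) ^ (-ρ) = (K * ((H : ℝ) ^ (ρ / 2))⁻¹) * (H : ℝ) ^ (-(ρ / 2)) := by
          rw [h6]; ring
      _ ≤ 1 / 2 * (H : ℝ) ^ (-(ρ / 2)) := by gcongr
      _ ≤ _ := by gcongr
  · have h5 : Real.exp (-(2 * (log H) ^ β)) =
        Real.exp (-(log H) ^ β) * Real.exp (-(log H) ^ β) := by
      rw [← Real.exp_add]
      congr 1
      ring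
    have h6 : Real.exp (-(log H) ^ β) ≤ 1 / 2 := by
      rw [Real.exp_neg, one_div]
      apply inv_anti₀ (by norm_num)
      have := Real.add_one_le_exp ((log (H : ℝ)) ^ β)
      linarith
    rw [h5]
    exact mul_le_mul_of_nonneg_right h6 (Real.exp_pos _).le

theorem t_tot2 (hTN : S_TN2) (hBR : S_BR) (hCNT : S_CNT) (hSH : S_SH) : S_TOT2 := by
  classical
  intro q δ β hδp hβ hδβ δ₀ hδ₀
  have hβ1 : β < 1 := by linarith
  obtain ⟨H1, h1⟩ := one2 hTN hBR q δ β hδp hβ hδβ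
  obtain ⟨κ, hκ, ρ, hρ, H2, h2⟩ := hCNT q
  obtain ⟨H3, h3⟩ := hSH q
  obtain ⟨κ', hκ', ρ', hρ', hρ1', Cc, hCc, H4, h4⟩ := tot_sum q 3 (by norm_num) δ₀ hδ₀
  obtain ⟨H5, h5⟩ := tot_small2 8 ρ β hρ hβ hβ1
  obtain ⟨H6, h6⟩ := tot_small2 (8 * Cc) ρ' β hρ' hβ hβ1
  obtain ⟨H7, h7⟩ := eventually_atTop.1 (((logpow hβ1 (1 / κ)).and
    (logpow hβ1 (1 / κ'))).and (eventually_ge_atTop 2))
  refine ⟨max (max (max H1 H2) (max H3 H4)) (max (max H5 H6) H7), ?_⟩
  intro H hH G hG1 hG2 hGc hGl θ hθ1 hθ2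
  have hHH1 : H1 ≤ H := le_of_max_le_left (le_of_max_le_left (le_of_max_le_left hH))
  have hHH2 : H2 ≤ H := le_of_max_le_right (le_of_max_le_left (le_of_max_le_left hH))
  have hHH3 : H3 ≤ H := le_of_max_le_left (le_of_max_le_right (le_of_max_le_left hH))
  have hHH4 : H4 ≤ H := le_of_max_le_right (le_of_max_le_right (le_of_max_le_left hH))
  have hHH5 : H5 ≤ H := le_of_max_le_left (le_of_max_le_left (le_of_max_le_right hH))
  have hHH6 : H6 ≤ H := le_of_max_le_right (le_of_max_le_left (le_of_max_le_right hH))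
  have hHH7 : H7 ≤ H := le_of_max_le_right (le_of_max_le_right hH)
  obtain ⟨⟨ha, hb⟩, hH2'⟩ := h7 H hHH7
  rw [Real.rpow_one] at ha hb
  have hHR : (2 : ℝ) ≤ H := by exact_mod_cast hH2'
  have hHp : (0 : ℝ) < H := by linarith
  have hH1R : (1 : ℝ) ≤ H := by linarith
  have hconv : ∀ κ : ℝ, 0 < κ → 1 / κ * (log H) ^ β ≤ log H →
      Real.exp ((log H) ^ β) ≤ (H : ℝ) ^ κ ∧
        (H : ℝ) ^ (-κ) ≤ Real.exp (-(log H) ^ β) := by
    intro κ hκ h
    rw [div_mul_eq_mul_div, one_mul, div_le_iff₀ hκ] at h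
    rw [Real.rpow_def_of_pos hHp, Real.rpow_def_of_pos hHp]
    constructor
    · exact Real.exp_le_exp.2 h
    · apply Real.exp_le_exp.2
      linarith
  have hOm := card_Om_ge q H hH2'
  set S : ℂ := ∑ p ∈ Om q H, e (θ * G.eval p.2.2) with hS
  rcases le_or_gt |θ| ((H : ℝ) ^ ((3 : ℕ) : ℝ)) with hθ3 | hθ3
  · -- small frequencies
    obtain ⟨hc1, hc2⟩ := hconv κ' hκ' hb
    have key := h4 H hHH4 G hG1 hG2 (fun i hi => (hGc i hi).trans hc1) (hc2.trans hGl) θ hθ1 hθ3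
    have key' : ‖S‖ ≤ Cc * (H : ℝ) ^ ((q : ℝ) + 3 - ρ') := key
    refine key'.trans ?_
    obtain ⟨h8, _⟩ := h6 H hHH6
    calc Cc * (H : ℝ) ^ ((q : ℝ) + 3 - ρ') = ((H : ℝ) ^ (q + 3) / 8) * (8 * Cc * (H : ℝ) ^ (-ρ')) := by
          rw [← Real.rpow_natCast (H : ℝ) (q + 3), sub_eq_add_neg, Real.rpow_add hHp]
          push_cast
          ring
      _ ≤ ((Om q H).card : ℝ) * (1 / 2 * Real.exp (-(log H) ^ β)) := by
          gcongr
      _ ≤ _ := by
          have := (Real.exp_pos (-(log (H : ℝ)) ^ β)).le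
          gcongr
          linarith
  · -- large frequencies
    have hθ2' : (H : ℝ) ^ (2 : ℝ) ≤ |θ| := by
      refine le_trans ?_ hθ3.le
      apply Real.rpow_le_rpow_of_exponent_le hH1R
      norm_num
    obtain ⟨hc1, hc2⟩ := hconv κ hκ ha
    have hB := h2 H hHH2 G hG1 hG2 (fun i hi => (hGc i hi).trans hc1) (hc2.trans hGl)
    set Bd : ℝ := (({p ∈ (Om q H : Set (Pr q)) | ¬ Gd q H G p}.ncard : ℕ) : ℝ) with hBd
    have hone := h1 H hHH1 G hG2 hGc θ hθ2' hθ2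
    have hex : ∀ p : Pr q, ∃ σ : ℝ → ℝ, p ∈ Om q H → Gd q H G p →
      (∀ n : ℕ, (n : ℝ) ≤ (H : ℝ) ^ (39 / 100 : ℝ) →
      (pol q p.1 p.2.1).eval (p.2.2 + σ n) +
        n * (vv (Nat.sqrt H) p.2.2 + (Nat.sqrt H : ℝ) * (p.2.2 + σ n)) = 0 ∧
      |σ n| ≤ 8 * n / |(derivative (pol q p.1 p.2.1)).eval p.2.2|) ∧
      ‖∑ x ∈ Finset.Icc 1 (ML H), ∑ y ∈ Finset.Icc 1 (ML H),
        e (θ * G.eval (p.2.2 + σ ((x * y : ℕ) : ℝ)))‖ ≤
        (ML H : ℝ) ^ 2 * Real.exp (-(2 * (log H) ^ β)) := by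
      intro p
      by_cases hp : p ∈ Om q H ∧ Gd q H G p
      · obtain ⟨σ, hσ⟩ := hone p hp.1 hp.2
        exact ⟨σ, fun _ _ => hσ⟩
      · exact ⟨0, fun h9 h10 => absurd ⟨h9, h10⟩ hp⟩
    choose σ hσ using hex
    obtain ⟨M, hM⟩ : ∃ M : ℕ, M = ML H := ⟨_, rfl⟩
    have hMhi : (M : ℝ) ≤ (H : ℝ) ^ (39 / 200 : ℝ) := by
      rw [hM]
      exact Nat.floor_le (by positivity)
    have hM1 : 1 ≤ M := by
      rw [hM]
      exact Nat.le_floor (by simpa using Real.one_le_rpow hH1R (by norm_num : (0 : ℝ) ≤ 39 / 200))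
    have hM0 : (0 : ℝ) < M := by exact_mod_cast hM1
    have hstep : ∀ x ∈ Finset.Icc 1 M, ∀ y ∈ Finset.Icc 1 M,
        ‖S - ∑ p ∈ (Om q H).filter (fun p => Gd q H G p),
          e (θ * G.eval (p.2.2 + σ p ((x * y : ℕ) : ℝ)))‖ ≤ Bd := by
      intro x hx y hy
      rw [Finset.mem_Icc] at hx hy
      have hn : ((x * y : ℕ) : ℝ) ≤ (H : ℝ) ^ (39 / 100 : ℝ) := by
        have hxM : (x : ℝ) ≤ M := by exact_mod_cast hx.2
        have hyM : (y : ℝ) ≤ M := by exact_mod_cast hy.2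
        push_cast
        calc (x : ℝ) * y ≤ (H : ℝ) ^ (39 / 200 : ℝ) * (H : ℝ) ^ (39 / 200 : ℝ) :=
              mul_le_mul (hxM.trans hMhi) (hyM.trans hMhi) (by positivity) (by positivity)
          _ = _ := by
              rw [← Real.rpow_add hHp]
              norm_num
      exact h3 H hHH3 G (x * y) (fun p => σ p ((x * y : ℕ) : ℝ)) (fun t => e (θ * G.eval t)) hn
        (fun t => (norm_e _).le) (fun p hp hgd => (hσ p hp hgd).1 (x * y) hn)
    have hsum1 : (M : ℂ) ^ 2 * S = ∑ x ∈ Finset.Icc 1 M, ∑ y ∈ Finset.Icc 1 M,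
        (S - ∑ p ∈ (Om q H).filter (fun p => Gd q H G p),
          e (θ * G.eval (p.2.2 + σ p ((x * y : ℕ) : ℝ)))) +
        ∑ p ∈ (Om q H).filter (fun p => Gd q H G p), ∑ x ∈ Finset.Icc 1 M, ∑ y ∈ Finset.Icc 1 M,
          e (θ * G.eval (p.2.2 + σ p ((x * y : ℕ) : ℝ))) := by
      have h9 : ∑ p ∈ (Om q H).filter (fun p => Gd q H G p), ∑ x ∈ Finset.Icc 1 M,
          ∑ y ∈ Finset.Icc 1 M, e (θ * G.eval (p.2.2 + σ p ((x * y : ℕ) : ℝ))) =
          ∑ x ∈ Finset.Icc 1 M, ∑ y ∈ Finset.Icc 1 M,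
          ∑ p ∈ (Om q H).filter (fun p => Gd q H G p),
            e (θ * G.eval (p.2.2 + σ p ((x * y : ℕ) : ℝ))) := by
        rw [Finset.sum_comm]
        refine Finset.sum_congr rfl fun x _ => ?_
        rw [Finset.sum_comm]
      rw [h9]
      simp only [Finset.sum_sub_distrib, Finset.sum_const, Nat.card_Icc, Nat.add_sub_cancel,
        nsmul_eq_mul]
      ring
    have hnorm : (M : ℝ) ^ 2 * ‖S‖ ≤ (M : ℝ) ^ 2 * (Bd + ((Om q H).card : ℝ) *
        Real.exp (-(2 * (log H) ^ β))) := by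
      have h9 : (M : ℝ) ^ 2 * ‖S‖ = ‖(M : ℂ) ^ 2 * S‖ := by
        rw [norm_mul, norm_pow, Complex.norm_natCast]
      rw [h9, hsum1]
      refine (norm_add_le _ _).trans ?_
      rw [mul_add]
      refine add_le_add ?_ ?_
      · refine (norm_sum_le _ _).trans ((Finset.sum_le_sum fun x hx => (norm_sum_le _ _).trans
          (Finset.sum_le_sum fun y hy => hstep x hx y hy)).trans (le_of_eq ?_))
        simp only [Finset.sum_const, Nat.card_Icc, Nat.add_sub_cancel, nsmul_eq_mul]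
        ring
      · refine (norm_sum_le _ _).trans ?_
        calc _ ≤ ∑ _p ∈ (Om q H).filter (fun p => Gd q H G p),
            (M : ℝ) ^ 2 * Real.exp (-(2 * (log H) ^ β)) := by
              refine Finset.sum_le_sum fun p hp => ?_
              rw [Finset.mem_filter] at hp
              have := (hσ p hp.1 hp.2).2
              rw [← hM] at this
              exact this
          _ = (((Om q H).filter (fun p => Gd q H G p)).card : ℝ) *
            ((M : ℝ) ^ 2 * Real.exp (-(2 * (log H) ^ β))) := by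
              rw [Finset.sum_const, nsmul_eq_mul]
          _ ≤ ((Om q H).card : ℝ) * ((M : ℝ) ^ 2 * Real.exp (-(2 * (log H) ^ β))) := by
              refine mul_le_mul_of_nonneg_right ?_ (by positivity)
              exact_mod_cast Finset.card_filter_le _ _
          _ = _ := by ring
    have hfin := le_of_mul_le_mul_left hnorm (by positivity)
    refine hfin.trans ?_
    obtain ⟨h8, h9⟩ := h5 H hHH5
    have h10 : Bd ≤ ((Om q H).card : ℝ) * (1 / 2 * Real.exp (-(log H) ^ β)) := by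
      calc Bd ≤ (H : ℝ) ^ ((q : ℝ) + 3 - ρ) := hB
        _ = ((H : ℝ) ^ (q + 3) / 8) * (8 * (H : ℝ) ^ (-ρ)) := by
            rw [← Real.rpow_natCast (H : ℝ) (q + 3), sub_eq_add_neg, Real.rpow_add hHp]
            push_cast
            ring
        _ ≤ _ := by gcongr
    have h11 : ((Om q H).card : ℝ) * Real.exp (-(2 * (log H) ^ β)) ≤
        ((Om q H).card : ℝ) * (1 / 2 * Real.exp (-(log H) ^ β)) := by gcongr
    linarith

end Pool.Agent.N586.AN
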